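import Mathlib

/-!
# Word length in a group
-/

set_option autoImplicit false

namespace Pool.Agent.V1125

universe u

variable {G : Type u} [Group G] {S : Set G}

/-- Word length of `g` with respect to `S`: the least length of a word in the elements of `S` and
their inverses whose product is `g` (and `0` if there is no such word). -/
noncomputable def wordLen (S : Set G) (g : G) : ℕ :=
  sInf {n : ℕ | ∃ w : List G, (∀ s ∈ w, s ∈ S ∨ s⁻¹ ∈ S) ∧ w.prod = g ∧ w.length = n}

theorem wordLen_le (w : List G) (hw : ∀ s ∈ w, s ∈ S ∨ s⁻¹ ∈ S) :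
    wordLen S w.prod ≤ w.length :=
  Nat.sInf_le ⟨w, hw, rfl, rfl⟩

theorem exists_word {g : G} (hg : g ∈ Subgroup.closure S) :
    ∃ w : List G, (∀ s ∈ w, s ∈ S ∨ s⁻¹ ∈ S) ∧ w.prod = g := by
  have hg : g ∈ (Subgroup.closure S).toSubmonoid := hg
  rw [Subgroup.closure_toSubmonoid] at hg
  obtain ⟨w, hw, rfl⟩ := Submonoid.exists_list_of_mem_closure hg
  exact ⟨w, fun s hs => hw s hs, rfl⟩

theorem exists_min_word {g : G} (hg : g ∈ Subgroup.closure S) :
    ∃ w : List G, (∀ s ∈ w, s ∈ S ∨ s⁻¹ ∈ S) ∧ w.prod = g ∧ w.length = wordLen S g := by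
  have h : {n : ℕ | ∃ w : List G, (∀ s ∈ w, s ∈ S ∨ s⁻¹ ∈ S) ∧ w.prod = g ∧
      w.length = n}.Nonempty := by
    obtain ⟨w, hw, hg⟩ := exists_word hg
    exact ⟨w.length, w, hw, hg, rfl⟩
  exact Nat.sInf_mem h

theorem wordLen_mul_le {g h : G} (hg : g ∈ Subgroup.closure S) (hh : h ∈ Subgroup.closure S) :
    wordLen S (g * h) ≤ wordLen S g + wordLen S h := by
  obtain ⟨v, hv, hvg, hvl⟩ := exists_min_word hg
  obtain ⟨w, hw, hwg, hwl⟩ := exists_min_word hh
  have := wordLen_le (S := S) (v ++ w) (by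
    intro s hs
    rcases List.mem_append.1 hs with h | h
    · exact hv s h
    · exact hw s h)
  rw [List.prod_append, hvg, hwg, List.length_append, hvl, hwl] at this
  exact this

theorem wordLen_one : wordLen S (1 : G) = 0 := by
  have := wordLen_le (S := S) ([] : List G) (by simp)
  simpa using this

theorem wordLen_inv_le {g : G} (hg : g ∈ Subgroup.closure S) :
    wordLen S g⁻¹ ≤ wordLen S g := by
  obtain ⟨v, hv, hvg, hvl⟩ := exists_min_word hg
  have := wordLen_le (S := S) (v.map fun x => x⁻¹).reverse (by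
    intro s hs
    rw [List.mem_reverse, List.mem_map] at hs
    obtain ⟨a, ha, rfl⟩ := hs
    rw [inv_inv]
    exact (hv a ha).symm)
  rw [← List.prod_inv_reverse, hvg, List.length_reverse, List.length_map, hvl] at this
  exact this

theorem wordLen_inv {g : G} (hg : g ∈ Subgroup.closure S) :
    wordLen S g⁻¹ = wordLen S g := by
  refine le_antisymm (wordLen_inv_le hg) ?_
  simpa using wordLen_inv_le (Subgroup.inv_mem _ hg)

theorem wordLen_pow_le {g : G} (hg : g ∈ Subgroup.closure S) (n : ℕ) :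
    wordLen S (g ^ n) ≤ n * wordLen S g := by
  induction n with
  | zero => simp [wordLen_one]
  | succ n ih =>
    rw [pow_succ]
    have := wordLen_mul_le (Subgroup.pow_mem _ hg n) hg
    nlinarith

theorem wordLen_zpow_le {g : G} (hg : g ∈ Subgroup.closure S) (n : ℤ) :
    wordLen S (g ^ n) ≤ n.natAbs * wordLen S g := by
  obtain ⟨k, rfl | rfl⟩ := n.eq_nat_or_neg
  · simpa using wordLen_pow_le hg k
  · rw [zpow_neg, zpow_natCast, wordLen_inv (Subgroup.pow_mem _ hg _)]
    simpa using wordLen_pow_le hg k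

theorem wordLen_comm_le {g h : G} (hg : g ∈ Subgroup.closure S) (hh : h ∈ Subgroup.closure S) :
    wordLen S (g * h * g⁻¹ * h⁻¹) ≤ 2 * wordLen S g + 2 * wordLen S h := by
  have h1 := wordLen_mul_le hg hh
  have h2 := wordLen_mul_le (Subgroup.mul_mem _ hg hh) (Subgroup.inv_mem _ hg)
  have h3 := wordLen_mul_le (Subgroup.mul_mem _ (Subgroup.mul_mem _ hg hh)
    (Subgroup.inv_mem _ hg)) (Subgroup.inv_mem _ hh)
  rw [wordLen_inv hh] at h3
  rw [wordLen_inv hg] at h2
  omega

theorem eq_one_of_wordLen {g : G} (hg : g ∈ Subgroup.closure S) (h : wordLen S g = 0) :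
    g = 1 := by
  obtain ⟨v, -, hvg, hvl⟩ := exists_min_word hg
  rw [h, List.length_eq_zero_iff] at hvl
  rw [← hvg, hvl, List.prod_nil]

/-- A step along a shortest word. -/
theorem exists_step {g : G} (hg : g ∈ Subgroup.closure S) {n : ℕ} (h : wordLen S g = n + 1) :
    ∃ g' s : G, g' ∈ Subgroup.closure S ∧ (s ∈ S ∨ s⁻¹ ∈ S) ∧ g = g' * s ∧ wordLen S g' = n := by
  obtain ⟨v, hv, hvg, hvl⟩ := exists_min_word hg
  rcases List.eq_nil_or_concat v with rfl | ⟨w, s, rfl⟩
  · simp at hvl
    omega
  · rw [List.concat_eq_append] at hv hvg hvl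
    have hs : s ∈ S ∨ s⁻¹ ∈ S := hv s (by simp)
    have hw : ∀ a ∈ w, a ∈ S ∨ a⁻¹ ∈ S := fun a ha => hv a (by simp [ha])
    have hsc : s ∈ Subgroup.closure S := by
      rcases hs with h | h
      · exact Subgroup.subset_closure h
      · simpa using Subgroup.inv_mem _ (Subgroup.subset_closure h)
    have hwc : w.prod ∈ Subgroup.closure S := by
      refine Subgroup.list_prod_mem _ fun a ha => ?_
      rcases hw a ha with h | h
      · exact Subgroup.subset_closure h
      · simpa using Subgroup.inv_mem _ (Subgroup.subset_closure h)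
    have h1 := wordLen_le w hw
    have h2 := wordLen_mul_le hwc hsc
    have h3 : wordLen S s ≤ 1 := by
      have := wordLen_le (S := S) [s] (by simpa using hs)
      simpa using this
    have h4 : w.prod * s = g := by simpa using hvg
    rw [h4] at h2
    simp at hvl
    exact ⟨w.prod, s, hwc, hs, h4.symm, by omega⟩

theorem finite_ball (hfin : S.Finite) (n : ℕ) :
    {g : G | g ∈ Subgroup.closure S ∧ wordLen S g ≤ n}.Finite := by
  induction n with
  | zero =>
    refine (Set.finite_singleton (1 : G)).subset fun g hg => ?_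
    exact eq_one_of_wordLen hg.1 (Nat.le_zero.1 hg.2)
  | succ n ih =>
    refine (ih.union (ih.mul (hfin.union hfin.inv))).subset fun g hg => ?_
    rcases Nat.lt_or_ge n (wordLen S g) with h | h
    · have h1 := hg.2
      obtain ⟨g', s, hg', hs, rfl, hl⟩ := exists_step (n := n) hg.1 (by omega)
      right
      refine ⟨g', ⟨hg', by omega⟩, s, ?_, rfl⟩
      rcases hs with hs | hs
      · exact Or.inl hs
      · exact Or.inr (Set.mem_inv.2 hs)
    · exact Or.inl ⟨hg.1, h⟩

end Pool.Agent.V1125
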