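import Pool.Agent.V1125.Minor

/-!
# Small integer solutions of unit and addition systems
-/

set_option autoImplicit false

namespace Pool.Agent.V1125.Minor

open Matrix Finset

/-- Rows of the form `e_u + e_v - e_w`. -/
def Avg {s : ℕ} (r : Fin s → ℤ) : Prop := ∃ u v w : Option (Fin s), r = dl u + dl v - dl w

theorem bd_avg {s : ℕ} (T : Finset (Fin s)) : ∀ N : Matrix (Fin s) (Fin s) ℤ,
    (∀ i, i ∉ T → Ext (N i)) → (∀ i, i ∈ T → Avg (N i)) → |N.det| ≤ 2 ^ s := by
  induction T using Finset.induction_on with
  | empty => exact fun N h _ => bd s N fun i => h i (by simp)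
  | insert a T ha ih =>
    intro N h1 h2
    obtain ⟨u, v, w, huvw⟩ := h2 a (Finset.mem_insert_self _ _)
    have e1 : (2 : ℤ) • N a = ((2 : ℤ) • dl u - dl w) + ((2 : ℤ) • dl v - dl w) := by
      rw [huvw]
      funext k
      simp only [Pi.add_apply, Pi.sub_apply, Pi.smul_apply, smul_eq_mul]
      ring
    have e2 : (N.updateRow a ((2 : ℤ) • N a)).det = 2 * N.det := by
      rw [Matrix.det_updateRow_smul, Matrix.updateRow_eq_self]
    rw [e1, Matrix.det_updateRow_add] at e2
    have key : ∀ r : Fin s → ℤ, Ext r → |(N.updateRow a r).det| ≤ 2 ^ s := by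
      intro r hr
      refine ih _ (fun i hi => ?_) (fun i hi => ?_)
      · by_cases hia : i = a
        · rw [hia, Matrix.updateRow_self]
          exact hr
        · rw [Matrix.updateRow_ne hia]
          exact h1 i (by rw [Finset.mem_insert]; push Not; exact ⟨hia, hi⟩)
      · have hia : i ≠ a := by
          rintro rfl
          exact ha hi
        rw [Matrix.updateRow_ne hia]
        exact h2 i (Finset.mem_insert_of_mem hi)
    have b1 := key _ (ext_mk u w)
    have b2 := key _ (ext_mk v w)
    have b3 := abs_add_le (N.updateRow a ((2 : ℤ) • dl u - dl w)).det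
      (N.updateRow a ((2 : ℤ) • dl v - dl w)).det
    rw [e2, abs_mul] at b3
    have : |(2 : ℤ)| = 2 := by norm_num
    rw [this] at b3
    linarith

theorem bd_avg' {s : ℕ} (N : Matrix (Fin s) (Fin s) ℤ) (h : ∀ i, Avg (N i)) :
    |N.det| ≤ 2 ^ s :=
  bd_avg Finset.univ N (fun i hi => absurd (Finset.mem_univ i) hi) fun i _ => h i

variable {n : ℕ}

/-- The homogeneous rows of the equations satisfied by `x`. -/
def RR (x : Fin n → ℤ) (i0 : Fin n) : Set (Fin n → ℤ) :=
  {r | (∃ i j k, x k = x i + x j ∧ r = Pi.single i 1 + Pi.single j 1 - Pi.single k 1) ∨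
    (∃ i, x i = 1 ∧ r = Pi.single i 1 - Pi.single i0 1)}

theorem single_comp {s : ℕ} (cols : Fin s → Fin n) (hc : Function.Injective cols) (i : Fin n) :
    ∃ u : Option (Fin s), (fun c => (Pi.single i (1 : ℤ) : Fin n → ℤ) (cols c)) = dl u := by
  by_cases h : ∃ c, cols c = i
  · obtain ⟨c, hc'⟩ := h
    refine ⟨some c, ?_⟩
    funext d
    unfold dl
    rw [← hc']
    by_cases hd : c = d
    · subst hd
      simp
    · rw [Pi.single_eq_of_ne (fun h => hd (hc h).symm), if_neg]
      intro h
      exact hd (Option.some.inj h)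
  · refine ⟨none, ?_⟩
    push Not at h
    funext d
    rw [Pi.single_eq_of_ne (h d)]
    simp [dl]

theorem avg_comp {x : Fin n → ℤ} {i0 : Fin n} {r : Fin n → ℤ} (hr : r ∈ RR x i0) {s : ℕ}
    (cols : Fin s → Fin n) (hc : Function.Injective cols) : Avg (fun c => r (cols c)) := by
  rcases hr with ⟨i, j, k, -, rfl⟩ | ⟨i, -, rfl⟩
  · obtain ⟨u, hu⟩ := single_comp cols hc i
    obtain ⟨v, hv⟩ := single_comp cols hc j
    obtain ⟨w, hw⟩ := single_comp cols hc k
    refine ⟨u, v, w, ?_⟩
    rw [← hu, ← hv, ← hw]
    rfl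
  · obtain ⟨u, hu⟩ := single_comp cols hc i
    obtain ⟨w, hw⟩ := single_comp cols hc i0
    refine ⟨u, none, w, ?_⟩
    rw [← hu, ← hw, dl_none, add_zero]
    rfl

section Main

variable {x : Fin n → ℤ} {i0 : Fin n} {m : ℕ} (r : Fin m → (Fin n → ℤ))
  (cols : Fin (m + 1) → Fin n)

/-- The rows: the unit row followed by the chosen rows. -/
def AA (i0 : Fin n) : Fin (m + 1) → (Fin n → ℤ) := Fin.cons (Pi.single i0 1) r

/-- The square matrix of the chosen rows and columns. -/
def MM (i0 : Fin n) : Matrix (Fin (m + 1)) (Fin (m + 1)) ℤ := fun s c => AA r i0 s (cols c)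

variable {r cols}

theorem det_le (hr : ∀ s, r s ∈ RR x i0) (cols : Fin (m + 1) → Fin n) :
    |(MM r cols i0).det| ≤ 2 ^ m := by
  by_cases hc : Function.Injective cols
  · have hminor : ∀ c : Fin (m + 1),
        |((MM r cols i0).submatrix Fin.succ c.succAbove).det| ≤ 2 ^ m := by
      intro c
      refine bd_avg' _ fun s => ?_
      exact avg_comp (hr s) (fun d => cols (c.succAbove d))
        (fun a b h => Fin.succAbove_right_injective (hc h))
    rw [Matrix.det_succ_row_zero]
    have h0 : ∀ c, MM r cols i0 0 c = (Pi.single i0 (1 : ℤ) : Fin n → ℤ) (cols c) := fun c => rfl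
    by_cases h : ∃ c, cols c = i0
    · obtain ⟨c, hc'⟩ := h
      rw [Finset.sum_eq_single c]
      · rw [h0, hc', Pi.single_eq_same, mul_one, abs_mul, abs_pow, abs_neg, abs_one, one_pow,
          one_mul]
        exact hminor c
      · intro d _ hd
        rw [h0, Pi.single_eq_of_ne (fun h => hd (hc (h.trans hc'.symm)))]
        ring
      · intro h
        exact absurd (Finset.mem_univ c) h
    · push Not at h
      rw [Finset.sum_eq_zero]
      · simp
      · intro c _
        rw [h0, Pi.single_eq_of_ne (h c)]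
        ring
  · unfold Function.Injective at hc
    push Not at hc
    obtain ⟨a, b, hab, hne⟩ := hc
    have : (MM r cols i0).det = 0 := by
      refine Matrix.det_zero_of_column_eq hne fun s => ?_
      show AA r i0 s (cols a) = AA r i0 s (cols b)
      rw [hab]
    rw [this]
    simp

/-- The coefficients of the kernel vector of the column `j`. -/
noncomputable def kap (r : Fin m → (Fin n → ℤ)) (cols : Fin (m + 1) → Fin n) (i0 : Fin n)
    (j : Fin n) : Fin (m + 1) → ℤ := (MM r cols i0).cramer (fun s => AA r i0 s j)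

theorem kap_le (hr : ∀ s, r s ∈ RR x i0) (j : Fin n) (c : Fin (m + 1)) :
    |kap r cols i0 j c| ≤ 2 ^ m := by
  have h := det_le hr (Function.update cols c j)
  have h2 : kap r cols i0 j c = (MM r (Function.update cols c j) i0).det := by
    unfold kap
    rw [Matrix.cramer_apply]
    congr 1
    ext s d
    by_cases hd : d = c
    · subst hd
      rw [Matrix.updateCol_self]
      unfold MM
      rw [Function.update_self]
    · rw [Matrix.updateCol_ne hd]
      unfold MM
      rw [Function.update_of_ne hd]
  rw [h2]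
  exact h

theorem b_le (hr : ∀ s, r s ∈ RR x i0) (hc : Function.Injective cols) (c : Fin (m + 1)) :
    |(MM r cols i0).cramer (Pi.single 0 1) c| ≤ 2 ^ m := by
  rw [Matrix.cramer_apply, Matrix.det_succ_column _ c, Finset.sum_eq_single 0]
  · rw [Matrix.updateCol_self, Pi.single_eq_same, mul_one, abs_mul, abs_pow, abs_neg, abs_one,
      one_pow, one_mul]
    refine bd_avg' _ fun s => ?_
    have e : ((MM r cols i0).updateCol c (Pi.single 0 1)).submatrix (Fin.succAbove 0)
        c.succAbove s = fun d => r s (cols (c.succAbove d)) := by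
      funext d
      rw [Matrix.submatrix_apply, Matrix.updateCol_ne (Fin.succAbove_ne c d), Fin.succAbove_zero]
      rfl
    rw [e]
    exact avg_comp (hr s) (fun d => cols (c.succAbove d))
      (fun a b h => Fin.succAbove_right_injective (hc h))
  · intro k _ hk
    rw [Matrix.updateCol_self, Pi.single_eq_of_ne hk]
    ring
  · intro h
    exact absurd (Finset.mem_univ _) h

/-- The kernel relation for the chosen rows. -/
theorem kap_row (s : Fin (m + 1)) (j : Fin n) :
    ∑ c, AA r i0 s (cols c) * kap r cols i0 j c = (MM r cols i0).det * AA r i0 s j := by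
  have h := congrFun (Matrix.mulVec_cramer (MM r cols i0) (fun s => AA r i0 s j)) s
  exact h

/-- The kernel relation for all rows, by maximality. -/
theorem kap_rel (hD : (MM r cols i0).det ≠ 0) {p : Fin n → ℤ} (j : Fin n)
    (hmax : (MM (Fin.snoc r p : Fin (m + 1) → (Fin n → ℤ)) (Fin.snoc cols j) i0).det = 0) :
    ∑ c, p (cols c) * kap r cols i0 j c = (MM r cols i0).det * p j := by
  obtain ⟨v, hv, hv0⟩ := (Matrix.exists_mulVec_eq_zero_iff).2 hmax
  have hA : ∀ s : Fin (m + 1), AA (Fin.snoc r p : Fin (m + 1) → (Fin n → ℤ)) i0 s.castSucc =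
      AA r i0 s := by
    intro s
    unfold AA
    rw [Fin.cons_snoc_eq_snoc_cons, Fin.snoc_castSucc]
  have hAl : AA (Fin.snoc r p : Fin (m + 1) → (Fin n → ℤ)) i0 (Fin.last (m + 1)) = p := by
    unfold AA
    rw [Fin.cons_snoc_eq_snoc_cons, Fin.snoc_last]
  have h1 : ∀ s : Fin (m + 1), ∑ c : Fin (m + 1), AA r i0 s (cols c) * v c.castSucc +
      AA r i0 s j * v (Fin.last _) = 0 := by
    intro s
    have h := congrFun hv0 s.castSucc
    rw [Matrix.mulVec, dotProduct, Fin.sum_univ_castSucc] at h
    simpa only [MM, hA, Fin.snoc_castSucc, Fin.snoc_last, Pi.zero_apply] using h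
  have h2 : ∑ c : Fin (m + 1), p (cols c) * v c.castSucc + p j * v (Fin.last _) = 0 := by
    have h := congrFun hv0 (Fin.last (m + 1))
    rw [Matrix.mulVec, dotProduct, Fin.sum_univ_castSucc] at h
    simpa only [MM, hAl, Fin.snoc_castSucc, Fin.snoc_last, Pi.zero_apply] using h
  set t := v (Fin.last (m + 1)) with ht
  have h3 : (MM r cols i0).mulVec (fun c => v c.castSucc) = (-t) • (fun s => AA r i0 s j) := by
    funext s
    have := h1 s
    rw [Pi.smul_apply, smul_eq_mul]
    have h4 : (MM r cols i0).mulVec (fun c => v c.castSucc) s =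
      ∑ c : Fin (m + 1), AA r i0 s (cols c) * v c.castSucc := rfl
    rw [h4]
    linarith
  have h5 : ∀ c : Fin (m + 1), (MM r cols i0).det * v c.castSucc = -t * kap r cols i0 j c := by
    have h6 := congrArg ((MM r cols i0).adjugate.mulVec) h3
    rw [Matrix.mulVec_mulVec, Matrix.adjugate_mul, Matrix.smul_mulVec, Matrix.one_mulVec,
      Matrix.mulVec_smul, ← Matrix.cramer_eq_adjugate_mulVec] at h6
    intro c
    exact congrFun h6 c
  have ht0 : t ≠ 0 := by
    intro ht0
    apply hv
    funext c
    refine Fin.lastCases ?_ (fun c => ?_) c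
    · exact ht0
    · have := h5 c
      rw [ht0, neg_zero, zero_mul] at this
      exact (mul_eq_zero.1 this).resolve_left hD
  have h7 : t * (∑ c, p (cols c) * kap r cols i0 j c) = t * ((MM r cols i0).det * p j) := by
    have h8 : (MM r cols i0).det * (∑ c : Fin (m + 1), p (cols c) * v c.castSucc) =
        -t * ∑ c, p (cols c) * kap r cols i0 j c := by
      rw [Finset.mul_sum, Finset.mul_sum]
      refine Finset.sum_congr rfl fun c _ => ?_
      have := h5 c
      calc (MM r cols i0).det * (p (cols c) * v c.castSucc)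
          = p (cols c) * ((MM r cols i0).det * v c.castSucc) := by ring
        _ = p (cols c) * (-t * kap r cols i0 j c) := by rw [this]
        _ = -t * (p (cols c) * kap r cols i0 j c) := by ring
    have h9 : ∑ c : Fin (m + 1), p (cols c) * v c.castSucc = - (p j * t) := by linarith
    rw [h9] at h8
    linarith
  exact mul_left_cancel₀ ht0 h7

end Main

theorem exists_round (a D : ℤ) (hD : D ≠ 0) : ∃ q : ℤ, 2 * |a - q * D| ≤ |D| := by
  have h1 := Int.emod_nonneg a hD
  have h2 := Int.emod_lt_abs a hD
  have h3 := Int.emod_add_mul_ediv a D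
  by_cases h : 2 * (a % D) ≤ |D|
  · refine ⟨a / D, ?_⟩
    have : a - a / D * D = a % D := by linarith
    rw [this, abs_of_nonneg h1]
    exact h
  · push Not at h
    rcases abs_cases D with ⟨h4, h5⟩ | ⟨h4, h5⟩
    · refine ⟨a / D + 1, ?_⟩
      have : a - (a / D + 1) * D = -(|D| - a % D) := by rw [h4]; linarith
      rw [this, abs_neg, abs_of_nonneg (by linarith)]
      linarith
    · refine ⟨a / D - 1, ?_⟩
      have : a - (a / D - 1) * D = -(|D| - a % D) := by rw [h4]; linarith
      rw [this, abs_neg, abs_of_nonneg (by linarith)]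
      linarith

end Pool.Agent.V1125.Minor
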