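import Mathlib

/-!
# Signed digit expansions in base `m`
-/

set_option autoImplicit false

namespace Pool.Agent.V1125.BS

/-- The rational number with signed digits `c` in base `m`. -/
noncomputable def val (m : ℕ) (c : ℤ →₀ ℤ) : ℚ := c.sum fun i a => (a : ℚ) * (m : ℚ) ^ i

/-- The sum of the absolute values of the digits. -/
noncomputable def nrm (c : ℤ →₀ ℤ) : ℕ := c.sum fun _ a => a.natAbs

theorem val_add (m : ℕ) (c d : ℤ →₀ ℤ) : val m (c + d) = val m c + val m d :=
  Finsupp.sum_add_index' (by simp) (by intros; push_cast; ring)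

theorem val_single (m : ℕ) (i a : ℤ) : val m (Finsupp.single i a) = (a : ℚ) * (m : ℚ) ^ i :=
  Finsupp.sum_single_index (by simp)

theorem val_zero (m : ℕ) : val m 0 = 0 := Finsupp.sum_zero_index

theorem nrm_zero : nrm 0 = 0 := Finsupp.sum_zero_index

theorem nrm_add_single (c : ℤ →₀ ℤ) (i a : ℤ) :
    nrm (c + Finsupp.single i a) + (c i).natAbs = nrm c + (c i + a).natAbs := by
  have h1 : nrm c = ∑ j ∈ insert i c.support, (c j).natAbs :=
    Finsupp.sum_of_support_subset _ (Finset.subset_insert _ _) _ (by simp)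
  have h2 : nrm (c + Finsupp.single i a) =
      ∑ j ∈ insert i c.support, ((c + Finsupp.single i a) j).natAbs := by
    refine Finsupp.sum_of_support_subset _ ?_ _ (by simp)
    intro j hj
    rw [Finsupp.mem_support_iff, Finsupp.add_apply] at hj
    rw [Finset.mem_insert, Finsupp.mem_support_iff]
    by_contra hcon
    push Not at hcon
    apply hj
    rw [hcon.2, Finsupp.single_eq_of_ne hcon.1, add_zero]
  rw [h1, h2, ← Finset.add_sum_erase _ _ (Finset.mem_insert_self i _),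
    ← Finset.add_sum_erase _ (fun j => (c j).natAbs) (Finset.mem_insert_self i _)]
  have h3 : ∀ j ∈ (insert i c.support).erase i,
      ((c + Finsupp.single i a) j).natAbs = (c j).natAbs := by
    intro j hj
    rw [Finsupp.add_apply, Finsupp.single_eq_of_ne (Finset.ne_of_mem_erase hj), add_zero]
  rw [Finset.sum_congr rfl h3, Finsupp.add_apply, Finsupp.single_eq_same]
  ring

theorem nrm_add_single_le (c : ℤ →₀ ℤ) (i a : ℤ) :
    nrm (c + Finsupp.single i a) ≤ nrm c + a.natAbs := by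
  have h1 := nrm_add_single c i a
  have h2 := Int.natAbs_add_le (c i) a
  omega

theorem nrm_single_le (i a : ℤ) : nrm (Finsupp.single i a) ≤ a.natAbs := by
  have := nrm_add_single_le 0 i a
  rwa [zero_add, nrm_zero, zero_add] at this

theorem eq_zero_of_nrm {c : ℤ →₀ ℤ} (h : nrm c = 0) : c = 0 := by
  ext i
  by_contra hi
  have hi' : c i ≠ 0 := hi
  have h1 := nrm_add_single c i (-c i)
  rw [h] at h1
  simp at h1
  omega

/-- The size of a number with bounded digits. -/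
theorem abs_val_le {m : ℕ} (hm : 2 ≤ m) (B : ℕ) (n : ℕ) : ∀ (hi : ℤ) (c : ℤ →₀ ℤ),
    (∀ i, c i ≠ 0 → hi - n < i ∧ i ≤ hi) → (∀ i, (c i).natAbs ≤ B) →
    |val m c| ≤ B * (m : ℚ) ^ (hi + 1) := by
  have hm0 : (0 : ℚ) < m := by exact_mod_cast (by omega : 0 < m)
  have hm2 : (2 : ℚ) ≤ m := by exact_mod_cast hm
  induction n with
  | zero =>
    intro hi c hc _
    have : c = 0 := by
      ext i
      by_contra h
      have := hc i h
      push_cast at this
      omega
    rw [this, val_zero, abs_zero]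
    positivity
  | succ n ih =>
    intro hi c hc hB
    set c' := c + Finsupp.single hi (-c hi) with hc'
    have hval : val m c = val m c' + (c hi : ℚ) * (m : ℚ) ^ hi := by
      rw [hc', val_add, val_single]
      push_cast
      ring
    have hsame : ∀ i, i ≠ hi → c' i = c i := by
      intro i hi'
      rw [hc', Finsupp.add_apply, Finsupp.single_eq_of_ne hi', add_zero]
    have htop : c' hi = 0 := by
      rw [hc', Finsupp.add_apply, Finsupp.single_eq_same]
      ring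
    have h1 : |val m c'| ≤ B * (m : ℚ) ^ (hi - 1 + 1) := by
      refine ih (hi - 1) c' ?_ ?_
      · intro i hi'
        have hne : i ≠ hi := by
          rintro rfl
          exact hi' htop
        rw [hsame i hne] at hi'
        have := hc i hi'
        push_cast at this
        constructor <;> omega
      · intro i
        by_cases hne : i = hi
        · rw [hne, htop]
          simp
        · rw [hsame i hne]
          exact hB i
    have h2 : |(c hi : ℚ) * (m : ℚ) ^ hi| ≤ B * (m : ℚ) ^ hi := by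
      rw [abs_mul, abs_of_pos (zpow_pos hm0 hi)]
      refine mul_le_mul_of_nonneg_right ?_ (zpow_pos hm0 hi).le
      have h3 : |(c hi : ℚ)| = ((c hi).natAbs : ℚ) := by
        rw [Nat.cast_natAbs, Int.cast_abs]
      rw [h3]
      exact_mod_cast hB hi
    have h4 : (m : ℚ) ^ (hi - 1 + 1) = (m : ℚ) ^ hi := by
      congr 1
      ring
    rw [h4] at h1
    have h5 : (m : ℚ) ^ (hi + 1) = (m : ℚ) ^ hi * m := zpow_add_one₀ hm0.ne' hi
    rw [hval, h5]
    have h6 := abs_add_le (val m c') ((c hi : ℚ) * (m : ℚ) ^ hi)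
    have h7 : (0 : ℚ) ≤ B * (m : ℚ) ^ hi := by positivity
    nlinarith

/-- The lattice `m ^ (-M) ℤ`. -/
def Lat (m : ℕ) (M : ℤ) (x : ℚ) : Prop := ∃ z : ℤ, x = (z : ℚ) * (m : ℚ) ^ (-M)

theorem Lat.add {m : ℕ} {M : ℤ} {x y : ℚ} (hx : Lat m M x) (hy : Lat m M y) :
    Lat m M (x + y) := by
  obtain ⟨z, rfl⟩ := hx
  obtain ⟨w, rfl⟩ := hy
  exact ⟨z + w, by push_cast; ring⟩

theorem Lat.neg {m : ℕ} {M : ℤ} {x : ℚ} (hx : Lat m M x) : Lat m M (-x) := by
  obtain ⟨z, rfl⟩ := hx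
  exact ⟨-z, by push_cast; ring⟩

theorem Lat.sub {m : ℕ} {M : ℤ} {x y : ℚ} (hx : Lat m M x) (hy : Lat m M y) :
    Lat m M (x - y) := by
  rw [sub_eq_add_neg]
  exact hx.add hy.neg

theorem lat_zpow {m : ℕ} (hm : 2 ≤ m) {M : ℤ} (a : ℤ) {i : ℤ} (hi : -M ≤ i) :
    Lat m M ((a : ℚ) * (m : ℚ) ^ i) := by
  have hm0 : (m : ℚ) ≠ 0 := by exact_mod_cast (by omega : m ≠ 0)
  refine ⟨a * (m : ℤ) ^ (i + M).toNat, ?_⟩
  push_cast
  rw [mul_assoc, ← zpow_natCast, ← zpow_add₀ hm0]
  congr 2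
  omega

theorem lat_val {m : ℕ} (hm : 2 ≤ m) {M : ℤ} {c : ℤ →₀ ℤ} (hc : ∀ i, c i ≠ 0 → -M ≤ i) :
    Lat m M (val m c) := by
  unfold val Finsupp.sum
  refine Finset.sum_induction _ (Lat m M) (fun _ _ => Lat.add) ⟨0, by simp⟩ ?_
  intro i hi
  exact lat_zpow hm _ (hc i (Finsupp.mem_support_iff.1 hi))

/-! ## The distance to the nearest integer -/

/-- Distance to the nearest integer. -/
def dist1 (y : ℚ) : ℚ := |y - round y|

theorem dist1_le (y : ℚ) (z : ℤ) : dist1 y ≤ |y - z| := round_le y z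

theorem dist1_add (y z : ℚ) : dist1 (y + z) ≤ dist1 y + dist1 z := by
  refine (dist1_le (y + z) (round y + round z)).trans ?_
  have : y + z - ((round y + round z : ℤ) : ℚ) = (y - round y) + (z - round z) := by
    push_cast
    ring
  rw [this]
  exact abs_add_le _ _

theorem dist1_mul (a : ℤ) (y : ℚ) : dist1 ((a : ℚ) * y) ≤ (a.natAbs : ℚ) * dist1 y := by
  refine (dist1_le _ (a * round y)).trans (le_of_eq ?_)
  have : (a : ℚ) * y - ((a * round y : ℤ) : ℚ) = (a : ℚ) * (y - round y) := by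
    push_cast
    ring
  rw [this, abs_mul, dist1, Nat.cast_natAbs, Int.cast_abs]

/-- The sum of the distances of `x / m ^ j`, `1 ≤ j ≤ J`, to the integers. -/
def psi (m J : ℕ) (x : ℚ) : ℚ := ∑ j ∈ Finset.range J, dist1 (x * (m : ℚ) ^ (-((j : ℤ) + 1)))

theorem psi_zero (m J : ℕ) : psi m J 0 = 0 := by
  unfold psi dist1
  simp

theorem psi_add (m J : ℕ) (x y : ℚ) : psi m J (x + y) ≤ psi m J x + psi m J y := by
  unfold psi
  rw [← Finset.sum_add_distrib]
  refine Finset.sum_le_sum fun j _ => ?_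
  rw [add_mul]
  exact dist1_add _ _

theorem psi_mul (m J : ℕ) (a : ℤ) (x : ℚ) :
    psi m J ((a : ℚ) * x) ≤ (a.natAbs : ℚ) * psi m J x := by
  unfold psi
  rw [Finset.mul_sum]
  refine Finset.sum_le_sum fun j _ => ?_
  rw [mul_assoc]
  exact dist1_mul _ _

theorem psi_zpow {m : ℕ} (hm : 2 ≤ m) (J : ℕ) (i : ℤ) : psi m J ((m : ℚ) ^ i) ≤ 1 := by
  have hm0 : (0 : ℚ) < m := by exact_mod_cast (by omega : 0 < m)
  have hm2 : (2 : ℚ) ≤ m := by exact_mod_cast hm
  have key : psi m J ((m : ℚ) ^ i) + min 1 ((m : ℚ) ^ (i - J)) ≤ 1 := by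
    induction J with
    | zero => simp [psi]
    | succ J ih =>
      have h1 : psi m (J + 1) ((m : ℚ) ^ i) = psi m J ((m : ℚ) ^ i) +
          dist1 ((m : ℚ) ^ (i - ((J : ℤ) + 1))) := by
        unfold psi
        rw [Finset.sum_range_succ, ← zpow_add₀ hm0.ne', ← sub_eq_add_neg]
      rw [h1]
      rcases le_or_gt ((J : ℤ) + 1) i with h | h
      · have h2 : dist1 ((m : ℚ) ^ (i - ((J : ℤ) + 1))) = 0 := by
          have h3 : (m : ℚ) ^ (i - ((J : ℤ) + 1)) =
              (((m : ℤ) ^ (i - ((J : ℤ) + 1)).toNat : ℤ) : ℚ) := by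
            push_cast
            rw [← zpow_natCast]
            congr 1
            omega
          rw [h3, dist1, round_intCast, sub_self, abs_zero]
        have h4 : (1 : ℚ) ≤ (m : ℚ) ^ (i - (J : ℤ)) :=
          one_le_zpow₀ (by linarith) (by omega)
        rw [min_eq_left h4] at ih
        have h5 := min_le_left (1 : ℚ) ((m : ℚ) ^ (i - ((J + 1 : ℕ) : ℤ)))
        rw [h2]
        linarith
      · have h2 : dist1 ((m : ℚ) ^ (i - ((J : ℤ) + 1))) ≤ (m : ℚ) ^ (i - ((J : ℤ) + 1)) := by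
          have := dist1_le ((m : ℚ) ^ (i - ((J : ℤ) + 1))) 0
          rwa [Int.cast_zero, sub_zero, abs_of_pos (zpow_pos hm0 _)] at this
        have h3 : (m : ℚ) ^ (i - (J : ℤ)) ≤ 1 := by
          have h4 : (1 : ℚ) ≤ (m : ℚ) ^ ((J : ℤ) - i) := one_le_zpow₀ (by linarith) (by omega)
          have h5 : (m : ℚ) ^ (i - (J : ℤ)) = ((m : ℚ) ^ ((J : ℤ) - i))⁻¹ := by
            rw [← zpow_neg]
            congr 1
            ring
          rw [h5]
          exact inv_le_one_of_one_le₀ h4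
        rw [min_eq_right h3] at ih
        have h6 : (m : ℚ) ^ (i - (J : ℤ)) = (m : ℚ) ^ (i - ((J : ℤ) + 1)) * m := by
          rw [← zpow_add_one₀ hm0.ne']
          congr 1
          ring
        have h7 := min_le_right (1 : ℚ) ((m : ℚ) ^ (i - ((J + 1 : ℕ) : ℤ)))
        have h8 : ((J + 1 : ℕ) : ℤ) = (J : ℤ) + 1 := by push_cast; ring
        rw [h8] at h7 ⊢
        have h9 := zpow_pos hm0 (i - ((J : ℤ) + 1))
        nlinarith
  have h1 : (0 : ℚ) ≤ min 1 ((m : ℚ) ^ (i - J)) := le_min zero_le_one (zpow_pos hm0 _).le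
  linarith

theorem psi_val_le {m : ℕ} (hm : 2 ≤ m) (J : ℕ) (c : ℤ →₀ ℤ) : psi m J (val m c) ≤ nrm c := by
  unfold val nrm Finsupp.sum
  push_cast
  refine (Finset.le_sum_of_subadditive (psi m J) (psi_zero m J).le (psi_add m J) _ _).trans ?_
  refine Finset.sum_le_sum fun i _ => ?_
  refine (psi_mul m J _ _).trans ?_
  have := psi_zpow hm J i
  have h0 : (0 : ℚ) ≤ ((c i).natAbs : ℚ) := Nat.cast_nonneg _
  nlinarith

/-- Numbers all of whose signed digit expansions are long. -/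
theorem exists_long {m : ℕ} (hm : 2 ≤ m) (s : ℕ) (hs : 1 ≤ s) :
    ∃ x : ℕ, m ^ (2 * s - 2) ≤ x ∧ x ≤ m ^ (2 * s - 1) ∧
      ∀ c : ℤ →₀ ℤ, val m c = x → s ≤ (m + 1) * nrm c := by
  have hm0 : (0 : ℚ) < m := by exact_mod_cast (by omega : 0 < m)
  obtain ⟨x, hx⟩ : (m + 1) ∣ m ^ (2 * s) - 1 := by
    have h1 : m + 1 ∣ m ^ 2 - 1 := ⟨m - 1, by
      obtain ⟨k, rfl⟩ : ∃ k, m = k + 1 := ⟨m - 1, by omega⟩
      rw [Nat.add_sub_cancel]
      have : (k + 1) ^ 2 = (k + 1 + 1) * k + 1 := by ring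
      omega⟩
    have h2 : m ^ 2 - 1 ∣ (m ^ 2) ^ s - 1 := by
      simpa using Nat.sub_dvd_pow_sub_pow (m ^ 2) 1 s
    rw [pow_mul]
    exact h1.trans h2
  have hpos : 1 ≤ m ^ (2 * s) := Nat.one_le_pow _ _ (by omega)
  have hx' : (m + 1) * x + 1 = m ^ (2 * s) := by omega
  have hu : m ^ (2 * s) = m ^ (2 * s - 2) * (m * m) := by
    rw [← pow_two, ← pow_add]
    congr 1
    omega
  have hu' : m ^ (2 * s - 1) = m ^ (2 * s - 2) * m := by
    rw [← pow_succ]
    congr 1
    omega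
  have hupos : 1 ≤ m ^ (2 * s - 2) := Nat.one_le_pow _ _ (by omega)
  refine ⟨x, ?_, ?_, ?_⟩
  · by_contra hlt
    push Not at hlt
    have h1 : (m + 1) * x + (m + 1) ≤ (m + 1) * m ^ (2 * s - 2) := by nlinarith
    have h2 : m ^ (2 * s - 2) * (m * m) ≤ (m + 1) * m ^ (2 * s - 2) := by
      rw [← hu, ← hx']
      omega
    have h3 : m ^ (2 * s - 2) * (m * m) ≥ m ^ (2 * s - 2) * (2 * m) :=
      Nat.mul_le_mul_left _ (Nat.mul_le_mul_right _ hm)
    rcases Nat.lt_or_ge 2 m with h4 | h4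
    · nlinarith
    · have h5 : m = 2 := by omega
      subst h5
      omega
  · by_contra hlt
    push Not at hlt
    have h1 : (m + 1) * (m ^ (2 * s - 1) + 1) ≤ (m + 1) * x := Nat.mul_le_mul_left _ hlt
    rw [hu'] at h1
    nlinarith
  · intro c hc
    have h1 := psi_val_le hm (2 * s) c
    rw [hc] at h1
    have hxq : ((m : ℚ) + 1) * x + 1 = (m : ℚ) ^ (2 * s) := by exact_mod_cast hx'
    have h2 : ∀ j ∈ Finset.range (2 * s), (1 : ℚ) / (2 * (m + 1)) ≤
        dist1 ((x : ℚ) * (m : ℚ) ^ (-((j : ℤ) + 1))) := by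
      intro j hj
      rw [Finset.mem_range] at hj
      set z := round ((x : ℚ) * (m : ℚ) ^ (-((j : ℤ) + 1))) with hz
      set w : ℤ := (m : ℤ) ^ (2 * s - (j + 1)) - z * (m + 1) with hw
      have hw0 : w ≠ 0 := by
        intro h0
        have h3 : ((m : ℤ) + 1) ∣ (m : ℤ) ^ (2 * s - (j + 1)) := ⟨z, by
          rw [hw] at h0
          linarith⟩
        have h4 : IsCoprime ((m : ℤ) + 1) (m : ℤ) := ⟨1, -1, by ring⟩
        have h5 : IsCoprime ((m : ℤ) + 1) ((m : ℤ) ^ (2 * s - (j + 1))) := h4.pow_right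
        have h6 := h5.isUnit_of_dvd' (dvd_refl _) h3
        rw [Int.isUnit_iff] at h6
        omega
      have hpj : (0 : ℚ) < (m : ℚ) ^ (j + 1) := by positivity
      have hinv : (m : ℚ) ^ (-((j : ℤ) + 1)) = ((m : ℚ) ^ (j + 1))⁻¹ := by
        rw [zpow_neg]
        congr 1
      have hw1 : (1 : ℚ) ≤ |(w : ℚ)| := by
        have := Int.one_le_abs hw0
        exact_mod_cast this
      have hm2 : (2 : ℚ) ≤ (m : ℚ) ^ (j + 1) := by
        have h7 : 2 ^ 1 ≤ m ^ (j + 1) :=
          (Nat.pow_le_pow_left hm 1).trans (Nat.pow_le_pow_right (by omega) (by omega))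
        exact_mod_cast h7
      have hpw : (m : ℚ) ^ (2 * s) = (m : ℚ) ^ (2 * s - (j + 1)) * (m : ℚ) ^ (j + 1) := by
        rw [← pow_add]
        congr 1
        omega
      have hwq : (w : ℚ) = (m : ℚ) ^ (2 * s - (j + 1)) - z * (m + 1) := by
        rw [hw]
        push_cast
        ring
      have hmain : ((m : ℚ) + 1) * (m : ℚ) ^ (j + 1) *
          ((x : ℚ) * ((m : ℚ) ^ (j + 1))⁻¹ - z) = (m : ℚ) ^ (j + 1) * w - 1 := by
        have : ((m : ℚ) + 1) * (m : ℚ) ^ (j + 1) * ((x : ℚ) * ((m : ℚ) ^ (j + 1))⁻¹ - z) =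
            ((m : ℚ) + 1) * x - z * (m + 1) * (m : ℚ) ^ (j + 1) := by
          field_simp
        rw [this, hwq]
        linear_combination hxq + hpw
      have habs : (m : ℚ) ^ (j + 1) - 1 ≤ |(m : ℚ) ^ (j + 1) * w - 1| := by
        have h8 : |(m : ℚ) ^ (j + 1) * w| ≤ |(m : ℚ) ^ (j + 1) * w - 1| + |(1 : ℚ)| := by
          have := abs_add_le ((m : ℚ) ^ (j + 1) * w - 1) 1
          rwa [sub_add_cancel] at this
        rw [abs_one, abs_mul, abs_of_pos hpj] at h8
        nlinarith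
      rw [← hmain, abs_mul, abs_of_pos (by positivity : (0 : ℚ) < ((m : ℚ) + 1) *
        (m : ℚ) ^ (j + 1))] at habs
      unfold dist1
      rw [← hz, hinv, div_le_iff₀ (by positivity)]
      have h9 : (m : ℚ) ^ (j + 1) * 1 ≤ (m : ℚ) ^ (j + 1) *
          (|(x : ℚ) * ((m : ℚ) ^ (j + 1))⁻¹ - z| * (2 * (m + 1))) := by nlinarith
      exact le_of_mul_le_mul_left h9 hpj
    have h3 : (2 * s : ℚ) * (1 / (2 * (m + 1))) ≤ psi m (2 * s) x := by
      have := Finset.card_nsmul_le_sum (Finset.range (2 * s)) _ _ h2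
      rw [Finset.card_range, nsmul_eq_mul] at this
      unfold psi
      push_cast at this
      exact this
    have h4 : (2 * s : ℚ) * (1 / (2 * (m + 1))) ≤ nrm c := h3.trans h1
    have h5 : (s : ℚ) ≤ (m + 1) * nrm c := by
      have h6 : (2 * s : ℚ) * (1 / (2 * (m + 1))) * (m + 1) = s := by
        field_simp
      nlinarith [mul_le_mul_of_nonneg_right h4 (by positivity : (0 : ℚ) ≤ (m : ℚ) + 1)]
    exact_mod_cast h5

end Pool.Agent.V1125.BS
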