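import Pool.Agent.V1125.BSModel

/-!
# Unbounded retreat depth in the solvable Baumslag-Solitar groups
-/

set_option autoImplicit false

namespace Pool.Agent.V1125.BS.Model

open Pool.Agent.V1125 Pool.Agent.V1125.BS

universe u

variable {m : ℕ} {G : Type u} [Group G] {a t : G} (M : Model m G a t)

theorem exists_elt (W : ℕ) {x : ℚ} (hx : Lat m W x) (k : ℤ) : ∃ g, M.X g = x ∧ M.K g = k := by
  obtain ⟨z, rfl⟩ := hx
  have h : Rep m ((z : ℚ) * (m : ℚ) ^ (-(W : ℤ))) k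
      (cost k (Finsupp.single (-(W : ℤ)) z) (min (-(W : ℤ)) k) (max 0 k)).toNat := by
    refine ⟨_, _, _, ⟨?_, min_le_right _ _, le_max_left _ _, le_max_right _ _, ?_,
      val_single m _ _⟩, Int.self_le_toNat _⟩
    · exact (min_le_left _ _).trans (by omega)
    · intro i hi
      have : i = -(W : ℤ) := by
        by_contra hne
        exact hi (Finsupp.single_eq_of_ne hne)
      rw [this]
      exact ⟨min_le_left _ _, le_trans (by omega) (le_max_left _ _)⟩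
  obtain ⟨g, h1, h2, -⟩ := M.exists_of_rep _ _ _ h
  exact ⟨g, h1, h2⟩

/-- The finite region used in the proof. -/
def region (W P : ℕ) : Set G :=
  {g | -(W : ℤ) ≤ M.K g ∧ M.K g ≤ W ∧ Lat m W (M.X g) ∧ |M.X g| ≤ (m : ℚ) ^ P}

theorem finite_region (hm : 2 ≤ m) (W P : ℕ) : (M.region W P).Finite := by
  have hm0 : (0 : ℚ) < m := by exact_mod_cast (by omega : 0 < m)
  have hfin : (((fun z : ℤ => (z : ℚ) * (m : ℚ) ^ (-(W : ℤ))) ''
      Set.Icc (-((m : ℤ) ^ (P + W))) ((m : ℤ) ^ (P + W))) ×ˢ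
      Set.Icc (-(W : ℤ)) (W : ℤ)).Finite :=
    ((Set.finite_Icc _ _).image _).prod (Set.finite_Icc _ _)
  refine Set.Finite.of_injOn (f := fun g => (M.X g, M.K g)) ?_ ?_ hfin
  · rintro g ⟨h1, h2, ⟨z, hz⟩, h4⟩
    refine ⟨⟨z, ?_, hz.symm⟩, h1, h2⟩
    rw [hz, abs_mul, abs_of_pos (zpow_pos hm0 _)] at h4
    have h5 : |(z : ℚ)| ≤ (m : ℚ) ^ (P + W) := by
      have h6 : (m : ℚ) ^ (P + W) = (m : ℚ) ^ P * (m : ℚ) ^ (W : ℤ) := by
        rw [pow_add, zpow_natCast]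
      have h7 : |(z : ℚ)| = |(z : ℚ)| * (m : ℚ) ^ (-(W : ℤ)) * (m : ℚ) ^ (W : ℤ) := by
        rw [mul_assoc, ← zpow_add₀ hm0.ne', neg_add_cancel, zpow_zero, mul_one]
      rw [h6, h7]
      exact mul_le_mul_of_nonneg_right h4 (zpow_pos hm0 _).le
    have h6 : |z| ≤ (m : ℤ) ^ (P + W) := by exact_mod_cast h5
    exact abs_le.1 h6
  · intro g _ h _ hgh
    obtain ⟨h1, h2⟩ := Prod.mk.inj hgh
    exact M.inj g h h1 h2

/-- Elements of the region whose digit systems reach the bottom of the window. -/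
theorem lo_le (hm : 2 ≤ m) {W : ℕ} {x : ℚ} {k : ℤ} {c : ℤ →₀ ℤ} {lo hi : ℤ}
    (h : IsRep m x k c lo hi) (hx : ¬ Lat m ((W : ℤ) - 1) x) : lo ≤ -(W : ℤ) := by
  by_contra hlt
  push Not at hlt
  apply hx
  rw [← h.val]
  refine lat_val hm fun i hi' => ?_
  have := h.supp i hi'
  omega

theorem step_a (hm : 2 ≤ m) {W P : ℕ} {h : G} (hh : h ∈ M.region W P) :
    ∃ g ∈ M.region W P, M.K g = M.K h ∧ ¬ Lat m ((W : ℤ) - 1) (M.X g) ∧
      wordLen {a, t} h ≤ wordLen {a, t} g + 1 := by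
  have hm0 : (0 : ℚ) < m := by exact_mod_cast (by omega : 0 < m)
  have hm1 : (1 : ℚ) ≤ m := by exact_mod_cast (by omega : 1 ≤ m)
  obtain ⟨h1, h2, h3, h4⟩ := hh
  by_cases hL : Lat m ((W : ℤ) - 1) (M.X h)
  · have hsmall : (m : ℚ) ^ (-(W : ℤ)) ≤ (m : ℚ) ^ P := by
      rw [← zpow_natCast]
      exact zpow_le_zpow_right₀ hm1 (by omega)
    have hpos := zpow_pos hm0 (-(W : ℤ))
    obtain ⟨ε, hε, habs⟩ : ∃ ε : ℤ, ε.natAbs = 1 ∧
        |M.X h + (ε : ℚ) * (m : ℚ) ^ (-(W : ℤ))| ≤ (m : ℚ) ^ P := by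
      rcases le_or_gt (M.X h) 0 with hle | hgt
      · refine ⟨1, rfl, ?_⟩
        have h5 := (abs_le.1 h4).1
        rw [abs_le]
        push_cast
        constructor <;> linarith
      · refine ⟨-1, rfl, ?_⟩
        have h5 := (abs_le.1 h4).2
        rw [abs_le]
        push_cast
        constructor <;> linarith
    have hLx : Lat m W (M.X h + (ε : ℚ) * (m : ℚ) ^ (-(W : ℤ))) := h3.add ⟨ε, rfl⟩
    obtain ⟨g, hgX, hgK⟩ := M.exists_elt W hLx (M.K h)
    have hnL : ¬ Lat m ((W : ℤ) - 1) (M.X g) := by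
      intro hc
      rw [hgX] at hc
      have h5 := hc.sub hL
      rw [add_sub_cancel_left] at h5
      obtain ⟨z, hz⟩ := h5
      have h6 : (m : ℚ) ^ (-((W : ℤ) - 1)) = (m : ℚ) ^ (-(W : ℤ)) * m := by
        rw [← zpow_add_one₀ hm0.ne']
        congr 1
        ring
      rw [h6] at hz
      have h7 : (ε : ℚ) = z * m := by
        have h8 : (m : ℚ) ^ (-(W : ℤ)) * ((ε : ℚ) - z * m) = 0 := by linear_combination hz
        rcases mul_eq_zero.1 h8 with h9 | h9
        · exact absurd h9 hpos.ne'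
        · linarith
      have h8 : ε = z * m := by exact_mod_cast h7
      rw [h8, Int.natAbs_mul, Int.natAbs_natCast] at hε
      have := Nat.eq_one_of_mul_eq_one_left hε
      omega
    refine ⟨g, ⟨by rw [hgK]; exact h1, by rw [hgK]; exact h2, by rw [hgX]; exact hLx,
      by rw [hgX]; exact habs⟩, hgK, hnL, ?_⟩
    obtain ⟨c, lo, hi, hrep, hcost⟩ := M.rep_len g
    have hlo := lo_le hm hrep hnL
    have hrep' : IsRep m (M.X h) (M.K h) (c + Finsupp.single (-(W : ℤ)) (-ε)) lo hi := by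
      refine ⟨hrep.lo0, by rw [← hgK]; exact hrep.lok, hrep.hi0, by rw [← hgK]; exact hrep.hik,
        supp_add hrep.supp ⟨hlo, ?_⟩, ?_⟩
      · have := hrep.hi0
        omega
      · rw [val_add, val_single, hrep.val, hgX]
        push_cast
        ring
    have h5 := M.len_le_cost hrep'
    have h6 := nrm_add_single_le c (-(W : ℤ)) (-ε)
    unfold cost at h5 hcost
    rw [hgK] at hcost
    rw [Int.natAbs_neg, hε] at h6
    omega
  · exact ⟨h, ⟨h1, h2, h3, h4⟩, rfl, hL, Nat.le_succ _⟩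

theorem step_b (hm : 2 ≤ m) {W P : ℕ} (hP : W + 4 ≤ P) {h : G} (hh : h ∈ M.region W P)
    (hL : ¬ Lat m ((W : ℤ) - 1) (M.X h)) :
    ∃ g ∈ M.region W P, M.K g = M.K h ∧ ¬ Lat m ((W : ℤ) - 1) (M.X g) ∧
      (m : ℚ) ^ ((P : ℤ) - 1) ≤ |M.X g| ∧ wordLen {a, t} h ≤ wordLen {a, t} g + 7 := by
  have hm0 : (0 : ℚ) < m := by exact_mod_cast (by omega : 0 < m)
  have hm2 : (2 : ℚ) ≤ m := by exact_mod_cast hm
  obtain ⟨h1, h2, h3, h4⟩ := hh
  by_cases hbig : (m : ℚ) ^ ((P : ℤ) - 1) ≤ |M.X h|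
  · exact ⟨h, ⟨h1, h2, h3, h4⟩, rfl, hL, hbig, by omega⟩
  · push Not at hbig
    have hpos := zpow_pos hm0 ((P : ℤ) - 1)
    obtain ⟨ε, hε, habs⟩ : ∃ ε : ℤ, ε.natAbs = 1 ∧
        |M.X h + (ε : ℚ) * (m : ℚ) ^ ((P : ℤ) - 1)| = |M.X h| + (m : ℚ) ^ ((P : ℤ) - 1) := by
      rcases le_or_gt 0 (M.X h) with hle | hgt
      · refine ⟨1, rfl, ?_⟩
        push_cast
        rw [one_mul, abs_of_nonneg (by linarith), abs_of_nonneg hle]
      · refine ⟨-1, rfl, ?_⟩
        push_cast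
        rw [abs_of_neg (by linarith), abs_of_neg hgt]
        ring
    have hpP : (m : ℚ) ^ (P : ℤ) = (m : ℚ) ^ ((P : ℤ) - 1) * m := by
      rw [← zpow_add_one₀ hm0.ne']
      congr 1
      ring
    have hLW : ∀ V : ℤ, 0 ≤ V + 1 → Lat m V ((ε : ℚ) * (m : ℚ) ^ ((P : ℤ) - 1)) := fun V hV =>
      lat_zpow hm ε (by omega)
    have hLx : Lat m W (M.X h + (ε : ℚ) * (m : ℚ) ^ ((P : ℤ) - 1)) :=
      h3.add (hLW W (by omega))
    obtain ⟨g, hgX, hgK⟩ := M.exists_elt W hLx (M.K h)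
    have hnL : ¬ Lat m ((W : ℤ) - 1) (M.X g) := by
      intro hc
      apply hL
      have h5 := hc.sub (hLW ((W : ℤ) - 1) (by omega))
      rwa [hgX, add_sub_cancel_right] at h5
    have hXg : |M.X g| = |M.X h| + (m : ℚ) ^ ((P : ℤ) - 1) := by rw [hgX, habs]
    have hge : (m : ℚ) ^ ((P : ℤ) - 1) ≤ |M.X g| := by
      rw [hXg]
      have := abs_nonneg (M.X h)
      linarith
    refine ⟨g, ⟨by rw [hgK]; exact h1, by rw [hgK]; exact h2, by rw [hgX]; exact hLx, ?_⟩,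
      hgK, hnL, hge, ?_⟩
    · rw [hXg, ← zpow_natCast, hpP]
      nlinarith
    · obtain ⟨c, lo, hi, hrep, hcost⟩ := M.rep_len g
      have hhi := M.le_hi hm hrep hcost hge
      have hrep' : IsRep m (M.X h) (M.K h) (c + Finsupp.single ((P : ℤ) - 1) (-ε)) lo
          (max hi ((P : ℤ) - 1)) := by
        refine ⟨hrep.lo0, by rw [← hgK]; exact hrep.lok, hrep.hi0.trans (le_max_left _ _),
          by rw [← hgK]; exact hrep.hik.trans (le_max_left _ _), supp_add ?_ ⟨?_, ?_⟩, ?_⟩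
        · intro i hi'
          have := hrep.supp i hi'
          exact ⟨this.1, this.2.trans (le_max_left _ _)⟩
        · have := hrep.lo0
          omega
        · exact le_max_right _ _
        · rw [val_add, val_single, hrep.val, hgX]
          push_cast
          ring
      have h5 := M.len_le_cost hrep'
      have h6 := nrm_add_single_le c ((P : ℤ) - 1) (-ε)
      have h7 : max hi ((P : ℤ) - 1) ≤ hi + 3 := max_le (by omega) (by omega)
      unfold cost at h5 hcost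
      rw [hgK] at hcost
      rw [Int.natAbs_neg, hε] at h6
      omega

/-- Pushing the cursor back to the origin makes elements longer. -/
theorem push (hm : 2 ≤ m) {W P : ℕ} (hP : W + 4 ≤ P) {h : G} (hh : h ∈ M.region W P) :
    ∃ g ∈ M.region W P, (wordLen {a, t} h : ℤ) + |M.K h| ≤ wordLen {a, t} g + 8 := by
  obtain ⟨g₁, hg₁, hK₁, hL₁, hl₁⟩ := M.step_a hm hh
  obtain ⟨g₂, hg₂, hK₂, hL₂, hb₂, hl₂⟩ := M.step_b hm hP hg₁ hL₁
  obtain ⟨h1, h2, h3, h4⟩ := hg₂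
  obtain ⟨g₃, hX₃, hK₃⟩ := M.exists_elt W h3 0
  refine ⟨g₃, ⟨by rw [hK₃]; omega, by rw [hK₃]; omega, by rw [hX₃]; exact h3,
    by rw [hX₃]; exact h4⟩, ?_⟩
  obtain ⟨c, lo, hi, hrep, hcost⟩ := M.rep_len g₃
  have hhi := M.le_hi hm hrep hcost (P := P) (by rw [hX₃]; exact hb₂)
  have hlo := lo_le hm hrep (W := W) (by rw [hX₃]; exact hL₂)
  have hrep' : IsRep m (M.X g₂) (M.K g₂) c lo hi := by
    refine ⟨hrep.lo0, by omega, hrep.hi0, by omega, hrep.supp, ?_⟩
    rw [hrep.val, hX₃]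
  have h5 := M.len_le_cost hrep'
  unfold cost at h5 hcost
  rw [hK₃, abs_zero] at hcost
  rw [hK₂, hK₁] at h5
  omega

/-- Elements from which the size bound can be violated are short. -/
theorem cross (hm : 2 ≤ m) {W P : ℕ} (hP : W + 4 ≤ P) {h : G} (hh : h ∈ M.region W P) {b : ℤ}
    (hb : b.natAbs = 1) (hX : (m : ℚ) ^ P < |M.X h + b * (m : ℚ) ^ (M.K h)|) :
    wordLen {a, t} h ≤ 2 * P + (1 + m ^ (2 * W) + 2 * W) := by
  have hm0 : (0 : ℚ) < m := by exact_mod_cast (by omega : 0 < m)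
  have hm1 : (1 : ℚ) ≤ m := by exact_mod_cast (by omega : 1 ≤ m)
  obtain ⟨h1, h2, h3, h4⟩ := hh
  have hbq : |(b : ℚ)| = 1 := by
    rw [← Int.cast_abs, ← Int.natCast_natAbs, hb]
    rfl
  have hlt : (m : ℚ) ^ P - |M.X h| < (m : ℚ) ^ (W : ℤ) := by
    have e1 := abs_add_le (M.X h) (b * (m : ℚ) ^ (M.K h))
    rw [abs_mul, hbq, one_mul, abs_of_pos (zpow_pos hm0 _)] at e1
    have e2 : (m : ℚ) ^ (M.K h) ≤ (m : ℚ) ^ (W : ℤ) := zpow_le_zpow_right₀ hm1 h2
    linarith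
  obtain ⟨σ, hσ, hσX⟩ : ∃ σ : ℤ, σ.natAbs = 1 ∧ M.X h = σ * |M.X h| := by
    rcases le_or_gt 0 (M.X h) with hle | hgt
    · exact ⟨1, rfl, by rw [abs_of_nonneg hle]; push_cast; ring⟩
    · exact ⟨-1, rfl, by rw [abs_of_neg hgt]; push_cast; ring⟩
  have hLabs : Lat m W |M.X h| := by
    rcases le_or_gt 0 (M.X h) with hle | hgt
    · rw [abs_of_nonneg hle]
      exact h3
    · rw [abs_of_neg hgt]
      exact h3.neg
  have hLP : Lat m W ((m : ℚ) ^ P) := by
    have := lat_zpow hm (M := (W : ℤ)) 1 (i := (P : ℤ)) (by omega)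
    simpa using this
  obtain ⟨z, hz⟩ := hLP.sub hLabs
  have hzabs : z.natAbs ≤ m ^ (2 * W) := by
    have e1 : (0 : ℚ) ≤ (z : ℚ) * (m : ℚ) ^ (-(W : ℤ)) := by
      rw [← hz]
      linarith
    have e2 : (z : ℚ) * (m : ℚ) ^ (-(W : ℤ)) < (m : ℚ) ^ (W : ℤ) := by
      rw [← hz]
      exact hlt
    have e3 : (0 : ℚ) ≤ z := by
      by_contra hneg
      push Not at hneg
      have := mul_neg_of_neg_of_pos hneg (zpow_pos hm0 (-(W : ℤ)))
      linarith
    have e4 : (z : ℚ) < (m : ℚ) ^ (2 * W) := by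
      have e5 : (z : ℚ) = (z : ℚ) * (m : ℚ) ^ (-(W : ℤ)) * (m : ℚ) ^ (W : ℤ) := by
        rw [mul_assoc, ← zpow_add₀ hm0.ne', neg_add_cancel, zpow_zero, mul_one]
      have e6 : (m : ℚ) ^ (2 * W) = (m : ℚ) ^ (W : ℤ) * (m : ℚ) ^ (W : ℤ) := by
        rw [two_mul, pow_add, zpow_natCast]
      rw [e5, e6]
      exact mul_lt_mul_of_pos_right e2 (zpow_pos hm0 _)
    have e5 : (0 : ℤ) ≤ z := by exact_mod_cast e3
    have e6 : z < (m : ℤ) ^ (2 * W) := by exact_mod_cast e4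
    have e7 : ((z.natAbs : ℕ) : ℤ) < ((m ^ (2 * W) : ℕ) : ℤ) := by
      push_cast
      rw [abs_of_nonneg e5]
      exact e6
    have e8 : z.natAbs < m ^ (2 * W) := by exact_mod_cast e7
    exact e8.le
  set c : ℤ →₀ ℤ := Finsupp.single (P : ℤ) σ + Finsupp.single (-(W : ℤ)) (-(σ * z)) with hc
  have hrep : IsRep m (M.X h) (M.K h) c (-(W : ℤ)) P := by
    refine ⟨by omega, by omega, by omega, ?_, supp_add ?_ ⟨le_rfl, by omega⟩, ?_⟩
    · omega
    · intro i hi'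
      have : i = (P : ℤ) := by
        by_contra hne
        exact hi' (Finsupp.single_eq_of_ne hne)
      omega
    · rw [hc, val_add, val_single, val_single, hσX]
      have e1 : |M.X h| = (m : ℚ) ^ P - (z : ℚ) * (m : ℚ) ^ (-(W : ℤ)) := by linarith
      rw [e1]
      push_cast
      rw [zpow_natCast]
      ring
  have h5 := M.len_le_cost hrep
  have h6 : nrm c ≤ 1 + m ^ (2 * W) := by
    have e1 := nrm_add_single_le (Finsupp.single (P : ℤ) σ) (-(W : ℤ)) (-(σ * z))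
    have e2 := nrm_single_le (P : ℤ) σ
    rw [Int.natAbs_neg, Int.natAbs_mul, hσ, one_mul] at e1
    rw [hσ] at e2
    rw [hc]
    omega
  have h7 := abs_nonneg (M.K h)
  unfold cost at h5
  omega

/-- There are long elements in the region. -/
theorem exists_big (hm : 2 ≤ m) (W B : ℕ) : ∃ P, W + 4 ≤ P ∧
    ∃ g ∈ M.region W P, 2 * P + B ≤ wordLen {a, t} g := by
  have hm0 : (0 : ℚ) < m := by exact_mod_cast (by omega : 0 < m)
  set s := (m + 1) * (B + 8) + W + 5 with hs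
  obtain ⟨x, hx1, hx2, hx3⟩ := exists_long hm s (by omega)
  have hLx : Lat m W (x : ℚ) := by
    have := lat_zpow hm (M := (W : ℤ)) x (i := 0) (by omega)
    simpa using this
  obtain ⟨g, hgX, hgK⟩ := M.exists_elt W hLx 0
  refine ⟨2 * s - 1, by omega, g, ⟨by rw [hgK]; omega, by rw [hgK]; omega,
    by rw [hgX]; exact hLx, ?_⟩, ?_⟩
  · rw [hgX, abs_of_nonneg (Nat.cast_nonneg _)]
    exact_mod_cast hx2
  · obtain ⟨c, lo, hi, hrep, hcost⟩ := M.rep_len g
    have hge : (m : ℚ) ^ (((2 * s - 1 : ℕ) : ℤ) - 1) ≤ |M.X g| := by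
      rw [hgX, abs_of_nonneg (Nat.cast_nonneg _)]
      have e1 : ((2 * s - 1 : ℕ) : ℤ) - 1 = ((2 * s - 2 : ℕ) : ℤ) := by omega
      rw [e1, zpow_natCast]
      exact_mod_cast hx1
    have hhi := M.le_hi hm hrep hcost hge
    have h1 := hx3 c (by rw [hrep.val, hgX])
    have h2 : B + 8 ≤ nrm c := by
      have : (m + 1) * (B + 8) ≤ (m + 1) * nrm c := by omega
      exact Nat.le_of_mul_le_mul_left this (by omega)
    unfold cost at hcost
    rw [hgK, abs_zero] at hcost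
    have h3 := hrep.lo0
    omega

include M in
theorem infinite : Infinite G := by
  choose f hf using fun n : ℕ => M.exists_elt 0 (x := (n : ℚ)) ⟨n, by simp⟩ 0
  refine Infinite.of_injective f fun i j hij => ?_
  have h1 := (hf i).1
  rw [hij, (hf j).1] at h1
  exact_mod_cast h1.symm

include M in
/-- The retreat depth is unbounded. -/
theorem unbounded (hm : 2 ≤ m) (D : ℕ) : ∃ g : G, D ≤ retreatDepth {a, t} g := by
  obtain ⟨P, hP, g₀, hg₀, hlen⟩ := M.exists_big hm (D + 8)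
    (1 + m ^ (2 * (D + 8)) + 2 * (D + 8) + D)
  obtain ⟨g, hg, hmax⟩ := Set.exists_max_image _ (wordLen {a, t}) (M.finite_region hm (D + 8) P)
    ⟨g₀, hg₀⟩
  have := M.infinite
  refine ⟨g, le_retreatDepth (M.finite_region hm (D + 8) P) hg ?_
    (exists_infinite_comp M.gen g)⟩
  intro x hx s hs hxs
  have hwall : (|M.K x| = ((D + 8 : ℕ) : ℤ)) → wordLen {a, t} x + D ≤ wordLen {a, t} g := by
    intro hK
    obtain ⟨g', hg', h1⟩ := M.push hm hP hx
    have h2 := hmax g' hg'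
    rw [hK] at h1
    omega
  have hcross : ∀ b : ℤ, b.natAbs = 1 → (m : ℚ) ^ P < |M.X x + b * (m : ℚ) ^ (M.K x)| →
      wordLen {a, t} x + D ≤ wordLen {a, t} g := by
    intro b hb hlt
    have h1 := M.cross hm hP hx hb hlt
    have h2 := hmax g₀ hg₀
    omega
  obtain ⟨h1, h2, h3, h4⟩ := hx
  rcases letter hs with rfl | rfl | rfl | rfl
  · refine hcross 1 rfl ?_
    by_contra hcon
    push Not at hcon
    apply hxs
    refine ⟨by rw [M.K_a]; exact h1, by rw [M.K_a]; exact h2, ?_, ?_⟩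
    · rw [M.X_a]
      refine h3.add ?_
      have := lat_zpow hm (M := ((D + 8 : ℕ) : ℤ)) 1 (i := M.K x) h1
      simpa using this
    · rw [M.X_a]
      simpa using hcon
  · refine hcross (-1) rfl ?_
    by_contra hcon
    push Not at hcon
    apply hxs
    refine ⟨by rw [M.K_a_inv]; exact h1, by rw [M.K_a_inv]; exact h2, ?_, ?_⟩
    · rw [M.X_a_inv]
      refine h3.sub ?_
      have := lat_zpow hm (M := ((D + 8 : ℕ) : ℤ)) 1 (i := M.K x) h1
      simpa using this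
    · rw [M.X_a_inv]
      simpa [sub_eq_add_neg] using hcon
  · refine hwall ?_
    by_contra hcon
    apply hxs
    refine ⟨by rw [M.K_t]; omega, ?_, by rw [M.X_t]; exact h3, by rw [M.X_t]; exact h4⟩
    rw [M.K_t]
    by_contra hlt
    push Not at hlt
    apply hcon
    rw [abs_of_nonneg (by omega)]
    omega
  · refine hwall ?_
    by_contra hcon
    apply hxs
    refine ⟨?_, by rw [M.K_t_inv]; omega, by rw [M.X_t_inv]; exact h3, by rw [M.X_t_inv]; exact h4⟩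
    rw [M.K_t_inv]
    by_contra hlt
    push Not at hlt
    apply hcon
    rw [abs_of_nonpos (by omega)]
    omega

end Pool.Agent.V1125.BS.Model
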