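import Pool.Agent.V1125.WordLen

/-!
# Cayley graphs, components and retreat depth
-/

set_option autoImplicit false

namespace Pool.Agent.V1125

universe u

variable {G : Type u} [Group G]

/-- The Cayley graph of `G` with respect to `S`: distinct `g` and `h` are adjacent when
`h = g * s` with `s` or `s⁻¹` in `S`. -/
def cayley (S : Set G) : SimpleGraph G where
  Adj g h := g ≠ h ∧ ∃ s, (s ∈ S ∨ s⁻¹ ∈ S) ∧ h = g * s
  symm := ⟨by
    rintro g h ⟨hne, s, hs, rfl⟩
    refine ⟨hne.symm, s⁻¹, ?_, by group⟩
    rw [inv_inv]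
    exact hs.symm⟩
  loopless := ⟨fun g h => h.1 rfl⟩

/-- The connected component of `g` in the subgraph of the Cayley graph induced on the set `A`
(empty if `g` is not in `A`). -/
def comp (S A : Set G) (g : G) : Set G :=
  {h | ∃ (hg : g ∈ A) (hh : h ∈ A), ((cayley S).induce A).Reachable ⟨g, hg⟩ ⟨h, hh⟩}

/-- The retreat depth of `g`: the least `d ≥ 0` such that `g` lies in an infinite connected
component of the complement of the ball `B(|g| - d - 1)`, which is the set of all `h` with
`|g| ≤ |h| + d`. -/
noncomputable def retreatDepth (S : Set G) (g : G) : ℕ :=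
  sInf {d : ℕ | (comp S {h | wordLen S g ≤ wordLen S h + d} g).Infinite}

/-- A set that contains `g` and cannot be left inside `A` contains the component of `g` in `A`. -/
theorem comp_subset {S A R : Set G} {g : G} (hg : g ∈ R)
    (h : ∀ x ∈ R, x ∈ A → ∀ s, (s ∈ S ∨ s⁻¹ ∈ S) → x * s ∈ A → x * s ∈ R) : comp S A g ⊆ R := by
  rintro y ⟨hgA, hyA, ⟨w⟩⟩
  have key : ∀ (u v : A), ((cayley S).induce A).Walk u v → (u : G) ∈ R → (v : G) ∈ R := by
    intro u v w
    induction w with
    | nil => exact id
    | @cons a b c hab _ ih =>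
      intro hu
      apply ih
      obtain ⟨-, s, hs, hb⟩ : (cayley S).Adj (a : G) (b : G) := hab
      rw [hb]
      refine h a hu a.2 s hs ?_
      rw [← hb]
      exact b.2
  exact key _ _ w hg

/-- If a finite set `R` contains `g` and can only be left from elements of length at most
`|g| - D`, the retreat depth of `g` is at least `D`. -/
theorem le_retreatDepth {S R : Set G} {g : G} {D : ℕ} (hfin : R.Finite) (hg : g ∈ R)
    (h : ∀ x ∈ R, ∀ s, (s ∈ S ∨ s⁻¹ ∈ S) → x * s ∉ R → wordLen S x + D ≤ wordLen S g)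
    (hne : ∃ d : ℕ, (comp S {h | wordLen S g ≤ wordLen S h + d} g).Infinite) :
    D ≤ retreatDepth S g := by
  refine le_csInf hne fun d hd => ?_
  by_contra hlt
  push Not at hlt
  apply hd
  refine hfin.subset (comp_subset hg fun x hx hxA s hs _ => ?_)
  by_contra hxs
  have h1 := h x hx s hs hxs
  have h2 : wordLen S g ≤ wordLen S x + d := hxA
  omega

/-- In an infinite group the retreat depth is defined by a non-empty set. -/
theorem exists_infinite_comp [Infinite G] {S : Set G} (hS : Subgroup.closure S = ⊤) (g : G) :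
    ∃ d : ℕ, (comp S {h | wordLen S g ≤ wordLen S h + d} g).Infinite := by
  refine ⟨wordLen S g, ?_⟩
  have : comp S {h | wordLen S g ≤ wordLen S h + wordLen S g} g = Set.univ := by
    rw [Set.eq_univ_iff_forall]
    have hA : ∀ x : G, x ∈ {h | wordLen S g ≤ wordLen S h + wordLen S g} :=
      fun x => Nat.le_add_left _ _
    have key : ∀ w : List G, (∀ s ∈ w, s ∈ S ∨ s⁻¹ ∈ S) →
        ∀ x : G, x ∈ comp S {h | wordLen S g ≤ wordLen S h + wordLen S g} g →
        x * w.prod ∈ comp S {h | wordLen S g ≤ wordLen S h + wordLen S g} g := by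
      intro w
      induction w with
      | nil => intro _ x hx; simpa using hx
      | cons s w ih =>
        intro hw x hx
        rw [List.prod_cons, ← mul_assoc]
        refine ih (fun s hs => hw s (by simp [hs])) (x * s) ?_
        obtain ⟨h1, h2, h3⟩ := hx
        refine ⟨h1, hA _, h3.trans ?_⟩
        by_cases hxs : x = x * s
        · have : (⟨x, h2⟩ : {h | wordLen S g ≤ wordLen S h + wordLen S g}) = ⟨x * s, hA _⟩ :=
            Subtype.ext hxs
          rw [this]
        · exact SimpleGraph.Adj.reachable ⟨hxs, s, hw s (by simp), rfl⟩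
    intro x
    obtain ⟨w, hw, hwp⟩ := exists_word (S := S) (g := g⁻¹ * x) (by rw [hS]; trivial)
    have := key w hw g ⟨hA g, hA g, SimpleGraph.Reachable.refl _⟩
    rwa [hwp, mul_inv_cancel_left] at this
  rw [this]
  exact Set.infinite_univ

/-- Word length and Cayley graph only depend on the symmetric closure of `S`. -/
theorem retreatDepth_congr {S S' : Set G} (h : ∀ s, (s ∈ S ∨ s⁻¹ ∈ S) ↔ (s ∈ S' ∨ s⁻¹ ∈ S')) :
    retreatDepth S = retreatDepth S' := by
  have h1 : wordLen S = wordLen S' := by
    funext g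
    unfold wordLen
    congr 1
    ext n
    constructor
    · rintro ⟨w, hw, h2⟩
      exact ⟨w, fun s hs => (h s).1 (hw s hs), h2⟩
    · rintro ⟨w, hw, h2⟩
      exact ⟨w, fun s hs => (h s).2 (hw s hs), h2⟩
  have h2 : cayley S = cayley S' := by
    ext x y
    constructor
    · rintro ⟨h1, s, hs, h2⟩
      exact ⟨h1, s, (h s).1 hs, h2⟩
    · rintro ⟨h1, s, hs, h2⟩
      exact ⟨h1, s, (h s).2 hs, h2⟩
  funext g
  unfold retreatDepth comp
  rw [h1, h2]

end Pool.Agent.V1125
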