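import Pool.Agent.V1125.Cayley

/-!
# One-ended groups and connected spheres
-/

set_option autoImplicit false

namespace Pool.Agent.V1125

universe u

variable {G : Type u} [Group G]

/-- `(G, S)` is one-ended: `G` is infinite and the complement of every finite set of vertices of
the Cayley graph has exactly one infinite connected component. -/
def OneEnded (S : Set G) : Prop :=
  Infinite G ∧ ∀ F : Set G, F.Finite →
    ∃! c : ((cayley S).induce Fᶜ).ConnectedComponent, c.supp.Infinite

/-- The complement of the ball `B(n - 1)`. -/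
def outside (S : Set G) (n : ℕ) : Set G := {g | n ≤ wordLen S g}

/-- The union of the infinite connected components of the complement of `B(n - 1)`. -/
def infComp (S : Set G) (n : ℕ) : Set G := {g | (comp S (outside S n) g).Infinite}

/-- The set `S(n, r)^∞`: the elements of `B(n + r)` in the infinite component of the complement
of `B(n - 1)`. -/
def sphereInf (S : Set G) (n r : ℕ) : Set G := {g | g ∈ infComp S n ∧ wordLen S g ≤ n + r}

/-- `(G, S)` has connected spheres: it is one-ended and the connection thickness, the least `r`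
for which `S(n, r)^∞` is connected, is bounded in `n`. -/
def ConnectedSpheres (S : Set G) : Prop :=
  OneEnded S ∧ ∃ R : ℕ, ∀ n : ℕ, ∃ r ≤ R, ((cayley S).induce (sphereInf S n r)).Connected

/-- `(G, S)` has bounded retreat depth. -/
def BoundedRetreatDepth (S : Set G) : Prop := ∃ D : ℕ, ∀ g : G, retreatDepth S g ≤ D

/-! ## Connections inside a set -/

section Conn

variable {S A B : Set G}

theorem comp_left {x y : G} (h : y ∈ comp S A x) : x ∈ A := h.1

theorem comp_right {x y : G} (h : y ∈ comp S A x) : y ∈ A := h.2.1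

theorem comp_refl {x : G} (h : x ∈ A) : x ∈ comp S A x := ⟨h, h, SimpleGraph.Reachable.refl _⟩

theorem comp_symm {x y : G} (h : y ∈ comp S A x) : x ∈ comp S A y := ⟨h.2.1, h.1, h.2.2.symm⟩

theorem comp_trans {x y z : G} (h : y ∈ comp S A x) (h' : z ∈ comp S A y) : z ∈ comp S A x :=
  ⟨h.1, h'.2.1, h.2.2.trans h'.2.2⟩

theorem comp_step {x : G} (hx : x ∈ A) {s : G} (hs : s ∈ S ∨ s⁻¹ ∈ S) (hxs : x * s ∈ A) :
    x * s ∈ comp S A x := by
  refine ⟨hx, hxs, ?_⟩
  by_cases h : x = x * s
  · have : (⟨x, hx⟩ : A) = ⟨x * s, hxs⟩ := Subtype.ext h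
    rw [this]
  · exact SimpleGraph.Adj.reachable ⟨h, s, hs, rfl⟩

theorem comp_mono (hAB : A ⊆ B) {x y : G} (h : y ∈ comp S A x) : y ∈ comp S B x := by
  obtain ⟨hx, hy, hr⟩ := h
  refine ⟨hAB hx, hAB hy, ?_⟩
  exact hr.map (SimpleGraph.induceHomOfLE (cayley S) hAB).toHom

theorem comp_eq {x y : G} (h : y ∈ comp S A x) : comp S A x = comp S A y := by
  ext z
  exact ⟨fun hz => comp_trans (comp_symm h) hz, fun hz => comp_trans h hz⟩

/-- An invariant preserved by all steps inside `A` holds on the component. -/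
theorem comp_invariant {P : G → Prop} {x y : G} (h : y ∈ comp S A x) (hx : P x)
    (hstep : ∀ z, z ∈ A → P z → ∀ s, (s ∈ S ∨ s⁻¹ ∈ S) → z * s ∈ A → P (z * s)) : P y := by
  have h1 : comp S A x ⊆ {z | P z} :=
    comp_subset (S := S) (A := A) (R := {z | P z}) hx fun z hz hzA s hs hzs => hstep z hzA hz s hs hzs
  exact h1 h

/-- A criterion for one-endedness. -/
theorem oneEnded_of [Infinite G]
    (h : ∀ F : Set G, F.Finite → ∃ A : Set G, A ⊆ Fᶜ ∧ Aᶜ.Finite ∧
      ∀ x ∈ A, ∀ y ∈ A, y ∈ comp S A x) : OneEnded S := by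
  refine ⟨inferInstance, fun F hF => ?_⟩
  obtain ⟨A, hAF, hfin, hconn⟩ := h F hF
  have hAinf : A.Infinite := by
    intro hA
    have := (hA.union hfin)
    rw [Set.union_compl_self] at this
    exact Set.infinite_univ this
  obtain ⟨x, hx⟩ := hAinf.nonempty
  have hsupp : ∀ y ∈ A, ∀ hy : y ∈ Fᶜ, (⟨y, hy⟩ : (Fᶜ : Set G)) ∈
      (((cayley S).induce Fᶜ).connectedComponentMk ⟨x, hAF hx⟩).supp := by
    intro y hyA hy
    rw [SimpleGraph.ConnectedComponent.mem_supp_iff, SimpleGraph.ConnectedComponent.eq]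
    obtain ⟨h1, h2, h3⟩ := comp_mono hAF (hconn x hx y hyA)
    exact h3.symm
  refine ⟨((cayley S).induce Fᶜ).connectedComponentMk ⟨x, hAF hx⟩, ?_, ?_⟩
  · have hinj : Set.InjOn (fun y : A => (⟨y.1, hAF y.2⟩ : (Fᶜ : Set G))) Set.univ := by
      intro a _ b _ hab
      exact Subtype.ext (congrArg (fun z : (Fᶜ : Set G) => z.1) hab)
    have h1 : ((fun y : A => (⟨y.1, hAF y.2⟩ : (Fᶜ : Set G))) '' Set.univ).Infinite := by
      have : Infinite A := hAinf.to_subtype
      exact (Set.infinite_image_iff hinj).2 Set.infinite_univ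
    refine h1.mono ?_
    rintro _ ⟨y, -, rfl⟩
    exact hsupp y.1 y.2 _
  · intro c hc
    have h1 : ∃ y ∈ c.supp, (y : G) ∈ A := by
      by_contra hcon
      push Not at hcon
      apply hc
      have h2 : (Subtype.val '' c.supp : Set G).Finite := by
        refine hfin.subset ?_
        rintro _ ⟨y, hy, rfl⟩
        exact hcon y hy
      exact Set.Finite.of_finite_image h2 Subtype.val_injective.injOn
    obtain ⟨y, hyc, hyA⟩ := h1
    have h2 := hsupp y.1 hyA y.2
    rw [SimpleGraph.ConnectedComponent.mem_supp_iff] at h2 hyc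
    rw [← hyc, ← h2]

theorem retreatDepth_eq_zero {g : G} (h : (comp S (outside S (wordLen S g)) g).Infinite) :
    retreatDepth S g = 0 := by
  apply Nat.eq_zero_of_le_zero
  refine Nat.sInf_le ?_
  exact h

end Conn

end Pool.Agent.V1125
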