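import Pool.Agent.V1125.TreeLampEnds
import Mathlib.GroupTheory.FreeGroup.Reduce
import Mathlib.Data.Set.Finite.List

/-!
# The Cayley tree of the free group of rank two
-/

set_option autoImplicit false

namespace Pool.Agent.V1125.FT

open Pool.Agent.V1125

/-- The letters. -/
abbrev L : Type := Fin 2 × Bool

/-- The vertices of the tree. -/
abbrev V : Type := FreeGroup (Fin 2)

/-- The inverse letter. -/
def bar (c : L) : L := (c.1, !c.2)

theorem bar_bar (c : L) : bar (bar c) = c := by
  unfold bar
  simp

/-- The group element of a letter. -/
def gen (c : L) : V := FreeGroup.mk [c]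

theorem gen_inv (c : L) : (gen c)⁻¹ = gen (bar c) := by
  unfold gen bar
  rw [FreeGroup.inv_mk]
  rfl

theorem gen_bar (c : L) : gen c * gen (bar c) = 1 := by
  rw [← gen_inv, mul_inv_cancel]

theorem gen_injective : Function.Injective gen := by
  intro c d h
  have h1 := congrArg FreeGroup.toWord h
  unfold gen at h1
  rw [FreeGroup.toWord_mk, FreeGroup.toWord_mk] at h1
  simpa using h1

/-- The word read from the vertex to the root. -/
def code (x : V) : List L := (x⁻¹).toWord

theorem code_injective : Function.Injective code := by
  intro x y h
  exact inv_injective (FreeGroup.toWord_injective h)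

theorem code_one : code 1 = [] := by
  unfold code
  rw [inv_one, FreeGroup.toWord_one]

theorem code_eq_nil {x : V} (h : code x = []) : x = 1 := code_injective (h.trans code_one.symm)

theorem code_mul (x : V) (c : L) : code (x * gen c) = FreeGroup.reduce (bar c :: code x) := by
  unfold code
  rw [mul_inv_rev, gen_inv, FreeGroup.toWord_mul]
  unfold gen
  rw [FreeGroup.toWord_mk, FreeGroup.reduce_singleton]
  rfl

theorem code_reduce (x : V) : FreeGroup.reduce (code x) = code x := FreeGroup.reduce_toWord _

theorem code_mul_cancel {x : V} {c : L} {t : List L} (h : code x = c :: t) :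
    code (x * gen c) = t := by
  rw [code_mul, FreeGroup.reduce.cons, code_reduce, h]
  simp [bar]

theorem code_mul_cons {x : V} {c : L} (h : ∀ t, code x ≠ c :: t) :
    code (x * gen c) = bar c :: code x := by
  rw [code_mul, FreeGroup.reduce.cons, code_reduce]
  rcases hx : code x with _ | ⟨d, t⟩
  · rfl
  · have hne : d ≠ c := by
      rintro rfl
      exact h t hx
    have h1 : ¬ (c.1 = d.1 ∧ c.2 = d.2) := fun h2 => hne (Prod.ext h2.1.symm h2.2.symm)
    simp [bar, h1]

/-- The parent of a vertex. -/
def par (x : V) : V :=
  match code x with
  | [] => 1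
  | c :: _ => x * gen c

theorem par_eq {x : V} {c : L} {t : List L} (h : code x = c :: t) : par x = x * gen c := by
  unfold par
  rw [h]

/-- An index whose letters do not backtrack. -/
def idx (x : V) : Fin 2 :=
  match code x with
  | [] => 0
  | c :: _ => if c.1 = 0 then 1 else 0

theorem idx_ne {x : V} {c : L} {t : List L} (h : code x = c :: t) : idx x ≠ c.1 := by
  unfold idx
  rw [h]
  show (if c.1 = 0 then (1 : Fin 2) else 0) ≠ c.1
  split_ifs with h1
  · rw [h1]
    exact one_ne_zero
  · exact fun h2 => h1 h2.symm

/-- Two of the children of a vertex. -/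
def ch (b : Bool) (x : V) : V := x * gen (idx x, b)

theorem code_ch (b : Bool) (x : V) : code (ch b x) = bar (idx x, b) :: code x := by
  refine code_mul_cons fun t h => ?_
  exact idx_ne h rfl

/-- The Cayley tree as a rooted tree. -/
def tree : RTree V where
  root := 1
  par := par
  dep := fun x => (code x).length
  ch := ch
  dep_root := by
    show (code 1).length = 0
    rw [code_one]
    rfl
  dep_par := by
    intro x hx
    show (code (par x)).length + 1 = (code x).length
    rcases h : code x with _ | ⟨c, t⟩
    · exact absurd (code_eq_nil h) hx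
    · rw [par_eq h, code_mul_cancel h]
      rfl
  fin_ball := by
    intro n
    refine Set.Finite.of_injOn (f := code) (t := {l : List L | l.length ≤ n}) ?_ ?_
      (List.finite_length_le L n)
    · exact fun x hx => hx
    · exact code_injective.injOn
  ch_ne := by
    intro b x h
    have h1 := code_ch b x
    rw [h, code_one] at h1
    exact List.cons_ne_nil _ _ h1.symm
  par_ch := by
    intro b x
    show par (ch b x) = x
    rw [par_eq (code_ch b x)]
    unfold ch
    rw [mul_assoc, gen_bar, mul_one]
  ch_inj := by
    intro x h
    have h1 : gen (idx x, true) = gen (idx x, false) := mul_left_cancel h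
    have h2 := congrArg Prod.snd (gen_injective h1)
    exact Bool.noConfusion h2

theorem root_eq : tree.root = 1 := rfl

theorem adj_iff (x y : V) : tree.Adj x y ↔ ∃ c, y = x * gen c := by
  constructor
  · rintro (⟨h1, h2⟩ | ⟨h1, h2⟩)
    · rcases h : code x with _ | ⟨c, t⟩
      · exact absurd (code_eq_nil h) h1
      · exact ⟨c, h2.trans (par_eq h)⟩
    · rcases h : code y with _ | ⟨c, t⟩
      · exact absurd (code_eq_nil h) h1
      · refine ⟨bar c, ?_⟩
        have h3 : x = y * gen c := h2.trans (par_eq h)
        rw [h3, mul_assoc, gen_bar, mul_one]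
  · rintro ⟨c, rfl⟩
    by_cases h : ∃ t, code x = c :: t
    · obtain ⟨t, h⟩ := h
      left
      refine ⟨?_, (par_eq h).symm⟩
      intro h1
      have h1 : x = 1 := h1
      rw [h1, code_one] at h
      exact List.cons_ne_nil _ _ h.symm
    · push Not at h
      have h1 := code_mul_cons h
      right
      refine ⟨?_, ?_⟩
      · intro h2
        have h2 : x * gen c = 1 := h2
        rw [h2, code_one] at h1
        exact List.cons_ne_nil _ _ h1.symm
      · show x = par (x * gen c)
        rw [par_eq h1, mul_assoc, gen_bar, mul_one]

end Pool.Agent.V1125.FT
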