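import Pool.Agent.V1125.Ends

/-!
# The square lattice has retreat depth zero and connected spheres
-/

set_option autoImplicit false

namespace Pool.Agent.V1125.Z2

open Pool.Agent.V1125

/-- The group `ℤ × ℤ`, written multiplicatively. -/
abbrev Q : Type := Multiplicative (ℤ × ℤ)

/-- The element with coordinates `a` and `b`. -/
def el (a b : ℤ) : Q := Multiplicative.ofAdd (a, b)

/-- The first coordinate. -/
def cx (v : Q) : ℤ := (Multiplicative.toAdd v).1

/-- The second coordinate. -/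
def cy (v : Q) : ℤ := (Multiplicative.toAdd v).2

theorem el_eta (v : Q) : el (cx v) (cy v) = v := rfl

theorem el_mul (a b c d : ℤ) : el a b * el c d = el (a + c) (b + d) := rfl

theorem ext {v w : Q} (h1 : cx v = cx w) (h2 : cy v = cy w) : v = w := by
  rw [← el_eta v, ← el_eta w, h1, h2]

/-- The `ℓ¹` norm. -/
def nn (v : Q) : ℕ := (cx v).natAbs + (cy v).natAbs

/-- The standard generators. -/
def IsStd (S : Set Q) : Prop :=
  ∀ s, s ∈ S ↔ (s = el 1 0 ∨ s = el (-1) 0 ∨ s = el 0 1 ∨ s = el 0 (-1))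

variable {S : Set Q} (hS : IsStd S)

include hS

theorem letter {s : Q} (hs : s ∈ S ∨ s⁻¹ ∈ S) :
    s = el 1 0 ∨ s = el (-1) 0 ∨ s = el 0 1 ∨ s = el 0 (-1) := by
  rcases hs with h | h
  · exact (hS s).1 h
  · have h1 : ∀ a b : ℤ, s⁻¹ = el a b → s = el (-a) (-b) := by
      intro a b hab
      rw [← inv_inv s, hab]
      rfl
    rcases (hS _).1 h with h | h | h | h
    · exact Or.inr (Or.inl (by simpa using h1 _ _ h))
    · exact Or.inl (by simpa using h1 _ _ h)
    · exact Or.inr (Or.inr (Or.inr (by simpa using h1 _ _ h)))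
    · exact Or.inr (Or.inr (Or.inl (by simpa using h1 _ _ h)))

theorem zpow_x (n : ℤ) : (el 1 0) ^ n = el n 0 := by
  show Multiplicative.ofAdd (n • ((1 : ℤ), (0 : ℤ))) = _
  simp [el]

theorem zpow_y (n : ℤ) : (el 0 1) ^ n = el 0 n := by
  show Multiplicative.ofAdd (n • ((0 : ℤ), (1 : ℤ))) = _
  simp [el]

theorem gen : Subgroup.closure S = ⊤ := by
  rw [eq_top_iff]
  rintro v -
  have h1 : el 1 0 ∈ Subgroup.closure S := Subgroup.subset_closure ((hS _).2 (Or.inl rfl))
  have h2 : el 0 1 ∈ Subgroup.closure S :=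
    Subgroup.subset_closure ((hS _).2 (Or.inr (Or.inr (Or.inl rfl))))
  have h3 : v = (el 1 0) ^ (cx v) * (el 0 1) ^ (cy v) := by
    rw [zpow_x hS, zpow_y hS, el_mul]
    apply ext <;> simp [cx, cy, el]
  rw [h3]
  exact Subgroup.mul_mem _ (Subgroup.zpow_mem _ h1 _) (Subgroup.zpow_mem _ h2 _)

theorem len_eq (v : Q) : wordLen S v = nn v := by
  have hcl : ∀ v : Q, v ∈ Subgroup.closure S := fun v => by rw [gen hS]; trivial
  apply le_antisymm
  · have h3 : v = (el 1 0) ^ (cx v) * (el 0 1) ^ (cy v) := by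
      rw [zpow_x hS, zpow_y hS, el_mul]
      apply ext <;> simp [cx, cy, el]
    have e1 := wordLen_mul_le (hcl ((el 1 0) ^ (cx v))) (hcl ((el 0 1) ^ (cy v)))
    rw [← h3] at e1
    have e2 := wordLen_zpow_le (hcl (el 1 0)) (cx v)
    have e3 := wordLen_zpow_le (hcl (el 0 1)) (cy v)
    have e4 : wordLen S (el 1 0) ≤ 1 := by
      have := wordLen_le (S := S) [el 1 0] (by
        intro s hs
        rw [List.mem_singleton] at hs
        exact Or.inl ((hS s).2 (Or.inl hs)))
      simpa using this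
    have e5 : wordLen S (el 0 1) ≤ 1 := by
      have := wordLen_le (S := S) [el 0 1] (by
        intro s hs
        rw [List.mem_singleton] at hs
        exact Or.inl ((hS s).2 (Or.inr (Or.inr (Or.inl hs)))))
      simpa using this
    have f2 := e2.trans (Nat.mul_le_mul_left _ e4)
    have f3 := e3.trans (Nat.mul_le_mul_left _ e5)
    rw [mul_one] at f2 f3
    unfold nn
    omega
  · generalize hn : wordLen S v = n
    induction n generalizing v with
    | zero =>
      have : v = 1 := eq_one_of_wordLen (hcl v) hn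
      rw [this]
      rfl
    | succ n ih =>
      obtain ⟨v', s, -, hs, rfl, hl⟩ := exists_step (hcl v) hn
      have h1 := ih v' hl
      have h2 : cx (v' * s) = cx v' + cx s := rfl
      have h3 : cy (v' * s) = cy v' + cy s := rfl
      unfold nn at h1 ⊢
      rw [h2, h3]
      rcases letter hS hs with rfl | rfl | rfl | rfl <;> simp only [cx, cy, el, toAdd_ofAdd] <;>
        simp only [cx, cy] at h1 <;> omega

theorem step {A : Set Q} {a b c d : ℤ} (h1 : el a b ∈ A) (h2 : el c d ∈ A)
    (h : (c = a + 1 ∧ d = b) ∨ (c = a - 1 ∧ d = b) ∨ (c = a ∧ d = b + 1) ∨ (c = a ∧ d = b - 1)) :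
    el c d ∈ comp S A (el a b) := by
  have key : ∀ s, (s = el 1 0 ∨ s = el (-1) 0 ∨ s = el 0 1 ∨ s = el 0 (-1)) →
      el a b * s = el c d → el c d ∈ comp S A (el a b) := by
    intro s hs he
    rw [← he]
    exact comp_step h1 (Or.inl ((hS s).2 hs)) (by rw [he]; exact h2)
  rcases h with ⟨rfl, rfl⟩ | ⟨rfl, rfl⟩ | ⟨rfl, rfl⟩ | ⟨rfl, rfl⟩
  · exact key _ (Or.inl rfl) (by rw [el_mul, add_zero])
  · exact key _ (Or.inr (Or.inl rfl)) (by rw [el_mul, add_zero]; rfl)
  · exact key _ (Or.inr (Or.inr (Or.inl rfl))) (by rw [el_mul, add_zero])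
  · exact key _ (Or.inr (Or.inr (Or.inr rfl))) (by rw [el_mul, add_zero]; rfl)

/-- The annulus of thickness one. -/
def ann (n : ℕ) : Set Q := {v | n ≤ nn v ∧ nn v ≤ n + 1}

omit hS in
theorem mem_ann {n : ℕ} {a b : ℤ} : el a b ∈ ann n ↔
    n ≤ a.natAbs + b.natAbs ∧ a.natAbs + b.natAbs ≤ n + 1 := Iff.rfl

theorem ann_aux (n : ℕ) (k : ℕ) : ∀ a b : ℤ, a.natAbs + b.natAbs = n → (n : ℤ) - a = k →
    el n 0 ∈ comp S (ann n) (el a b) := by
  induction k with
  | zero =>
    intro a b h1 h2
    have ha : a = n := by push_cast at h2; omega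
    have hb : b = 0 := by omega
    rw [ha, hb]
    exact comp_refl (mem_ann.2 (by omega))
  | succ k ih =>
    intro a b h1 h2
    push_cast at h2
    rcases le_or_gt 0 a with ha | ha
    · rcases lt_or_ge 0 b with hb | hb
      · have e1 : el (a + 1) b ∈ comp S (ann n) (el a b) :=
          step hS (mem_ann.2 (by omega)) (mem_ann.2 (by omega)) (Or.inl ⟨rfl, rfl⟩)
        have e2 : el (a + 1) (b - 1) ∈ comp S (ann n) (el (a + 1) b) :=
          step hS (mem_ann.2 (by omega)) (mem_ann.2 (by omega))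
            (Or.inr (Or.inr (Or.inr ⟨rfl, rfl⟩)))
        exact comp_trans e1 (comp_trans e2 (ih _ _ (by omega) (by omega)))
      · have e1 : el (a + 1) b ∈ comp S (ann n) (el a b) :=
          step hS (mem_ann.2 (by omega)) (mem_ann.2 (by omega)) (Or.inl ⟨rfl, rfl⟩)
        have e2 : el (a + 1) (b + 1) ∈ comp S (ann n) (el (a + 1) b) :=
          step hS (mem_ann.2 (by omega)) (mem_ann.2 (by omega))
            (Or.inr (Or.inr (Or.inl ⟨rfl, rfl⟩)))
        exact comp_trans e1 (comp_trans e2 (ih _ _ (by omega) (by omega)))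
    · rcases lt_or_ge b 0 with hb | hb
      · have e1 : el a (b - 1) ∈ comp S (ann n) (el a b) :=
          step hS (mem_ann.2 (by omega)) (mem_ann.2 (by omega))
            (Or.inr (Or.inr (Or.inr ⟨rfl, rfl⟩)))
        have e2 : el (a + 1) (b - 1) ∈ comp S (ann n) (el a (b - 1)) :=
          step hS (mem_ann.2 (by omega)) (mem_ann.2 (by omega)) (Or.inl ⟨rfl, rfl⟩)
        exact comp_trans e1 (comp_trans e2 (ih _ _ (by omega) (by omega)))
      · have e1 : el a (b + 1) ∈ comp S (ann n) (el a b) :=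
          step hS (mem_ann.2 (by omega)) (mem_ann.2 (by omega))
            (Or.inr (Or.inr (Or.inl ⟨rfl, rfl⟩)))
        have e2 : el (a + 1) (b + 1) ∈ comp S (ann n) (el a (b + 1)) :=
          step hS (mem_ann.2 (by omega)) (mem_ann.2 (by omega)) (Or.inl ⟨rfl, rfl⟩)
        exact comp_trans e1 (comp_trans e2 (ih _ _ (by omega) (by omega)))

/-- A step towards the origin. -/
theorem exists_in (a b : ℤ) (n : ℕ) (h : n < a.natAbs + b.natAbs) (A : Set Q)
    (hA : ∀ c d : ℤ, n ≤ c.natAbs + d.natAbs → c.natAbs + d.natAbs ≤ a.natAbs + b.natAbs →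
      el c d ∈ A) : ∃ c d : ℤ, c.natAbs + d.natAbs + 1 = a.natAbs + b.natAbs ∧
      el c d ∈ comp S A (el a b) := by
  by_cases ha : a = 0
  · rcases lt_or_ge 0 b with hb | hb
    · exact ⟨a, b - 1, by omega, step hS (hA _ _ (by omega) (by omega))
        (hA _ _ (by omega) (by omega)) (Or.inr (Or.inr (Or.inr ⟨rfl, rfl⟩)))⟩
    · exact ⟨a, b + 1, by omega, step hS (hA _ _ (by omega) (by omega))
        (hA _ _ (by omega) (by omega)) (Or.inr (Or.inr (Or.inl ⟨rfl, rfl⟩)))⟩
  · rcases lt_or_ge 0 a with hb | hb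
    · exact ⟨a - 1, b, by omega, step hS (hA _ _ (by omega) (by omega))
        (hA _ _ (by omega) (by omega)) (Or.inr (Or.inl ⟨rfl, rfl⟩))⟩
    · exact ⟨a + 1, b, by omega, step hS (hA _ _ (by omega) (by omega))
        (hA _ _ (by omega) (by omega)) (Or.inl ⟨rfl, rfl⟩)⟩

theorem ann_conn (n : ℕ) (v : Q) (hv : v ∈ ann n) : el n 0 ∈ comp S (ann n) v := by
  rw [← el_eta v] at hv ⊢
  rw [mem_ann] at hv
  rcases hv.1.lt_or_eq with h | h
  · obtain ⟨c, d, h1, h2⟩ := exists_in hS (cx v) (cy v) n h (ann n)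
      (fun c d h3 h4 => mem_ann.2 ⟨h3, h4.trans hv.2⟩)
    exact comp_trans h2 (ann_aux hS n _ c d (by omega) (Int.toNat_of_nonneg (by omega)).symm)
  · exact ann_aux hS n _ _ _ h.symm (Int.toNat_of_nonneg (by omega)).symm

theorem outside_eq (n : ℕ) : outside S n = {v | n ≤ nn v} := by
  ext v
  show n ≤ wordLen S v ↔ _
  rw [len_eq hS]
  rfl

theorem out_conn (n : ℕ) (k : ℕ) : ∀ v : Q, nn v = n + k → el n 0 ∈ comp S (outside S n) v := by
  rw [outside_eq hS]
  induction k with
  | zero =>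
    intro v hv
    refine comp_mono ?_ (ann_conn hS n v ⟨by omega, by omega⟩)
    exact fun w hw => hw.1
  | succ k ih =>
    intro v hv
    have hv' : (cx v).natAbs + (cy v).natAbs = n + (k + 1) := hv
    obtain ⟨c, d, h1, h2⟩ := exists_in hS (cx v) (cy v) n (by omega) {v | n ≤ nn v}
      (fun c d h3 _ => h3)
    rw [el_eta] at h2
    refine comp_trans h2 (ih _ ?_)
    show c.natAbs + d.natAbs = n + k
    omega

omit hS in
theorem infinite_out (n : ℕ) : {v : Q | n ≤ nn v}.Infinite := by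
  have h : Function.Injective fun k : ℕ => el (n + k) 0 := by
    intro i j hij
    have h1 : cx (el (n + i) 0) = cx (el (n + j) 0) := congrArg cx hij
    simp only [cx, el, toAdd_ofAdd] at h1
    omega
  refine (Set.infinite_range_of_injective h).mono ?_
  rintro _ ⟨k, rfl⟩
  show n ≤ ((n : ℤ) + k).natAbs + (0 : ℤ).natAbs
  omega

theorem infComp_eq (n : ℕ) : infComp S n = outside S n := by
  ext v
  constructor
  · intro h
    obtain ⟨w, hw⟩ := (h : (comp S (outside S n) v).Infinite).nonempty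
    exact comp_left hw
  · intro hv
    show (comp S (outside S n) v).Infinite
    have hv' := hv
    rw [outside_eq hS] at hv'
    have h1 := out_conn hS n (nn v - n) v (by have : n ≤ nn v := hv'; omega)
    refine (infinite_out n).mono fun w hw => ?_
    have h2 := out_conn hS n (nn w - n) w (by have : n ≤ nn w := hw; omega)
    exact comp_trans h1 (comp_symm h2)

omit hS in
theorem infinite : Infinite Q := by
  have := infinite_out 0
  exact Set.infinite_univ_iff.1 (this.mono (Set.subset_univ _))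

theorem boundedRetreatDepth : BoundedRetreatDepth S := by
  refine ⟨0, fun g => ?_⟩
  rw [retreatDepth_eq_zero]
  have h : g ∈ infComp S (wordLen S g) := by
    rw [infComp_eq hS]
    exact le_refl (wordLen S g)
  exact h

theorem oneEnded : OneEnded S := by
  have hinf := infinite
  refine oneEnded_of fun F hF => ?_
  obtain ⟨B, hB⟩ := (hF.image nn).bddAbove
  have hcl : ∀ v : Q, v ∈ Subgroup.closure S := fun v => by rw [gen hS]; trivial
  refine ⟨outside S (B + 1), ?_, ?_, fun x hx y hy => ?_⟩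
  · intro v hv hvF
    have h1 : nn v ≤ B := hB ⟨v, hvF, rfl⟩
    rw [outside_eq hS] at hv
    have h2 : B + 1 ≤ nn v := hv
    omega
  · have hfin : S.Finite := by
      have : S ⊆ {el 1 0, el (-1) 0, el 0 1, el 0 (-1)} := fun s hs => (hS s).1 hs
      exact (Set.toFinite _).subset this
    refine (finite_ball hfin B).subset fun v hv => ⟨hcl v, ?_⟩
    have h1 : ¬ (B + 1 ≤ wordLen S v) := hv
    omega
  · rw [outside_eq hS] at hx hy
    have h1 := out_conn hS (B + 1) (nn x - (B + 1)) x (by have : B + 1 ≤ nn x := hx; omega)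
    have h2 := out_conn hS (B + 1) (nn y - (B + 1)) y (by have : B + 1 ≤ nn y := hy; omega)
    exact comp_trans h1 (comp_symm h2)

theorem connectedSpheres : ConnectedSpheres S := by
  refine ⟨oneEnded hS, 1, fun n => ⟨1, le_rfl, ?_⟩⟩
  have h : sphereInf S n 1 = ann n := by
    ext v
    show (v ∈ infComp S n ∧ wordLen S v ≤ n + 1) ↔ _
    rw [infComp_eq hS, outside_eq hS, len_eq hS]
    rfl
  rw [h]
  have : Nonempty (ann n) := ⟨⟨el n 0, mem_ann.2 (by omega)⟩⟩
  refine ⟨fun x y => ?_⟩
  have h1 := ann_conn hS n x.1 x.2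
  have h2 := ann_conn hS n y.1 y.2
  obtain ⟨_, _, h3⟩ := comp_trans h1 (comp_symm h2)
  exact h3

end Pool.Agent.V1125.Z2
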