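import Pool.Agent.V1125.FreeTree
import Pool.Agent.V1125.Z2
import Mathlib.Algebra.Group.Action.Pointwise.Finset

/-!
# The lamplighter group over the free group of rank two
-/

set_option autoImplicit false

namespace Pool.Agent.V1125.FT

open Pool.Agent.V1125
open scoped Pointwise symmDiff

/-- The lamplighter group `Z/2 ≀ F₂`: a finite set of lit lamps and a position. -/
@[ext] structure LL : Type where
  f : Finset V
  x : V

namespace LL

instance : Mul LL := ⟨fun a b => ⟨a.f ∆ (a.x • b.f), a.x * b.x⟩⟩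

instance : One LL := ⟨⟨∅, 1⟩⟩

instance : Inv LL := ⟨fun a => ⟨a.x⁻¹ • a.f, a.x⁻¹⟩⟩

theorem mul_f (a b : LL) : (a * b).f = a.f ∆ (a.x • b.f) := rfl
theorem mul_x (a b : LL) : (a * b).x = a.x * b.x := rfl
theorem one_f : (1 : LL).f = ∅ := rfl
theorem one_x : (1 : LL).x = 1 := rfl
theorem inv_f (a : LL) : (a⁻¹).f = a.x⁻¹ • a.f := rfl
theorem inv_x (a : LL) : (a⁻¹).x = a.x⁻¹ := rfl

instance : Group LL where
  mul_assoc a b c := by
    apply LL.ext
    · rw [mul_f, mul_f, mul_f, mul_f, mul_x, Finset.smul_finset_symmDiff, smul_smul,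
        symmDiff_assoc]
    · rw [mul_x, mul_x, mul_x, mul_x, mul_assoc]
  one_mul a := by
    apply LL.ext
    · rw [mul_f, one_f, one_x, one_smul]
      exact bot_symmDiff _
    · rw [mul_x, one_x, one_mul]
  mul_one a := by
    apply LL.ext
    · rw [mul_f, one_f, Finset.smul_finset_empty]
      exact symmDiff_bot _
    · rw [mul_x, one_x, mul_one]
  inv_mul_cancel a := by
    apply LL.ext
    · rw [mul_f, inv_f, inv_x, symmDiff_self]
      rfl
    · rw [mul_x, inv_x, inv_mul_cancel, one_x]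

/-- The switch-walk-switch generating set: walk along a letter and change the lamps at the two
ends arbitrarily. -/
def S : Set LL := {g | ∃ c : L, g.x = gen c ∧ g.f ⊆ {1, g.x}}

theorem finite_S : S.Finite := by
  have h : S ⊆ ⋃ c : L, (fun f => (⟨f, gen c⟩ : LL)) '' ((({1, gen c} : Finset V).powerset : Finset (Finset V)) : Set (Finset V)) := by
    rintro ⟨f, x⟩ ⟨c, h1, h2⟩
    have h1 : x = gen c := h1
    have h2 : f ⊆ {1, x} := h2
    rw [Set.mem_iUnion]
    refine ⟨c, f, ?_, ?_⟩
    · rw [Finset.mem_coe, Finset.mem_powerset, ← h1]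
      exact h2
    · rw [h1]
  exact (Set.finite_iUnion fun c => (Finset.finite_toSet _).image _).subset h

theorem inv_mem {g : LL} (h : g ∈ S) : g⁻¹ ∈ S := by
  obtain ⟨c, h1, h2⟩ := h
  refine ⟨bar c, ?_, ?_⟩
  · rw [inv_x, h1, gen_inv]
  · rw [inv_f, inv_x]
    intro y hy
    rw [Finset.mem_inv_smul_finset_iff] at hy
    have h3 := h2 hy
    rw [Finset.mem_insert, Finset.mem_singleton] at h3 ⊢
    rcases h3 with h3 | h3
    · right
      rw [smul_eq_mul] at h3
      exact eq_inv_of_mul_eq_one_right h3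
    · left
      rw [smul_eq_mul] at h3
      exact mul_eq_left.1 h3

theorem mem_S_iff (g h : LL) : g⁻¹ * h ∈ S ↔ tree.Move g.f g.x h.f h.x := by
  have hf : (g⁻¹ * h).f = g.x⁻¹ • (g.f ∆ h.f) := by
    rw [mul_f, inv_f, inv_x, Finset.smul_finset_symmDiff]
  have hx : (g⁻¹ * h).x = g.x⁻¹ * h.x := by rw [mul_x, inv_x]
  constructor
  · rintro ⟨c, h1, h2⟩
    rw [hx] at h1
    rw [hf, hx] at h2
    refine ⟨(adj_iff _ _).2 ⟨c, by rw [← h1, mul_inv_cancel_left]⟩, ?_⟩
    intro y hy1 hy2
    by_contra hcon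
    have h3 : g.x⁻¹ * y ∈ g.x⁻¹ • (g.f ∆ h.f) := by
      rw [Finset.mem_inv_smul_finset_iff, smul_eq_mul, mul_inv_cancel_left, Finset.mem_symmDiff]
      tauto
    have h4 := h2 h3
    rw [Finset.mem_insert, Finset.mem_singleton] at h4
    rcases h4 with h4 | h4
    · exact hy1 (inv_mul_eq_one.1 h4).symm
    · exact hy2 (mul_left_cancel h4)
  · rintro ⟨h1, h2⟩
    obtain ⟨c, hc⟩ := (adj_iff _ _).1 h1
    refine ⟨c, ?_, ?_⟩
    · rw [hx, hc, inv_mul_cancel_left]
    · rw [hf, hx]
      intro y hy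
      rw [Finset.mem_inv_smul_finset_iff, smul_eq_mul, Finset.mem_symmDiff] at hy
      rw [Finset.mem_insert, Finset.mem_singleton]
      by_contra hcon
      push Not at hcon
      have h3 : g.x * y ≠ g.x := fun h4 => hcon.1 (mul_eq_left.1 h4)
      have h5 : g.x * y ≠ h.x := fun h4 => hcon.2 (by rw [← h4, inv_mul_cancel_left])
      have h6 := h2 _ h3 h5
      tauto

/-- The lamplighter model. -/
def model : LModel tree LL S where
  F := LL.f
  pos := LL.x
  F_one := rfl
  pos_one := rfl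
  inj := fun g h h1 h2 => LL.ext h1 h2
  surj := fun f x => ⟨⟨f, x⟩, rfl, rfl⟩
  step := by
    intro g h
    rw [← mem_S_iff]
    constructor
    · rintro ⟨s, hs, rfl⟩
      rw [inv_mul_cancel_left]
      rcases hs with hs | hs
      · exact hs
      · have := inv_mem hs
        rwa [inv_inv] at this
    · intro hs
      exact ⟨g⁻¹ * h, Or.inl hs, by rw [mul_inv_cancel_left]⟩

/-- The projection to the position. -/
def posHom : LL →* V where
  toFun := LL.x
  map_one' := rfl
  map_mul' := fun _ _ => rfl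

/-- The abelianization of the free group of rank two. -/
def ab : V →* Z2.Q := FreeGroup.lift ![Z2.el 1 0, Z2.el 0 1]

/-- The projection of the lamplighter group onto `ℤ²`. -/
def proj : LL →* Z2.Q := ab.comp posHom

theorem ab_gen (c : L) : ab (gen c) = Z2.el 1 0 ∨ ab (gen c) = Z2.el (-1) 0 ∨
    ab (gen c) = Z2.el 0 1 ∨ ab (gen c) = Z2.el 0 (-1) := by
  unfold ab gen
  obtain ⟨i, b⟩ := c
  fin_cases i <;> cases b <;> simp [FreeGroup.lift_mk, Z2.el] <;> decide

theorem isStd : Z2.IsStd (proj '' S) := by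
  have key : ∀ c : L, ab (gen c) ∈ proj '' S := fun c =>
    ⟨⟨∅, gen c⟩, ⟨c, rfl, Finset.empty_subset _⟩, rfl⟩
  intro s
  constructor
  · rintro ⟨g, ⟨c, hc, -⟩, rfl⟩
    have : proj g = ab (gen c) := by
      rw [← hc]
      rfl
    rw [this]
    exact ab_gen c
  · have h1 : ab (gen (0, true)) = Z2.el 1 0 := by
      simp [ab, gen, FreeGroup.lift_mk]
    have h2 : ab (gen (0, false)) = Z2.el (-1) 0 := by
      simp [ab, gen, FreeGroup.lift_mk]
      rfl
    have h3 : ab (gen (1, true)) = Z2.el 0 1 := by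
      simp [ab, gen, FreeGroup.lift_mk]
    have h4 : ab (gen (1, false)) = Z2.el 0 (-1) := by
      simp [ab, gen, FreeGroup.lift_mk]
      rfl
    rintro (rfl | rfl | rfl | rfl)
    · rw [← h1]; exact key _
    · rw [← h2]; exact key _
    · rw [← h3]; exact key _
    · rw [← h4]; exact key _

theorem proj_surjective : Function.Surjective proj := by
  rw [← MonoidHom.range_eq_top, eq_top_iff, ← Z2.gen isStd, Subgroup.closure_le]
  rintro _ ⟨g, -, rfl⟩
  exact ⟨g, rfl⟩

end LL

end Pool.Agent.V1125.FT
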