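import Mathlib.LinearAlgebra.Matrix.Determinant.Basic
import Mathlib.LinearAlgebra.Matrix.Adjugate
import Mathlib.LinearAlgebra.Matrix.ToLinearEquiv
import Mathlib.Tactic

/-!
# Minors of addition systems
-/

set_option autoImplicit false

namespace Pool.Agent.V1125.Minor

open Matrix Finset

/-- The indicator row of an optional column. -/
def dl {s : ℕ} (o : Option (Fin s)) : Fin s → ℤ := fun c => if o = some c then 1 else 0

theorem dl_none {s : ℕ} : dl (none : Option (Fin s)) = 0 := by
  funext c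
  simp [dl]

/-- Rows of the form `2 e_u - e_w`. -/
def Ext {s : ℕ} (r : Fin s → ℤ) : Prop := ∃ u w : Option (Fin s), r = (2 : ℤ) • dl u - dl w

theorem ext_mk {s : ℕ} (u w : Option (Fin s)) : Ext ((2 : ℤ) • dl u - dl w) := ⟨u, w, rfl⟩

theorem ext_neg {s : ℕ} (w : Option (Fin s)) : Ext (-dl w) :=
  ⟨none, w, by rw [dl_none, smul_zero, zero_sub]⟩

theorem ext_two {s : ℕ} (u : Option (Fin s)) : Ext ((2 : ℤ) • dl u) :=
  ⟨u, none, by rw [dl_none, sub_zero]⟩

/-- Restriction of an optional column. -/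
noncomputable def res {s : ℕ} (c : Fin (s + 1)) (o : Option (Fin (s + 1))) : Option (Fin s) :=
  if h : ∃ k, o = some (c.succAbove k) then some h.choose else none

theorem dl_res {s : ℕ} (c : Fin (s + 1)) (o : Option (Fin (s + 1))) (k : Fin s) :
    dl o (c.succAbove k) = dl (res c o) k := by
  unfold dl res
  by_cases h : ∃ k, o = some (c.succAbove k)
  · rw [dif_pos h]
    have hk := h.choose_spec
    by_cases h1 : o = some (c.succAbove k)
    · have h2 : h.choose = k :=
        (Fin.succAbove_right_injective (Option.some.inj (h1.symm.trans hk))).symm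
      rw [if_pos h1, if_pos (by rw [h2])]
    · rw [if_neg h1, if_neg]
      intro h2
      apply h1
      rw [hk, Option.some.inj h2]
  · rw [dif_neg h, if_neg, if_neg]
    · simp
    · intro h1
      exact h ⟨k, h1⟩

theorem Ext.res {s : ℕ} {r : Fin (s + 1) → ℤ} (h : Ext r) (c : Fin (s + 1)) :
    Ext (fun k => r (c.succAbove k)) := by
  obtain ⟨u, w, rfl⟩ := h
  refine ⟨Minor.res c u, Minor.res c w, ?_⟩
  funext k
  simp only [Pi.sub_apply, Pi.smul_apply, dl_res]

/-- The bound for the determinants. -/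
def Bd (s : ℕ) : Prop := ∀ N : Matrix (Fin s) (Fin s) ℤ, (∀ i, Ext (N i)) → |N.det| ≤ 2 ^ s

theorem single {s : ℕ} (hs : Bd s) (N : Matrix (Fin (s + 1)) (Fin (s + 1)) ℤ)
    (c i : Fin (s + 1)) (h0 : ∀ k, k ≠ i → N k c = 0) (hE : ∀ k, k ≠ i → Ext (N k)) :
    |N.det| ≤ |N i c| * 2 ^ s := by
  rw [Matrix.det_succ_column N c, Finset.sum_eq_single i]
  · rw [abs_mul, abs_mul, abs_pow, abs_neg, abs_one, one_pow, one_mul]
    refine mul_le_mul_of_nonneg_left (hs _ fun k => ?_) (abs_nonneg _)
    exact (hE (i.succAbove k) (Fin.succAbove_ne i k)).res c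
  · intro k _ hk
    rw [h0 k hk]
    ring
  · intro h
    exact absurd (Finset.mem_univ i) h

theorem upd_single {s : ℕ} (hs : Bd s) (N : Matrix (Fin (s + 1)) (Fin (s + 1)) ℤ)
    (c i j : Fin (s + 1)) (hij : i ≠ j) (h0 : ∀ k, k ≠ i → k ≠ j → N k c = 0)
    (hE : ∀ k, Ext (N k)) (r : Fin (s + 1) → ℤ) (hr : Ext r) (hr0 : r c = 0) :
    |(N.updateRow j r).det| ≤ |N i c| * 2 ^ s := by
  have h1 := single hs (N.updateRow j r) c i (by
    intro k hk
    by_cases hkj : k = j
    · rw [hkj, Matrix.updateRow_self]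
      exact hr0
    · rw [Matrix.updateRow_ne hkj]
      exact h0 k hk hkj) (by
    intro k hk
    by_cases hkj : k = j
    · rw [hkj, Matrix.updateRow_self]
      exact hr
    · rw [Matrix.updateRow_ne hkj]
      exact hE k)
  rwa [Matrix.updateRow_ne hij] at h1

theorem det_upd_comb {s : ℕ} (N : Matrix (Fin s) (Fin s) ℤ) (i j : Fin s) (hij : i ≠ j)
    (a b : ℤ) : (N.updateRow j (a • N j + b • N i)).det = a * N.det := by
  rw [Matrix.det_updateRow_add, Matrix.det_updateRow_smul, Matrix.det_updateRow_smul,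
    Matrix.updateRow_eq_self]
  have : (N.updateRow j (N i)).det = 0 := by
    refine Matrix.det_zero_of_row_eq hij ?_
    rw [Matrix.updateRow_ne hij, Matrix.updateRow_self]
  rw [this]
  ring

theorem case_ii {s : ℕ} (hs : Bd s) (N : Matrix (Fin (s + 1)) (Fin (s + 1)) ℤ)
    (c i j : Fin (s + 1)) (hij : i ≠ j) (h0 : ∀ k, k ≠ i → k ≠ j → N k c = 0)
    (hE : ∀ k, Ext (N k)) (w u : Option (Fin (s + 1))) (hw : w ≠ some c) (hu : u ≠ some c)
    (hi : N i = (2 : ℤ) • dl (some c) - dl w) (hj : N j = (2 : ℤ) • dl u - dl (some c)) :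
    |N.det| ≤ 2 ^ (s + 1) := by
  have hic : N i c = 2 := by
    rw [hi]
    simp [dl, hw]
  have e1 : (2 : ℤ) • N j + (1 : ℤ) • N i = ((2 : ℤ) • dl u - dl w) + (2 : ℤ) • dl u := by
    rw [hi, hj]
    funext k
    simp only [Pi.add_apply, Pi.sub_apply, Pi.smul_apply, smul_eq_mul]
    ring
  have e2 := det_upd_comb N i j hij 2 1
  rw [e1, Matrix.det_updateRow_add] at e2
  have b1 := upd_single hs N c i j hij h0 hE ((2 : ℤ) • dl u - dl w) (ext_mk _ _) (by simp [dl, hu, hw])
  have b2 := upd_single hs N c i j hij h0 hE ((2 : ℤ) • dl u) (ext_two _) (by simp [dl, hu])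
  rw [hic] at b1 b2
  have b3 := abs_add_le (N.updateRow j ((2 : ℤ) • dl u - dl w)).det (N.updateRow j ((2 : ℤ) • dl u)).det
  rw [e2, abs_mul] at b3
  have : |(2 : ℤ)| = 2 := by norm_num
  rw [this] at b1 b2 b3
  rw [pow_succ]
  linarith

theorem case_iii {s : ℕ} (hs : Bd s) (N : Matrix (Fin (s + 1)) (Fin (s + 1)) ℤ)
    (c i j : Fin (s + 1)) (hij : i ≠ j) (h0 : ∀ k, k ≠ i → k ≠ j → N k c = 0)
    (hE : ∀ k, Ext (N k)) (w v : Option (Fin (s + 1))) (hw : w ≠ some c) (hv : v ≠ some c)
    (hi : N i = (2 : ℤ) • dl (some c) - dl w) (hj : N j = (2 : ℤ) • dl (some c) - dl v) :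
    |N.det| ≤ 2 ^ (s + 1) := by
  have hic : N i c = 2 := by
    rw [hi]
    simp [dl, hw]
  have e1 : (2 : ℤ) • N j + (-2 : ℤ) • N i = ((2 : ℤ) • dl w - dl v) + (- dl v) := by
    rw [hi, hj]
    funext k
    simp only [Pi.add_apply, Pi.sub_apply, Pi.smul_apply, Pi.neg_apply, smul_eq_mul]
    ring
  have e2 := det_upd_comb N i j hij 2 (-2)
  rw [e1, Matrix.det_updateRow_add] at e2
  have b1 := upd_single hs N c i j hij h0 hE ((2 : ℤ) • dl w - dl v) (ext_mk _ _) (by simp [dl, hv, hw])
  have b2 := upd_single hs N c i j hij h0 hE (- dl v) (ext_neg _) (by simp [dl, hv])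
  rw [hic] at b1 b2
  have b3 := abs_add_le (N.updateRow j ((2 : ℤ) • dl w - dl v)).det (N.updateRow j (- dl v)).det
  rw [e2, abs_mul] at b3
  have : |(2 : ℤ)| = 2 := by norm_num
  rw [this] at b1 b2 b3
  rw [pow_succ]
  linarith

theorem case_iv {s : ℕ} (hs : Bd s) (N : Matrix (Fin (s + 1)) (Fin (s + 1)) ℤ)
    (c i j : Fin (s + 1)) (hij : i ≠ j) (h0 : ∀ k, k ≠ i → k ≠ j → N k c = 0)
    (hE : ∀ k, Ext (N k)) (u v : Option (Fin (s + 1))) (hu : u ≠ some c) (hv : v ≠ some c)
    (hi : N i = (2 : ℤ) • dl u - dl (some c)) (hj : N j = (2 : ℤ) • dl v - dl (some c)) :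
    |N.det| ≤ 2 ^ (s + 1) := by
  have hic : N i c = -1 := by
    rw [hi]
    simp [dl, hu]
  have e1 : (1 : ℤ) • N j + (-1 : ℤ) • N i = ((2 : ℤ) • dl v - dl u) + (- dl u) := by
    rw [hi, hj]
    funext k
    simp only [Pi.add_apply, Pi.sub_apply, Pi.smul_apply, Pi.neg_apply, smul_eq_mul]
    ring
  have e2 := det_upd_comb N i j hij 1 (-1)
  rw [e1, Matrix.det_updateRow_add, one_mul] at e2
  have b1 := upd_single hs N c i j hij h0 hE ((2 : ℤ) • dl v - dl u) (ext_mk _ _) (by simp [dl, hv, hu])
  have b2 := upd_single hs N c i j hij h0 hE (- dl u) (ext_neg _) (by simp [dl, hu])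
  rw [hic] at b1 b2
  have b3 := abs_add_le (N.updateRow j ((2 : ℤ) • dl v - dl u)).det (N.updateRow j (- dl u)).det
  rw [e2] at b3
  have : |(-1 : ℤ)| = 1 := by norm_num
  rw [this] at b1 b2
  rw [pow_succ]
  linarith

theorem exists_col {s : ℕ} (u w : Fin (s + 1) → Option (Fin (s + 1))) :
    ∃ c : Fin (s + 1), (univ.filter fun i => u i = some c).card +
      (univ.filter fun i => w i = some c).card ≤ 2 := by
  by_contra hcon
  push Not at hcon
  have key : ∀ u : Fin (s + 1) → Option (Fin (s + 1)),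
      ∑ c, (univ.filter fun i => u i = some c).card ≤ s + 1 := by
    intro u
    simp only [Finset.card_filter]
    rw [Finset.sum_comm]
    calc ∑ i, ∑ c, (if u i = some c then 1 else 0) ≤ ∑ _i : Fin (s + 1), 1 := by
          refine Finset.sum_le_sum fun i _ => ?_
          rcases h : u i with _ | d
          · simp
          · simp
      _ = s + 1 := by simp
  have h1 : ∑ _c : Fin (s + 1), 3 ≤ ∑ c, ((univ.filter fun i => u i = some c).card +
      (univ.filter fun i => w i = some c).card) := Finset.sum_le_sum fun c _ => hcon c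
  rw [Finset.sum_add_distrib] at h1
  have h2 := key u
  have h3 := key w
  simp at h1
  omega

theorem bd (s : ℕ) : Bd s := by
  induction s with
  | zero =>
    intro N _
    rw [Matrix.det_isEmpty]
    simp
  | succ s hs =>
    intro N hE
    choose u w huw using hE
    have hE : ∀ k, Ext (N k) := fun k => ⟨u k, w k, huw k⟩
    obtain ⟨c, hc⟩ := exists_col u w
    have hval : ∀ k, u k ≠ some c → w k ≠ some c → N k c = 0 := by
      intro k h1 h2
      rw [huw k]
      simp [dl, h1, h2]
    have habs : ∀ k, |N k c| ≤ 2 := by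
      intro k
      rw [huw k]
      simp only [Pi.sub_apply, Pi.smul_apply, dl]
      split_ifs <;> simp
    by_cases hone : ∀ i j, N i c ≠ 0 → N j c ≠ 0 → i = j
    · by_cases hz : ∃ i, N i c ≠ 0
      · obtain ⟨i, hi⟩ := hz
        have h1 := single hs N c i (fun k hk => by
          by_contra h
          exact hk (hone k i h hi)) (fun k _ => hE k)
        refine h1.trans ?_
        rw [pow_succ, mul_comm]
        exact mul_le_mul_of_nonneg_left (habs i) (by positivity)
      · push Not at hz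
        rw [Matrix.det_eq_zero_of_column_eq_zero c hz]
        simp
    · push Not at hone
      obtain ⟨i, j, hi, hj, hij⟩ := hone
      have hi' : u i = some c ∨ w i = some c := by
        by_contra h
        push Not at h
        exact hi (hval i h.1 h.2)
      have hj' : u j = some c ∨ w j = some c := by
        by_contra h
        push Not at h
        exact hj (hval j h.1 h.2)
      -- the incidences are exactly one at `i` and one at `j`
      have hcard : ∀ (a b : Finset (Fin (s + 1))), a.card + b.card ≤ 2 → (i ∈ a ∨ i ∈ b) →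
          (j ∈ a ∨ j ∈ b) → ((∀ k, k ≠ i → k ≠ j → k ∉ a ∧ k ∉ b) ∧ ¬ (i ∈ a ∧ i ∈ b) ∧
            ¬ (j ∈ a ∧ j ∈ b)) := by
        intro a b hab hia hja
        have hsub : ({i, j} : Finset (Fin (s + 1))) ⊆ a ∪ b := by
          intro k hk
          rw [Finset.mem_insert, Finset.mem_singleton] at hk
          rw [Finset.mem_union]
          rcases hk with rfl | rfl
          · exact hia
          · exact hja
        have h1 : (a ∪ b).card + (a ∩ b).card = a.card + b.card := Finset.card_union_add_card_inter a b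
        have h2 : ({i, j} : Finset (Fin (s + 1))).card = 2 := Finset.card_pair hij
        have h3 := Finset.card_le_card hsub
        have h4 : (a ∩ b).card = 0 := by omega
        have h5 : {i, j} = a ∪ b := Finset.eq_of_subset_of_card_le hsub (by omega)
        rw [Finset.card_eq_zero] at h4
        have h6 : ∀ k, ¬ (k ∈ a ∧ k ∈ b) := by
          intro k hk
          have : k ∈ a ∩ b := Finset.mem_inter.2 hk
          rw [h4] at this
          simp at this
        refine ⟨fun k hki hkj => ?_, h6 i, h6 j⟩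
        have h7 : k ∉ a ∪ b := by
          rw [← h5, Finset.mem_insert, Finset.mem_singleton]
          push Not
          exact ⟨hki, hkj⟩
        rw [Finset.mem_union] at h7
        push Not at h7
        exact h7
      obtain ⟨h1, h2, h3⟩ := hcard _ _ hc (by simpa using hi') (by simpa using hj')
      simp only [Finset.mem_filter, Finset.mem_univ, true_and] at h1 h2 h3
      have h0 : ∀ k, k ≠ i → k ≠ j → N k c = 0 := fun k hki hkj =>
        hval k (h1 k hki hkj).1 (h1 k hki hkj).2
      rcases hi' with hi' | hi' <;> rcases hj' with hj' | hj'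
      · exact case_iii hs N c i j hij h0 hE (w i) (w j) (fun h => h2 ⟨hi', h⟩)
          (fun h => h3 ⟨hj', h⟩) (by rw [huw i, hi']) (by rw [huw j, hj'])
      · exact case_ii hs N c i j hij h0 hE (w i) (u j) (fun h => h2 ⟨hi', h⟩)
          (fun h => h3 ⟨h, hj'⟩) (by rw [huw i, hi']) (by rw [huw j, hj'])
      · exact case_ii hs N c j i (Ne.symm hij) (fun k h4 h5 => h0 k h5 h4) hE (w j) (u i)
          (fun h => h3 ⟨hj', h⟩) (fun h => h2 ⟨h, hi'⟩) (by rw [huw j, hj']) (by rw [huw i, hi'])
      · exact case_iv hs N c i j hij h0 hE (u i) (u j) (fun h => h2 ⟨h, hi'⟩)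
          (fun h => h3 ⟨h, hj'⟩) (by rw [huw i, hi']) (by rw [huw j, hj'])

end Pool.Agent.V1125.Minor
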