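import Pool.Agent.V1125.PQModel

/-!
# Integers all of whose expansions in base `p / q` are long
-/

set_option autoImplicit false

namespace Pool.Agent.V1125.PQ

open Pool.Agent.V1125 Pool.Agent.V1125.BS

theorem dist1_int (z : ℤ) : dist1 (z : ℚ) = 0 := by
  rw [dist1, round_intCast, sub_self, abs_zero]

section

variable {p q : ℕ} {r : ℚ}

/-- The sum of the distances to the integers of the `p`-parts of `y r ^ {-j}`. -/
def psi (r : ℚ) (u : ℤ) (J : ℕ) (y : ℚ) : ℚ :=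
  ∑ j ∈ Finset.range J, dist1 ((u : ℚ) * (y * r ^ (-((j : ℤ) + 1))))

theorem psi_zero (u : ℤ) (J : ℕ) : psi r u J 0 = 0 := by
  unfold psi dist1
  simp

theorem psi_add (u : ℤ) (J : ℕ) (x y : ℚ) :
    psi r u J (x + y) ≤ psi r u J x + psi r u J y := by
  unfold psi
  rw [← Finset.sum_add_distrib]
  refine Finset.sum_le_sum fun j _ => ?_
  rw [add_mul, mul_add]
  exact dist1_add _ _

theorem psi_mul (u : ℤ) (J : ℕ) (a : ℤ) (x : ℚ) :
    psi r u J ((a : ℚ) * x) ≤ (a.natAbs : ℚ) * psi r u J x := by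
  unfold psi
  rw [Finset.mul_sum]
  refine Finset.sum_le_sum fun j _ => ?_
  have : (u : ℚ) * ((a : ℚ) * x * r ^ (-((j : ℤ) + 1))) =
      (a : ℚ) * ((u : ℚ) * (x * r ^ (-((j : ℤ) + 1)))) := by ring
  rw [this]
  exact dist1_mul _ _

/-- The term at a nonnegative exponent. -/
theorem dist1_nonneg_exp (hq : 0 < q) (hr : r = (p : ℚ) / q) {u : ℤ} {N : ℕ}
    (hu : ((q : ℤ) ^ N) ∣ u) (e : ℕ) (he : e ≤ N) : dist1 ((u : ℚ) * r ^ (e : ℤ)) = 0 := by
  have hq0 : (q : ℚ) ≠ 0 := by exact_mod_cast hq.ne'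
  obtain ⟨v, rfl⟩ := hu
  have : (((q : ℤ) ^ N * v : ℤ) : ℚ) * r ^ (e : ℤ) =
      (((q : ℤ) ^ (N - e) * v * (p : ℤ) ^ e : ℤ) : ℚ) := by
    have h1 : (q : ℚ) ^ N = (q : ℚ) ^ (N - e) * (q : ℚ) ^ e := by
      rw [← pow_add]
      congr 1
      omega
    push_cast
    rw [zpow_natCast, hr, div_pow, h1]
    field_simp
  rw [this, dist1_int]

/-- The term at a negative exponent, up to an integer. -/
theorem neg_exp (hp : 0 < p) (hr : r = (p : ℚ) / q) {u : ℤ} {N : ℕ}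
    (hu : ((p : ℤ) ^ N) ∣ u - 1) (x : ℤ) (e : ℕ) (he : e ≤ N) :
    ∃ z : ℤ, (u : ℚ) * ((x : ℚ) * r ^ (-(e : ℤ))) = (x : ℚ) * ((q : ℚ) ^ e / (p : ℚ) ^ e) + z := by
  have hp0 : (p : ℚ) ≠ 0 := by exact_mod_cast hp.ne'
  obtain ⟨v, hv⟩ := hu
  refine ⟨(p : ℤ) ^ (N - e) * v * (q : ℤ) ^ e * x, ?_⟩
  have h1 : (p : ℚ) ^ N = (p : ℚ) ^ (N - e) * (p : ℚ) ^ e := by
    rw [← pow_add]
    congr 1
    omega
  have h2 : (u : ℚ) = (p : ℚ) ^ N * v + 1 := by
    have : u = (p : ℤ) ^ N * v + 1 := by linarith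
    rw [this]
    push_cast
    ring
  have h3 : r ^ (-(e : ℤ)) = (q : ℚ) ^ e / (p : ℚ) ^ e := by
    rw [zpow_neg, zpow_natCast, hr, div_pow, inv_div]
  rw [h2, h1, h3]
  push_cast
  field_simp
  ring

theorem psi_zpow (hq : 0 < q) (hpq : q < p) (hr : r = (p : ℚ) / q) {u : ℤ} {N : ℕ}
    (hu1 : ((p : ℤ) ^ N) ∣ u - 1) (hu2 : ((q : ℤ) ^ N) ∣ u) (i : ℤ) (J : ℕ)
    (h1 : -(N : ℤ) ≤ i - J) (h2 : i ≤ N) : psi r u J (r ^ i) ≤ q := by
  have hq0 : (0 : ℚ) < q := by exact_mod_cast hq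
  have hp0 : (0 : ℚ) < p := by exact_mod_cast (by omega : 0 < p)
  have hr0 : 0 < r := by
    rw [hr]
    positivity
  have hqr : (q : ℚ) * r = p := by
    rw [hr]
    field_simp
  have hpq' : (q : ℚ) + 1 ≤ p := by exact_mod_cast hpq
  have hr1 : 1 ≤ r := by
    rw [hr, le_div_iff₀ hq0]
    linarith
  have key : psi r u J (r ^ i) + q * min 1 (r ^ (i - J)) ≤ q := by
    induction J with
    | zero =>
      have : min 1 (r ^ (i - ((0 : ℕ) : ℤ))) ≤ 1 := min_le_left _ _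
      simp only [psi, Finset.range_zero, Finset.sum_empty, zero_add]
      nlinarith
    | succ J ih =>
      have ih := ih (by push_cast at h1; omega)
      have e1 : psi r u (J + 1) (r ^ i) = psi r u J (r ^ i) +
          dist1 ((u : ℚ) * r ^ (i - ((J : ℤ) + 1))) := by
        unfold psi
        rw [Finset.sum_range_succ, ← zpow_add₀ hr0.ne', ← sub_eq_add_neg]
      rw [e1]
      have h8 : ((J + 1 : ℕ) : ℤ) = (J : ℤ) + 1 := by push_cast; ring
      rw [h8] at h1 ⊢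
      rcases le_or_gt ((J : ℤ) + 1) i with h | h
      · have e2 : dist1 ((u : ℚ) * r ^ (i - ((J : ℤ) + 1))) = 0 := by
          have := dist1_nonneg_exp hq hr hu2 (i - ((J : ℤ) + 1)).toNat (by omega)
          rwa [Int.toNat_of_nonneg (by omega)] at this
        have h4 : (1 : ℚ) ≤ r ^ (i - (J : ℤ)) := one_le_zpow₀ hr1 (by omega)
        rw [min_eq_left h4] at ih
        have h5 := min_le_left (1 : ℚ) (r ^ (i - ((J : ℤ) + 1)))
        rw [e2]
        nlinarith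
      · obtain ⟨e, he⟩ : ∃ e : ℕ, i - ((J : ℤ) + 1) = -(e : ℤ) :=
          ⟨(-(i - ((J : ℤ) + 1))).toNat, by omega⟩
        have heN : e ≤ N := by omega
        obtain ⟨z, hz⟩ := neg_exp (by omega : 0 < p) hr hu1 1 e heN
        have e2 : dist1 ((u : ℚ) * r ^ (i - ((J : ℤ) + 1))) ≤ r ^ (i - ((J : ℤ) + 1)) := by
          rw [he]
          have h3 : (u : ℚ) * r ^ (-(e : ℤ)) = r ^ (-(e : ℤ)) + z := by
            have h4 : r ^ (-(e : ℤ)) = (q : ℚ) ^ e / (p : ℚ) ^ e := by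
              rw [zpow_neg, zpow_natCast, hr, div_pow, inv_div]
            have h5 := hz
            rw [Int.cast_one, one_mul, one_mul] at h5
            rw [h5, h4]
          have h4 := dist1_le ((u : ℚ) * r ^ (-(e : ℤ))) z
          rw [h3, add_sub_cancel_right, abs_of_pos (zpow_pos hr0 _)] at h4
          rw [h3]
          exact h4
        have h3 : r ^ (i - (J : ℤ)) ≤ 1 := by
          have h4 : (1 : ℚ) ≤ r ^ ((J : ℤ) - i) := one_le_zpow₀ hr1 (by omega)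
          have h5 : r ^ (i - (J : ℤ)) = (r ^ ((J : ℤ) - i))⁻¹ := by
            rw [← zpow_neg]
            congr 1
            ring
          rw [h5]
          exact inv_le_one_of_one_le₀ h4
        rw [min_eq_right h3] at ih
        have h6 : r ^ (i - (J : ℤ)) = r ^ (i - ((J : ℤ) + 1)) * r := by
          rw [← zpow_add_one₀ hr0.ne']
          congr 1
          ring
        have h7 := min_le_right (1 : ℚ) (r ^ (i - ((J : ℤ) + 1)))
        have h9 := zpow_pos hr0 (i - ((J : ℤ) + 1))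
        have h10 : (q : ℚ) * (r ^ (i - ((J : ℤ) + 1)) * r) = p * r ^ (i - ((J : ℤ) + 1)) := by
          rw [← hqr]
          ring
        rw [h6, h10] at ih
        nlinarith
  have h3 : (0 : ℚ) ≤ min 1 (r ^ (i - J)) := le_min zero_le_one (zpow_pos hr0 _).le
  nlinarith

theorem psi_val_le (hq : 0 < q) (hpq : q < p) (hr : r = (p : ℚ) / q) {u : ℤ} {N : ℕ}
    (hu1 : ((p : ℤ) ^ N) ∣ u - 1) (hu2 : ((q : ℤ) ^ N) ∣ u) (J : ℕ) (c : ℤ →₀ ℤ)
    (hc : ∀ i, c i ≠ 0 → -(N : ℤ) ≤ i - J ∧ i ≤ N) : psi r u J (val r c) ≤ q * nrm c := by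
  unfold val nrm Finsupp.sum
  push_cast
  rw [Finset.mul_sum]
  refine (Finset.le_sum_of_subadditive (psi r u J) (psi_zero u J).le (psi_add u J) _ _).trans ?_
  refine Finset.sum_le_sum fun i hi => ?_
  refine (psi_mul u J _ _).trans ?_
  obtain ⟨h1, h2⟩ := hc i (Finsupp.mem_support_iff.1 hi)
  have := psi_zpow hq hpq hr hu1 hu2 i J h1 h2
  have h0 : (0 : ℚ) ≤ ((c i).natAbs : ℚ) := Nat.cast_nonneg _
  nlinarith

/-- Numbers all of whose signed digit expansions are long. -/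
theorem exists_long (hq : 0 < q) (hpq : q < p) (hcop : Nat.Coprime p q) (hr : r = (p : ℚ) / q)
    (J : ℕ) (hJ : 1 ≤ J) : ∃ x : ℕ, 1 ≤ x ∧ x ≤ p ^ J ∧
      ∀ c : ℤ →₀ ℤ, val r c = x → J ≤ 2 * p ^ 3 * nrm c := by
  have hp : 2 ≤ p := by omega
  have hq0 : (0 : ℚ) < q := by exact_mod_cast hq
  have hp0 : (0 : ℚ) < p := by exact_mod_cast (by omega : 0 < p)
  have hcop' : IsCoprime (p : ℤ) (q : ℤ) := Nat.isCoprime_iff_coprime.2 hcop
  have hsp : IsCoprime ((p : ℤ) + q) (p : ℤ) := by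
    have h := hcop'.symm
    have h2 := h.add_mul_right_left 1
    rw [one_mul, add_comm] at h2
    exact h2
  have hsq : IsCoprime ((p : ℤ) + q) (q : ℤ) := by
    have h2 := hcop'.add_mul_right_left 1
    rw [one_mul] at h2
    exact h2
  obtain ⟨x, b, hx1, hx2, hxb⟩ : ∃ (x : ℕ) (b : ℤ), 1 ≤ x ∧ x ≤ p ^ J ∧
      ((p : ℤ) + q) * x = 1 + (p : ℤ) ^ J * b := by
    obtain ⟨α, β, hαβ⟩ := hsp.pow_right (n := J)
    have hpJ : (1 : ℤ) < (p : ℤ) ^ J := by
      have : 1 < p ^ J := Nat.one_lt_pow (by omega) (by omega)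
      exact_mod_cast this
    have h1 := Int.emod_nonneg α (by omega : (p : ℤ) ^ J ≠ 0)
    have h2 := Int.emod_lt_of_pos α (by omega : (0 : ℤ) < (p : ℤ) ^ J)
    have h3 := Int.mul_ediv_add_emod α ((p : ℤ) ^ J)
    obtain ⟨x, hx⟩ := Int.eq_ofNat_of_zero_le h1
    have h4 : ((p : ℤ) + q) * x =
        1 + (p : ℤ) ^ J * (-β - ((p : ℤ) + q) * (α / (p : ℤ) ^ J)) := by
      rw [← hx]
      linear_combination ((p : ℤ) + q) * h3 + hαβ
    refine ⟨x, _, ?_, ?_, h4⟩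
    · by_contra h0
      have : x = 0 := by omega
      rw [this] at h4
      push_cast at h4
      rw [mul_zero] at h4
      have h5 : (p : ℤ) ^ J ∣ 1 := ⟨β + ((p : ℤ) + q) * (α / (p : ℤ) ^ J), by linarith⟩
      have h6 := Int.le_of_dvd one_pos h5
      omega
    · rw [hx] at h2
      have : x < p ^ J := by exact_mod_cast h2
      exact this.le
  refine ⟨x, hx1, hx2, fun c hc => ?_⟩
  -- choose the level
  obtain ⟨N, hN, hJN⟩ : ∃ N : ℕ, (∀ i, c i ≠ 0 → -(N : ℤ) ≤ i - J ∧ i ≤ N) ∧ J ≤ N := by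
    refine ⟨J + ∑ i ∈ c.support, i.natAbs, fun i hi => ?_, by omega⟩
    have := Finset.single_le_sum (f := fun i : ℤ => i.natAbs) (fun _ _ => Nat.zero_le _)
      (Finsupp.mem_support_iff.2 hi)
    push_cast
    have h2 : (i.natAbs : ℤ) ≤ ∑ i ∈ c.support, (i.natAbs : ℤ) := by exact_mod_cast this
    simp only [Int.natCast_natAbs] at h2
    have h3 := neg_abs_le i
    have h4 := le_abs_self i
    constructor <;> linarith
  obtain ⟨α, β, hαβ⟩ := (hcop'.pow_left (m := N)).pow_right (n := N)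
  have hu1 : ((p : ℤ) ^ N) ∣ β * (q : ℤ) ^ N - 1 := ⟨-α, by linarith⟩
  have hu2 : ((q : ℤ) ^ N) ∣ β * (q : ℤ) ^ N := ⟨β, by ring⟩
  have h1 := psi_val_le hq hpq hr hu1 hu2 J c hN
  rw [hc] at h1
  have h2 : ∀ j ∈ Finset.range J, (1 : ℚ) / (2 * p ^ 2) ≤
      dist1 (((β * (q : ℤ) ^ N : ℤ) : ℚ) * ((x : ℚ) * r ^ (-((j : ℤ) + 1)))) := by
    intro j hj
    rw [Finset.mem_range] at hj
    have hexp : -((j : ℤ) + 1) = -((j + 1 : ℕ) : ℤ) := by push_cast; ring
    obtain ⟨z, hz⟩ := neg_exp (by omega : 0 < p) hr hu1 (x : ℤ) (j + 1) (by omega)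
    rw [hexp]
    rw [Int.cast_natCast] at hz
    rw [hz]
    unfold dist1
    set y := (x : ℚ) * ((q : ℚ) ^ (j + 1) / (p : ℚ) ^ (j + 1)) + z with hy
    set w : ℤ := (q : ℤ) ^ (j + 1) * (p : ℤ) ^ (J - (j + 1)) * b -
      (round y - z) * ((p : ℤ) + q) with hw
    have hw0 : w ≠ 0 := by
      intro h0
      have h3 : ((p : ℤ) + q) ∣ (q : ℤ) ^ (j + 1) * ((p : ℤ) ^ (J - (j + 1)) * b) :=
        ⟨round y - z, by
          rw [hw] at h0
          linarith⟩
      have h4 := (hsq.pow_right (n := j + 1)).dvd_of_dvd_mul_left h3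
      have h5 := (hsp.pow_right (n := J - (j + 1))).dvd_of_dvd_mul_left h4
      obtain ⟨v, hv⟩ := h5
      have h6 : ((p : ℤ) + q) ∣ 1 := ⟨x - (p : ℤ) ^ J * v, by
        rw [hv] at hxb
        linear_combination -hxb⟩
      have h7 := Int.le_of_dvd one_pos h6
      omega
    have hpj : (0 : ℚ) < (p : ℚ) ^ (j + 1) := by positivity
    have hpJ : (p : ℚ) ^ J = (p : ℚ) ^ (J - (j + 1)) * (p : ℚ) ^ (j + 1) := by
      rw [← pow_add]
      congr 1
      omega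
    have hxbq : ((p : ℚ) + q) * x = 1 + (p : ℚ) ^ J * b := by exact_mod_cast hxb
    have hwq : (w : ℚ) = (q : ℚ) ^ (j + 1) * (p : ℚ) ^ (J - (j + 1)) * b -
        (round y - z) * ((p : ℚ) + q) := by
      rw [hw]
      push_cast
      ring
    have hmain : ((p : ℚ) + q) * (p : ℚ) ^ (j + 1) * (y - round y) =
        (p : ℚ) ^ (j + 1) * w + (q : ℚ) ^ (j + 1) := by
      have h3 : ((p : ℚ) + q) * (p : ℚ) ^ (j + 1) * (y - round y) =
          ((p : ℚ) + q) * x * (q : ℚ) ^ (j + 1) -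
            (round y - z) * ((p : ℚ) + q) * (p : ℚ) ^ (j + 1) := by
        conv_lhs => rw [show y - (round y : ℚ) =
          (x : ℚ) * ((q : ℚ) ^ (j + 1) / (p : ℚ) ^ (j + 1)) - (round y - z) by rw [hy]; ring]
        field_simp
      rw [h3, hwq, hxbq, hpJ]
      ring
    have hw1 : (1 : ℚ) ≤ |(w : ℚ)| := by
      have := Int.one_le_abs hw0
      exact_mod_cast this
    have habs : (p : ℚ) ^ (j + 1) - (q : ℚ) ^ (j + 1) ≤
        |(p : ℚ) ^ (j + 1) * w + (q : ℚ) ^ (j + 1)| := by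
      have h8 : |(p : ℚ) ^ (j + 1) * w| ≤ |(p : ℚ) ^ (j + 1) * w + (q : ℚ) ^ (j + 1)| +
          |(q : ℚ) ^ (j + 1)| := by
        have := abs_sub_abs_le_abs_sub ((p : ℚ) ^ (j + 1) * w) (-((q : ℚ) ^ (j + 1)))
        rw [abs_neg, sub_neg_eq_add] at this
        linarith
      rw [abs_mul, abs_of_pos hpj, abs_of_pos (by positivity : (0 : ℚ) < (q : ℚ) ^ (j + 1))] at h8
      nlinarith
    have hdiff : (p : ℚ) ^ j ≤ (p : ℚ) ^ (j + 1) - (q : ℚ) ^ (j + 1) := by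
      have h9 : (q : ℚ) ^ (j + 1) ≤ (p : ℚ) ^ j * q := by
        rw [pow_succ]
        refine mul_le_mul_of_nonneg_right ?_ hq0.le
        exact pow_le_pow_left₀ hq0.le (by exact_mod_cast hpq.le) j
      have h10 : (q : ℚ) + 1 ≤ p := by exact_mod_cast hpq
      have h11 : (0 : ℚ) < (p : ℚ) ^ j := by positivity
      rw [pow_succ (p : ℚ)]
      nlinarith
    rw [← hmain, abs_mul, abs_of_pos (by positivity : (0 : ℚ) < ((p : ℚ) + q) *
      (p : ℚ) ^ (j + 1))] at habs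
    rw [div_le_iff₀ (by positivity)]
    have h12 : (p : ℚ) ^ j * 1 ≤ (p : ℚ) ^ j * (|y - round y| * (2 * p ^ 2)) := by
      have h13 : ((p : ℚ) + q) * (p : ℚ) ^ (j + 1) * |y - round y| ≤
          (2 * p) * (p : ℚ) ^ (j + 1) * |y - round y| := by
        refine mul_le_mul_of_nonneg_right (mul_le_mul_of_nonneg_right ?_ hpj.le) (abs_nonneg _)
        have : (q : ℚ) ≤ p := by exact_mod_cast hpq.le
        linarith
      rw [pow_succ (p : ℚ) j] at h13 habs hdiff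
      nlinarith
    exact le_of_mul_le_mul_left h12 (by positivity)
  have h3 : (J : ℚ) * (1 / (2 * p ^ 2)) ≤ psi r (β * (q : ℤ) ^ N) J x := by
    have := Finset.card_nsmul_le_sum (Finset.range J) _ _ h2
    rw [Finset.card_range, nsmul_eq_mul] at this
    exact this
  have h4 : (J : ℚ) * (1 / (2 * p ^ 2)) ≤ q * nrm c := h3.trans h1
  have h5 : (J : ℚ) ≤ 2 * p ^ 3 * nrm c := by
    have h6 : (J : ℚ) * (1 / (2 * p ^ 2)) * (2 * p ^ 2) = J := by
      field_simp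
    have h7 : (q : ℚ) * nrm c ≤ p * nrm c :=
      mul_le_mul_of_nonneg_right (by exact_mod_cast hpq.le) (Nat.cast_nonneg _)
    calc (J : ℚ) = (J : ℚ) * (1 / (2 * p ^ 2)) * (2 * p ^ 2) := h6.symm
      _ ≤ (p * nrm c) * (2 * p ^ 2) := mul_le_mul_of_nonneg_right (h4.trans h7) (by positivity)
      _ = 2 * p ^ 3 * nrm c := by ring
  exact_mod_cast h5

end

end Pool.Agent.V1125.PQ
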