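import Pool.Agent.V1125.PQMain

/-!
# Unbounded retreat depth in the groups `G_{p,q}`: the record argument
-/

set_option autoImplicit false

namespace Pool.Agent.V1125.PQ.Model

open Pool.Agent.V1125 Pool.Agent.V1125.BS Pool.Agent.V1125.PQ

universe u

variable {p q : ℕ} {r : ℚ} {G : Type u} [Group G] {a t : G} (M : Model r G a t)

include M in
/-- Powers of `p` are almost as short as powers of `q`. -/
theorem len_pow (hq : 0 < q) (hpq : q < p) (hr : r = (p : ℚ) / q) (j : ℕ) :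
    wordLen {a, t} (a ^ ((p ^ j : ℕ) : ℤ)) ≤ wordLen {a, t} (a ^ ((q ^ j : ℕ) : ℤ)) + 2 * j := by
  have hq0 : (q : ℚ) ≠ 0 := by exact_mod_cast hq.ne'
  have hp0 : (p : ℚ) ≠ 0 := by exact_mod_cast (by omega : p ≠ 0)
  have hr0 : r ≠ 0 := by
    rw [hr]
    exact div_ne_zero hp0 hq0
  have h : a ^ ((p ^ j : ℕ) : ℤ) = t ^ j * a ^ ((q ^ j : ℕ) : ℤ) * (t ^ j)⁻¹ := by
    have hK : M.K (t ^ j) = j := by
      have := M.K_t_zpow j
      rwa [zpow_natCast] at this
    have hX : M.X (t ^ j) = 0 := by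
      have := M.X_t_zpow hr0 j
      rwa [zpow_natCast] at this
    have hX' : M.X (t ^ j)⁻¹ = 0 := by
      have := M.X_t_zpow hr0 (-(j : ℤ))
      rwa [zpow_neg, zpow_natCast] at this
    apply M.inj
    · rw [M.X_mul, M.X_mul, M.X_a_zpow, M.X_a_zpow, hX, hX', hK]
      rw [zpow_natCast]
      have : r ^ j * (q : ℚ) ^ j = (p : ℚ) ^ j := by
        rw [hr, div_pow]
        field_simp
      push_cast
      rw [this]
      ring
    · rw [M.K_mul, M.K_mul, M.K_a_zpow, M.K_a_zpow, M.K_inv, hK]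
      ring
  rw [h]
  have h1 : wordLen {a, t} (t ^ j) ≤ j := by
    refine (wordLen_pow_le (M.mem_closure t) j).trans ?_
    have := wordLen_le (S := {a, t}) [t] (by simp)
    simp at this
    nlinarith
  have h2 := wordLen_mul_le (M.mem_closure (t ^ j * a ^ ((q ^ j : ℕ) : ℤ)))
    (M.mem_closure (t ^ j)⁻¹)
  have h3 := wordLen_mul_le (M.mem_closure (t ^ j)) (M.mem_closure (a ^ ((q ^ j : ℕ) : ℤ)))
  rw [wordLen_inv (M.mem_closure _)] at h2
  omega

include M in
/-- Long elements at every scale. -/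
theorem len_long (hq : 0 < q) (hpq : q < p) (hcop : Nat.Coprime p q) (hr : r = (p : ℚ) / q)
    (J : ℕ) (hJ : 1 ≤ J) : ∃ x : ℕ, 1 ≤ x ∧ x ≤ p ^ J ∧
      (J : ℝ) / (2 * p ^ 3) + 2 * (Real.log x - Real.log (3 * p ^ 2)) / Real.log (r : ℝ) ≤
        wordLen {a, t} (a ^ (x : ℤ)) := by
  have hq0 : (0 : ℝ) < q := by exact_mod_cast hq
  have hp0 : (0 : ℝ) < p := by exact_mod_cast (by omega : 0 < p)
  have hrR : (r : ℝ) = (p : ℝ) / q := by rw [hr]; push_cast; rfl
  have hr1 : (1 : ℝ) < (r : ℝ) := by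
    rw [hrR, one_lt_div hq0]
    exact_mod_cast hpq
  have hlog : 0 < Real.log (r : ℝ) := Real.log_pos hr1
  obtain ⟨x, hx1, hx2, hx3⟩ := exists_long hq hpq hcop hr J hJ
  refine ⟨x, hx1, hx2, ?_⟩
  have hx0 : (0 : ℝ) < x := by exact_mod_cast (by omega : 0 < x)
  obtain ⟨c, lo, hi, hrep, hcost⟩ := M.rep_len (a ^ (x : ℤ))
  have hX : M.X (a ^ (x : ℤ)) = (x : ℚ) := by
    rw [M.X_a_zpow]
    rfl
  have hhi := M.le_hi hq hpq hr hrep hcost
  have h1 := hx3 c (by rw [hrep.val, hX])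
  rw [hX, abs_of_nonneg (Nat.cast_nonneg _)] at hhi
  have h2 : (x : ℝ) ≤ 3 * (p : ℝ) ^ 2 * (r : ℝ) ^ hi := by exact_mod_cast hhi
  have h3 : Real.log x ≤ Real.log (3 * (p : ℝ) ^ 2) + hi * Real.log (r : ℝ) := by
    have h4 := Real.log_le_log hx0 h2
    rwa [Real.log_mul (by positivity) (zpow_pos (by linarith) _).ne', Real.log_zpow] at h4
  have h4 : (Real.log x - Real.log (3 * (p : ℝ) ^ 2)) / Real.log (r : ℝ) ≤ hi := by
    rw [div_le_iff₀ hlog]
    linarith
  have h5 : (J : ℝ) / (2 * p ^ 3) ≤ nrm c := by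
    rw [div_le_iff₀ (by positivity)]
    have : (J : ℝ) ≤ 2 * p ^ 3 * nrm c := by exact_mod_cast h1
    linarith
  have h6 : (nrm c : ℝ) + 2 * hi ≤ wordLen {a, t} (a ^ (x : ℤ)) := by
    unfold cost at hcost
    rw [M.K_a_zpow, abs_zero] at hcost
    have h7 := hrep.lo0
    have h8 : (nrm c : ℤ) + 2 * hi ≤ wordLen {a, t} (a ^ (x : ℤ)) := by omega
    exact_mod_cast h8
  have h7 : 2 * (Real.log x - Real.log (3 * (p : ℝ) ^ 2)) / Real.log (r : ℝ) =
      2 * ((Real.log x - Real.log (3 * (p : ℝ) ^ 2)) / Real.log (r : ℝ)) := by ring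
  rw [h7]
  linarith

include M in
/-- There are large powers of `p` that are shorter, by any given amount, than some smaller
integer. -/
theorem exists_drop (hq : 0 < q) (hpq : q < p) (hcop : Nat.Coprime p q) (hr : r = (p : ℚ) / q)
    (C : ℕ) : ∃ T x : ℕ, 1 ≤ x ∧ x ≤ T ∧
      wordLen {a, t} (a ^ (T : ℤ)) + C ≤ wordLen {a, t} (a ^ (x : ℤ)) := by
  have hq0 : (0 : ℝ) < q := by exact_mod_cast hq
  have hp0 : (0 : ℝ) < p := by exact_mod_cast (by omega : 0 < p)
  have hp2 : 2 ≤ p := by omega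
  have hrR : (r : ℝ) = (p : ℝ) / q := by rw [hr]; push_cast; rfl
  have hr1 : (1 : ℝ) < (r : ℝ) := by
    rw [hrR, one_lt_div hq0]
    exact_mod_cast hpq
  set L := Real.log (r : ℝ) with hL
  have hLpos : 0 < L := Real.log_pos hr1
  have hLeq : L = Real.log p - Real.log q := by
    rw [hL, hrR, Real.log_div hp0.ne' hq0.ne']
  have hlogp : 0 < Real.log (p : ℝ) := Real.log_pos (by exact_mod_cast (by omega : 1 < p))
  set F : ℕ → ℝ := fun n => (wordLen {a, t} (a ^ (n : ℤ)) : ℝ) with hF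
  set δ : ℝ := L / (4 * p ^ 3 * Real.log p) with hδ
  have hδpos : 0 < δ := by positivity
  set lam : ℝ := (2 + δ) / L with hlam
  have hlamL : lam * L = 2 + δ := by
    rw [hlam]
    field_simp
  have hlampos : 0 < lam := by positivity
  set Φ : ℕ → ℝ := fun n => F n - lam * Real.log n with hΦ
  -- `Φ` is unbounded
  have hunb : ∀ S : ℝ, ∃ x : ℕ, 1 ≤ x ∧ S < Φ x := by
    intro S
    obtain ⟨J, hJ⟩ := exists_nat_gt ((S + 2 * Real.log (3 * p ^ 2) / L) * (4 * p ^ 3))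
    obtain ⟨x, hx1, hx2, hx3⟩ := M.len_long hq hpq hcop hr (J + 1) (by omega)
    refine ⟨x, hx1, ?_⟩
    have hx0 : (0 : ℝ) < x := by exact_mod_cast (by omega : 0 < x)
    have hxlog : Real.log x ≤ ((J + 1 : ℕ) : ℝ) * Real.log p := by
      have h1 : (x : ℝ) ≤ (p : ℝ) ^ (J + 1) := by exact_mod_cast hx2
      have h2 := Real.log_le_log hx0 h1
      rwa [Real.log_pow] at h2
    have h1 : Φ x ≥ ((J + 1 : ℕ) : ℝ) / (2 * p ^ 3) - 2 * Real.log (3 * p ^ 2) / L -
        δ / L * Real.log x := by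
      show Φ x ≥ _
      have h2 : lam * Real.log x = 2 * Real.log x / L + δ / L * Real.log x := by
        rw [hlam]
        ring
      have h3 : 2 * (Real.log x - Real.log (3 * p ^ 2)) / L =
          2 * Real.log x / L - 2 * Real.log (3 * p ^ 2) / L := by ring
      rw [← hL, h3] at hx3
      simp only [hΦ, hF]
      rw [h2]
      linarith
    have h2 : δ / L * Real.log x ≤ ((J + 1 : ℕ) : ℝ) / (4 * p ^ 3) := by
      have h3 : δ / L = 1 / (4 * p ^ 3 * Real.log p) := by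
        rw [hδ]
        field_simp
      rw [h3]
      calc 1 / (4 * (p : ℝ) ^ 3 * Real.log p) * Real.log x
          ≤ 1 / (4 * (p : ℝ) ^ 3 * Real.log p) * (((J + 1 : ℕ) : ℝ) * Real.log p) :=
            mul_le_mul_of_nonneg_left hxlog (by positivity)
        _ = ((J + 1 : ℕ) : ℝ) / (4 * p ^ 3) := by field_simp
    have h3 : ((J + 1 : ℕ) : ℝ) / (2 * p ^ 3) - ((J + 1 : ℕ) : ℝ) / (4 * p ^ 3) =
        ((J + 1 : ℕ) : ℝ) / (4 * p ^ 3) := by
      field_simp
      ring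
    have h4 : S + 2 * Real.log (3 * p ^ 2) / L < ((J + 1 : ℕ) : ℝ) / (4 * p ^ 3) := by
      rw [lt_div_iff₀ (by positivity)]
      push_cast
      linarith
    linarith
  -- a large exponent
  obtain ⟨j₁, hj₁⟩ := pow_unbounded_of_one_lt (p : ℝ) hr1
  obtain ⟨j₂, hj₂⟩ := exists_nat_gt ((C + lam * Real.log p) / δ)
  set j₀ := max j₁ j₂ with hj₀
  -- a record beyond `p ^ j₀`
  obtain ⟨x, hx1, hxB, hxrec⟩ : ∃ x : ℕ, 1 ≤ x ∧ p ^ j₀ < x ∧ ∀ y, 1 ≤ y → y ≤ x → Φ y ≤ Φ x := by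
    obtain ⟨y₀, -, hy₀⟩ := Finset.exists_max_image (Finset.Icc 1 (p ^ j₀)) Φ
      ⟨1, by simp only [Finset.mem_Icc]; exact ⟨le_rfl, Nat.one_le_pow _ _ (by omega)⟩⟩
    obtain ⟨x₁, hx₁, hx₁'⟩ := hunb (Φ y₀)
    obtain ⟨x, hx, hxmax⟩ := Finset.exists_max_image (Finset.Icc 1 x₁) Φ
      ⟨1, by simp only [Finset.mem_Icc]; exact ⟨le_rfl, hx₁⟩⟩
    rw [Finset.mem_Icc] at hx
    refine ⟨x, hx.1, ?_, fun y h1 h2 => hxmax y (Finset.mem_Icc.2 ⟨h1, h2.trans hx.2⟩)⟩
    by_contra hle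
    push Not at hle
    have h1 := hy₀ x (Finset.mem_Icc.2 ⟨hx.1, hle⟩)
    have h2 := hxmax x₁ (Finset.mem_Icc.2 ⟨hx₁, le_rfl⟩)
    linarith
  set j := Nat.clog p x with hj
  have hxj : x ≤ p ^ j := Nat.le_pow_clog (by omega) x
  have hx2 : 1 < x := lt_of_le_of_lt (Nat.one_le_pow _ _ (by omega)) hxB
  have hxj' : p ^ (j - 1) < x := Nat.pow_pred_clog_lt_self (by omega) hx2
  have hjj₀ : j₀ < j := by
    by_contra hle
    push Not at hle
    have := Nat.pow_le_pow_right (by omega : 0 < p) hle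
    omega
  refine ⟨p ^ j, x, hx1, hxj, ?_⟩
  -- `q ^ j ≤ x`
  have hqj : q ^ j ≤ x := by
    have h1 : (p : ℝ) ≤ (r : ℝ) ^ j := by
      refine hj₁.le.trans (pow_le_pow_right₀ hr1.le ?_)
      have := le_max_left j₁ j₂
      omega
    have h2 : (q : ℝ) ^ j ≤ (p : ℝ) ^ (j - 1) := by
      rw [hrR, div_pow, le_div_iff₀ (by positivity)] at h1
      have h3 : (p : ℝ) ^ j = (p : ℝ) ^ (j - 1) * p := by
        rw [← pow_succ]
        congr 1
        omega
      rw [h3] at h1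
      nlinarith
    have h3 : q ^ j ≤ p ^ (j - 1) := by exact_mod_cast h2
    omega
  have h1 : Φ (q ^ j) ≤ Φ x := hxrec _ (Nat.one_le_pow _ _ hq) hqj
  have h2 : F (p ^ j) ≤ F (q ^ j) + 2 * j := by
    simp only [hF]
    exact_mod_cast M.len_pow hq hpq hr j
  have h3 : F (q ^ j) = Φ (q ^ j) + lam * (j * Real.log q) := by
    simp only [hΦ]
    push_cast
    rw [Real.log_pow]
    ring
  have h4 : F x = Φ x + lam * Real.log x := by
    simp only [hΦ]
    ring
  have h5 : ((j : ℝ) - 1) * Real.log p ≤ Real.log x := by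
    have h6 : (p : ℝ) ^ (j - 1) ≤ x := by exact_mod_cast hxj'.le
    have h7 := Real.log_le_log (by positivity) h6
    rw [Real.log_pow] at h7
    have h8 : ((j - 1 : ℕ) : ℝ) = (j : ℝ) - 1 := by
      rw [Nat.cast_sub (by omega)]
      simp
    rwa [h8] at h7
  have h6 : lam * (((j : ℝ) - 1) * Real.log p) ≤ lam * Real.log x :=
    mul_le_mul_of_nonneg_left h5 hlampos.le
  have h7 : lam * (((j : ℝ) - 1) * Real.log p) - lam * (j * Real.log q) - 2 * j =
      j * δ - lam * Real.log p := by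
    have h8 : lam * (((j : ℝ) - 1) * Real.log p) - lam * (j * Real.log q) =
        j * (lam * L) - lam * Real.log p := by
      rw [hLeq]
      ring
    rw [h8, hlamL]
    ring
  have h8 : (C : ℝ) + lam * Real.log p ≤ j * δ := by
    have h9 : (C + lam * Real.log p) / δ ≤ j := by
      refine hj₂.le.trans ?_
      have h10 : j₂ ≤ j := by
        have := le_max_right j₁ j₂
        omega
      exact_mod_cast h10
    rwa [div_le_iff₀ hδpos] at h9
  have h9 : F (p ^ j) + C ≤ F x := by linarith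
  simp only [hF] at h9
  exact_mod_cast h9

include M in
theorem infinite : Infinite G := by
  refine Infinite.of_injective (fun n : ℤ => a ^ n) fun i j hij => ?_
  have h1 := M.X_a_zpow i
  have h2 := M.X_a_zpow j
  have h3 : a ^ i = a ^ j := hij
  rw [h3, h2] at h1
  exact_mod_cast h1.symm

include M in
/-- The retreat depth is unbounded. -/
theorem unbounded (hq : 0 < q) (hpq : q < p) (hcop : Nat.Coprime p q) (hr : r = (p : ℚ) / q)
    (D : ℕ) : ∃ g : G, D ≤ retreatDepth {a, t} g := by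
  have hp : 0 < p := by omega
  have hq0 : (0 : ℚ) < q := by exact_mod_cast hq
  have hr1 : 1 < r := by
    rw [hr, one_lt_div hq0]
    exact_mod_cast hpq
  -- bounds for the finitely many small elements
  obtain ⟨C₁, hC₁⟩ := ((M.finite_region hp hq (D + 1)
    (3 * (p : ℚ) ^ 2 * r ^ ((D + 1 : ℕ) : ℤ) + 1)).image (wordLen {a, t})).bddAbove
  obtain ⟨C₂, hC₂⟩ := ((M.finite_region hp hq (D + 1)
    (r ^ ((D + 1 : ℕ) : ℤ))).image (wordLen {a, t})).bddAbove
  obtain ⟨T, x, hx1, hxT, hdrop⟩ := M.exists_drop hq hpq hcop hr (C₁ + C₂ + D)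
  have hg₀ : a ^ (x : ℤ) ∈ M.region p q (D + 1) (T : ℚ) := by
    refine ⟨by rw [M.K_a_zpow]; omega, by rw [M.K_a_zpow]; omega, ?_, ?_⟩
    · rw [M.X_a_zpow]
      exact lat_int _ _
    · rw [M.X_a_zpow, Int.cast_natCast, abs_of_nonneg (Nat.cast_nonneg _)]
      exact_mod_cast hxT
  have hfin := M.finite_region hp hq (D + 1) (T : ℚ)
  obtain ⟨g, hg, hmax⟩ := Set.exists_max_image _ (wordLen {a, t}) hfin ⟨_, hg₀⟩
  have hinf := M.infinite
  refine ⟨g, le_retreatDepth hfin hg ?_ (exists_infinite_comp M.gen g)⟩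
  intro h hh s hs hxs
  have hT1 : (1 : ℚ) ≤ T := by exact_mod_cast hx1.trans hxT
  have hmax₀ := hmax _ hg₀
  have hwall : (|M.K h| = ((D + 1 : ℕ) : ℤ)) → wordLen {a, t} h + D ≤ wordLen {a, t} g := by
    intro hK
    by_cases hbig : 3 * (p : ℚ) ^ 2 * r ^ ((D + 1 : ℕ) : ℤ) + 1 ≤ |M.X h|
    · obtain ⟨g', hg', h1⟩ := M.wall hq hpq hcop hr hT1 hh hbig
      have h2 := hmax g' hg'
      rw [hK] at h1
      omega
    · push Not at hbig
      have h1 : wordLen {a, t} h ≤ C₁ := hC₁ ⟨h, ⟨hh.1, hh.2.1, hh.2.2.1, hbig.le⟩, rfl⟩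
      omega
  have hcross : ∀ b : ℤ, b.natAbs = 1 → (T : ℚ) < |M.X h + b * r ^ (M.K h)| →
      wordLen {a, t} h + D ≤ wordLen {a, t} g := by
    intro b hb hlt
    have h1 := M.cross hr1.le (C := C₂) (fun g hg => hC₂ ⟨g, hg, rfl⟩) hh hb hlt
    omega
  obtain ⟨h1, h2, h3, h4⟩ := hh
  have hlat : Lat p q (D + 1) (r ^ (M.K h)) := by
    have := lat_zpow hp hq hr (W := D + 1) 1 h1 h2
    simpa using this
  rcases letter hs with rfl | rfl | rfl | rfl
  · refine hcross 1 rfl ?_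
    by_contra hcon
    push Not at hcon
    apply hxs
    refine ⟨by rw [M.K_a]; exact h1, by rw [M.K_a]; exact h2, ?_, ?_⟩
    · rw [M.X_a]
      exact h3.add hlat
    · rw [M.X_a]
      simpa using hcon
  · refine hcross (-1) rfl ?_
    by_contra hcon
    push Not at hcon
    apply hxs
    refine ⟨by rw [M.K_a_inv]; exact h1, by rw [M.K_a_inv]; exact h2, ?_, ?_⟩
    · rw [M.X_a_inv]
      exact h3.sub hlat
    · rw [M.X_a_inv]
      simpa [sub_eq_add_neg] using hcon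
  · refine hwall ?_
    by_contra hcon
    apply hxs
    refine ⟨by rw [M.K_t]; omega, ?_, by rw [M.X_t]; exact h3, by rw [M.X_t]; exact h4⟩
    rw [M.K_t]
    by_contra hlt
    push Not at hlt
    apply hcon
    rw [abs_of_nonneg (by omega)]
    omega
  · refine hwall ?_
    by_contra hcon
    apply hxs
    refine ⟨?_, by rw [M.K_t_inv]; omega, by rw [M.X_t_inv]; exact h3, by rw [M.X_t_inv]; exact h4⟩
    rw [M.K_t_inv]
    by_contra hlt
    push Not at hlt
    apply hcon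
    rw [abs_of_nonpos (by omega)]
    omega

end Pool.Agent.V1125.PQ.Model
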