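import Pool.Agent.V1125.PQDigits

/-!
# Unbounded retreat depth in the groups `G_{p,q}`
-/

set_option autoImplicit false

namespace Pool.Agent.V1125.PQ

open Pool.Agent.V1125 Pool.Agent.V1125.BS

universe u

/-! ## Lattices -/

/-- The lattice `(p q) ^ {-W} ℤ`. -/
def Lat (p q W : ℕ) (x : ℚ) : Prop := ∃ z : ℤ, x * ((p : ℚ) ^ W * (q : ℚ) ^ W) = z

/-- The union over `N` of the lattices `p ^ {-V} q ^ {-N} ℤ`. -/
def LatP (p q V : ℕ) (x : ℚ) : Prop := ∃ (z : ℤ) (N : ℕ), x * ((p : ℚ) ^ V * (q : ℚ) ^ N) = z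

variable {p q : ℕ}

theorem Lat.add {W : ℕ} {x y : ℚ} (hx : Lat p q W x) (hy : Lat p q W y) : Lat p q W (x + y) := by
  obtain ⟨z, hz⟩ := hx
  obtain ⟨w, hw⟩ := hy
  exact ⟨z + w, by push_cast; rw [add_mul, hz, hw]⟩

theorem Lat.neg {W : ℕ} {x : ℚ} (hx : Lat p q W x) : Lat p q W (-x) := by
  obtain ⟨z, hz⟩ := hx
  exact ⟨-z, by push_cast; rw [neg_mul, hz]⟩

theorem Lat.sub {W : ℕ} {x y : ℚ} (hx : Lat p q W x) (hy : Lat p q W y) : Lat p q W (x - y) := by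
  rw [sub_eq_add_neg]
  exact hx.add hy.neg

theorem lat_int (W : ℕ) (z : ℤ) : Lat p q W (z : ℚ) :=
  ⟨z * ((p : ℤ) ^ W * (q : ℤ) ^ W), by push_cast; ring⟩

theorem lat_zpow {r : ℚ} (hp : 0 < p) (hq : 0 < q) (hr : r = (p : ℚ) / q) {W : ℕ} (b : ℤ) {i : ℤ}
    (h1 : -(W : ℤ) ≤ i) (h2 : i ≤ W) : Lat p q W ((b : ℚ) * r ^ i) := by
  have hq0 : (q : ℚ) ≠ 0 := by exact_mod_cast hq.ne'
  have hp0 : (p : ℚ) ≠ 0 := by exact_mod_cast hp.ne'
  have e1 : (p : ℚ) ^ W = (p : ℚ) ^ (W : ℤ) := (zpow_natCast _ _).symm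
  have e2 : (q : ℚ) ^ W = (q : ℚ) ^ (W : ℤ) := (zpow_natCast _ _).symm
  refine ⟨b * ((p : ℤ) ^ (W + i).toNat * (q : ℤ) ^ (W - i).toNat), ?_⟩
  push_cast
  have e3 : (p : ℚ) ^ (W + i).toNat = (p : ℚ) ^ (W : ℤ) * (p : ℚ) ^ i := by
    rw [← zpow_natCast, ← zpow_add₀ hp0]
    congr 1
    omega
  have e4 : (q : ℚ) ^ (W - i).toNat = (q : ℚ) ^ (W : ℤ) * ((q : ℚ) ^ i)⁻¹ := by
    rw [← zpow_natCast, ← zpow_neg, ← zpow_add₀ hq0]
    congr 1
    omega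
  rw [e1, e2, e3, e4, hr, div_zpow]
  field_simp

theorem LatP.add {V : ℕ} {x y : ℚ} (hx : LatP p q V x) (hy : LatP p q V y) :
    LatP p q V (x + y) := by
  obtain ⟨z, N, hz⟩ := hx
  obtain ⟨w, N', hw⟩ := hy
  refine ⟨z * (q : ℤ) ^ N' + w * (q : ℤ) ^ N, N + N', ?_⟩
  push_cast
  rw [← hz, ← hw, pow_add]
  ring

theorem LatP.neg {V : ℕ} {x : ℚ} (hx : LatP p q V x) : LatP p q V (-x) := by
  obtain ⟨z, N, hz⟩ := hx
  exact ⟨-z, N, by push_cast; rw [neg_mul, hz]⟩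

theorem latP_zpow {r : ℚ} (hp : 0 < p) (hq : 0 < q) (hr : r = (p : ℚ) / q) {V : ℕ} (b : ℤ) {i : ℤ}
    (h1 : -(V : ℤ) ≤ i) : LatP p q V ((b : ℚ) * r ^ i) := by
  have hq0 : (q : ℚ) ≠ 0 := by exact_mod_cast hq.ne'
  have hp0 : (p : ℚ) ≠ 0 := by exact_mod_cast hp.ne'
  have e1 : (p : ℚ) ^ V = (p : ℚ) ^ (V : ℤ) := (zpow_natCast _ _).symm
  refine ⟨b * ((p : ℤ) ^ (V + i).toNat * (q : ℤ) ^ ((i.natAbs : ℤ) - i).toNat), i.natAbs, ?_⟩
  push_cast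
  have e2 : (q : ℚ) ^ i.natAbs = (q : ℚ) ^ (i.natAbs : ℤ) := (zpow_natCast _ _).symm
  have e3 : (p : ℚ) ^ (V + i).toNat = (p : ℚ) ^ (V : ℤ) * (p : ℚ) ^ i := by
    rw [← zpow_natCast, ← zpow_add₀ hp0]
    congr 1
    omega
  have e4 : (q : ℚ) ^ (|i| - i).toNat = (q : ℚ) ^ (i.natAbs : ℤ) * ((q : ℚ) ^ i)⁻¹ := by
    rw [← zpow_natCast, ← zpow_neg, ← zpow_add₀ hq0]
    congr 1
    have := Int.natCast_natAbs i
    omega
  rw [e1, e2, e3, e4, hr, div_zpow]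
  field_simp

theorem latP_val {r : ℚ} (hp : 0 < p) (hq : 0 < q) (hr : r = (p : ℚ) / q) {V : ℕ} {c : ℤ →₀ ℤ}
    (hc : ∀ i, c i ≠ 0 → -(V : ℤ) ≤ i) : LatP p q V (val r c) := by
  unfold val Finsupp.sum
  refine Finset.sum_induction _ (LatP p q V) (fun _ _ => LatP.add) ⟨0, 0, by simp⟩ ?_
  intro i hi
  exact latP_zpow hp hq hr _ (hc i (Finsupp.mem_support_iff.1 hi))

/-- The number `± r ^ {-(V + 1)}` is not in `LatP V`. -/
theorem not_latP {r : ℚ} (hq : 0 < q) (hpq : q < p) (hcop : Nat.Coprime p q)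
    (hr : r = (p : ℚ) / q) (V : ℕ) {ε : ℤ} (hε : ε.natAbs = 1) :
    ¬ LatP p q V ((ε : ℚ) * r ^ (-((V + 1 : ℕ) : ℤ))) := by
  rintro ⟨z, N, hz⟩
  have hq0 : (q : ℚ) ≠ 0 := by exact_mod_cast hq.ne'
  have hp0 : (p : ℚ) ≠ 0 := by exact_mod_cast (by omega : p ≠ 0)
  have h1 : (ε : ℚ) * (q : ℚ) ^ (V + 1 + N) = z * p := by
    rw [zpow_neg, zpow_natCast, hr, div_pow, inv_div] at hz
    rw [← hz, pow_add, pow_succ (p : ℚ)]
    field_simp
  have h2 : ε * (q : ℤ) ^ (V + 1 + N) = z * p := by exact_mod_cast h1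
  have h3 : (p : ℤ) ∣ (q : ℤ) ^ (V + 1 + N) := by
    have h4 : (p : ℤ) ∣ ε * (q : ℤ) ^ (V + 1 + N) := ⟨z, by rw [h2]; ring⟩
    rcases Int.natAbs_eq ε with h5 | h5
    · rw [hε] at h5
      rw [h5] at h4
      simpa using h4
    · rw [hε] at h5
      rw [h5] at h4
      simpa using h4
  have h4 : p ∣ q ^ (V + 1 + N) := by exact_mod_cast h3
  have h5 : Nat.Coprime p (q ^ (V + 1 + N)) := hcop.pow_right _
  have h6 := Nat.Coprime.eq_one_of_dvd h5 h4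
  omega

namespace Model

variable {r : ℚ} {G : Type u} [Group G] {a t : G} (M : Model r G a t)

theorem K_inv (g : G) : M.K g⁻¹ = -M.K g := by
  have h := M.K_mul g g⁻¹
  rw [mul_inv_cancel, M.K_one] at h
  omega

theorem K_a_zpow (n : ℤ) : M.K (a ^ n) = 0 := by
  have h : ∀ m : ℕ, M.K (a ^ m) = 0 := by
    intro m
    induction m with
    | zero => rw [pow_zero, M.K_one]
    | succ m ih => rw [pow_succ, M.K_mul, ih, M.Ka, add_zero]
  obtain ⟨m, rfl | rfl⟩ := n.eq_nat_or_neg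
  · rw [zpow_natCast, h]
  · rw [zpow_neg, zpow_natCast, M.K_inv, h, neg_zero]

theorem X_a_zpow (n : ℤ) : M.X (a ^ n) = n := by
  have hK : ∀ m : ℕ, M.K (a ^ m) = 0 := fun m => by
    have := M.K_a_zpow m
    rwa [zpow_natCast] at this
  have h : ∀ m : ℕ, M.X (a ^ m) = m := by
    intro m
    induction m with
    | zero => rw [pow_zero, M.X_one, Nat.cast_zero]
    | succ m ih =>
      rw [pow_succ, M.X_mul, ih, hK, M.Xa, zpow_zero]
      push_cast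
      ring
  obtain ⟨m, rfl | rfl⟩ := n.eq_nat_or_neg
  · rw [zpow_natCast, h]
    rfl
  · have h1 := M.X_mul (a ^ m) (a ^ m)⁻¹
    rw [mul_inv_cancel, M.X_one, h, hK, zpow_zero, one_mul] at h1
    rw [zpow_neg, zpow_natCast]
    push_cast
    linarith

theorem K_t_zpow (n : ℤ) : M.K (t ^ n) = n := by
  have h : ∀ m : ℕ, M.K (t ^ m) = m := by
    intro m
    induction m with
    | zero => rw [pow_zero, M.K_one, Nat.cast_zero]
    | succ m ih =>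
      rw [pow_succ, M.K_mul, ih, M.Kt]
      push_cast
      ring
  obtain ⟨m, rfl | rfl⟩ := n.eq_nat_or_neg
  · rw [zpow_natCast, h]
  · rw [zpow_neg, zpow_natCast, M.K_inv, h]

theorem X_t_zpow (hr0 : r ≠ 0) (n : ℤ) : M.X (t ^ n) = 0 := by
  have h : ∀ m : ℕ, M.X (t ^ m) = 0 := by
    intro m
    induction m with
    | zero => rw [pow_zero, M.X_one]
    | succ m ih => rw [pow_succ, M.X_mul, ih, M.Xt, mul_zero, add_zero]
  obtain ⟨m, rfl | rfl⟩ := n.eq_nat_or_neg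
  · rw [zpow_natCast, h]
  · have h1 := M.X_mul (t ^ m) (t ^ m)⁻¹
    rw [mul_inv_cancel, M.X_one, h, zero_add] at h1
    rw [zpow_neg, zpow_natCast]
    rcases mul_eq_zero.1 h1.symm with h2 | h2
    · exact absurd h2 (zpow_ne_zero _ hr0)
    · exact h2

theorem exists_elt (hq : 0 < q) (hpq : q < p) (hcop : Nat.Coprime p q) (hr : r = (p : ℚ) / q)
    (W : ℕ) {x : ℚ} (hx : Lat p q W x) (k : ℤ) : ∃ g, M.X g = x ∧ M.K g = k := by
  have hq0 : (q : ℚ) ≠ 0 := by exact_mod_cast hq.ne'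
  have hp0 : (p : ℚ) ≠ 0 := by exact_mod_cast (by omega : p ≠ 0)
  have hr0 : r ≠ 0 := by
    rw [hr]
    exact div_ne_zero hp0 hq0
  obtain ⟨z, hz⟩ := hx
  have hc : IsCoprime ((p : ℤ) ^ (2 * W)) ((q : ℤ) ^ (2 * W)) :=
    ((Nat.isCoprime_iff_coprime.2 hcop).pow_left).pow_right
  obtain ⟨α, β, hαβ⟩ := hc
  refine ⟨t ^ (W : ℤ) * a ^ (z * α) * t ^ (-(2 * W : ℤ)) * a ^ (z * β) * t ^ ((W : ℤ) + k),
    ?_, ?_⟩
  · rw [M.X_mul, M.X_mul, M.X_mul, M.X_mul, M.K_mul, M.K_mul, M.K_mul, M.K_a_zpow, M.K_t_zpow,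
      M.K_t_zpow, M.X_t_zpow hr0, M.X_t_zpow hr0, M.X_t_zpow hr0, M.X_a_zpow, M.X_a_zpow]
    have e1 : (W : ℤ) + 0 + -(2 * W : ℤ) = -(W : ℤ) := by ring
    rw [e1]
    have hαβ' : (α : ℚ) * (p : ℚ) ^ (2 * W) + β * (q : ℚ) ^ (2 * W) = 1 := by
      exact_mod_cast hαβ
    have hpq0 : (p : ℚ) ^ W * (q : ℚ) ^ W ≠ 0 := by positivity
    apply mul_right_cancel₀ hpq0
    have hrW : r ^ W = (p : ℚ) ^ W / (q : ℚ) ^ W := by rw [hr, div_pow]
    simp only [mul_zero, add_zero, zero_add]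
    rw [hz, zpow_neg, zpow_natCast, hrW, inv_div]
    push_cast
    have e2 : (p : ℚ) ^ (2 * W) = (p : ℚ) ^ W * (p : ℚ) ^ W := by rw [two_mul, pow_add]
    have e3 : (q : ℚ) ^ (2 * W) = (q : ℚ) ^ W * (q : ℚ) ^ W := by rw [two_mul, pow_add]
    rw [e2, e3] at hαβ'
    field_simp
    linear_combination (z : ℚ) * hαβ'
  · rw [M.K_mul, M.K_mul, M.K_mul, M.K_mul, M.K_a_zpow, M.K_a_zpow, M.K_t_zpow, M.K_t_zpow,
      M.K_t_zpow]
    ring

/-- The finite regions used in the proof. -/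
def region (p q W : ℕ) (T : ℚ) : Set G :=
  {g | -(W : ℤ) ≤ M.K g ∧ M.K g ≤ W ∧ Lat p q W (M.X g) ∧ |M.X g| ≤ T}

theorem finite_region (hp : 0 < p) (hq : 0 < q) (W : ℕ) (T : ℚ) : (M.region p q W T).Finite := by
  have hp0 : (0 : ℚ) < p := by exact_mod_cast hp
  have hq0 : (0 : ℚ) < q := by exact_mod_cast hq
  have hpos : (0 : ℚ) < (p : ℚ) ^ W * (q : ℚ) ^ W := by positivity
  set B : ℤ := ⌈T * ((p : ℚ) ^ W * (q : ℚ) ^ W)⌉ with hB
  have hfin : (((fun z : ℤ => (z : ℚ) / ((p : ℚ) ^ W * (q : ℚ) ^ W)) '' Set.Icc (-B) B) ×ˢ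
      Set.Icc (-(W : ℤ)) (W : ℤ)).Finite :=
    ((Set.finite_Icc _ _).image _).prod (Set.finite_Icc _ _)
  refine Set.Finite.of_injOn (f := fun g => (M.X g, M.K g)) ?_ ?_ hfin
  · rintro g ⟨h1, h2, ⟨z, hz⟩, h4⟩
    refine ⟨⟨z, ?_, ?_⟩, h1, h2⟩
    · have h5 : |(z : ℚ)| ≤ T * ((p : ℚ) ^ W * (q : ℚ) ^ W) := by
        rw [← hz, abs_mul, abs_of_pos hpos]
        exact mul_le_mul_of_nonneg_right h4 hpos.le
      have h6 : (((|z| : ℤ)) : ℚ) ≤ (B : ℚ) := by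
        rw [Int.cast_abs]
        exact h5.trans (Int.le_ceil _)
      exact abs_le.1 (by exact_mod_cast h6)
    · show (z : ℚ) / ((p : ℚ) ^ W * (q : ℚ) ^ W) = M.X g
      rw [← hz, mul_div_cancel_right₀ _ hpos.ne']
  · intro g _ h _ hgh
    obtain ⟨h1, h2⟩ := Prod.mk.inj hgh
    exact M.inj g h h1 h2

theorem lo_le (hp : 0 < p) (hq : 0 < q) (hr : r = (p : ℚ) / q) {V : ℕ} {x : ℚ} {k : ℤ}
    {c : ℤ →₀ ℤ} {lo hi : ℤ} (h : IsRep r x k c lo hi) (hx : ¬ LatP p q V x) :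
    lo ≤ -((V + 1 : ℕ) : ℤ) := by
  by_contra hlt
  push Not at hlt
  apply hx
  rw [← h.val]
  refine latP_val hp hq hr fun i hi' => ?_
  have := h.supp i hi'
  omega

/-- Changing the bottom digit. -/
theorem step_a (hq : 0 < q) (hpq : q < p) (hcop : Nat.Coprime p q) (hr : r = (p : ℚ) / q)
    {V : ℕ} {T : ℚ} (hT : 1 ≤ T) {h : G} (hh : h ∈ M.region p q (V + 1) T) :
    ∃ g ∈ M.region p q (V + 1) T, M.K g = M.K h ∧ ¬ LatP p q V (M.X g) ∧
      |M.X h| ≤ |M.X g| + 1 ∧ wordLen {a, t} h ≤ wordLen {a, t} g + 1 := by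
  have hp : 0 < p := by omega
  have hq0 : (0 : ℚ) < q := by exact_mod_cast hq
  have hp0 : (0 : ℚ) < p := by exact_mod_cast hp
  have hr1 : 1 < r := by
    rw [hr, one_lt_div hq0]
    exact_mod_cast hpq
  have hr0 : 0 < r := by linarith
  obtain ⟨h1, h2, h3, h4⟩ := hh
  by_cases hL : LatP p q V (M.X h)
  · have hsmall : r ^ (-((V + 1 : ℕ) : ℤ)) ≤ 1 := by
      rw [zpow_neg]
      exact inv_le_one_of_one_le₀ (one_le_zpow₀ hr1.le (by omega))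
    have hpos := zpow_pos hr0 (-((V + 1 : ℕ) : ℤ))
    obtain ⟨ε, hε, habs⟩ : ∃ ε : ℤ, ε.natAbs = 1 ∧
        |M.X h + (ε : ℚ) * r ^ (-((V + 1 : ℕ) : ℤ))| ≤ T := by
      rcases le_or_gt (M.X h) 0 with hle | hgt
      · refine ⟨1, rfl, ?_⟩
        have h5 := (abs_le.1 h4).1
        rw [abs_le]
        push_cast
        push_cast at hpos hsmall
        constructor <;> linarith
      · refine ⟨-1, rfl, ?_⟩
        have h5 := (abs_le.1 h4).2
        rw [abs_le]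
        push_cast
        push_cast at hpos hsmall
        constructor <;> linarith
    have hLx : Lat p q (V + 1) (M.X h + (ε : ℚ) * r ^ (-((V + 1 : ℕ) : ℤ))) :=
      h3.add (lat_zpow hp hq hr ε le_rfl (by omega))
    obtain ⟨g, hgX, hgK⟩ := M.exists_elt hq hpq hcop hr (V + 1) hLx (M.K h)
    have hnL : ¬ LatP p q V (M.X g) := by
      intro hc
      rw [hgX] at hc
      have h5 := hc.add hL.neg
      have h6 : M.X h + (ε : ℚ) * r ^ (-((V + 1 : ℕ) : ℤ)) + -M.X h =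
          (ε : ℚ) * r ^ (-((V + 1 : ℕ) : ℤ)) := by ring
      rw [h6] at h5
      exact not_latP hq hpq hcop hr V hε h5
    have hεq : |(ε : ℚ)| = 1 := by
      rw [← Int.cast_abs, ← Int.natCast_natAbs, hε]
      rfl
    refine ⟨g, ⟨by rw [hgK]; exact h1, by rw [hgK]; exact h2, by rw [hgX]; exact hLx,
      by rw [hgX]; exact habs⟩, hgK, hnL, ?_, ?_⟩
    · have h5 : M.X h = M.X g - (ε : ℚ) * r ^ (-((V + 1 : ℕ) : ℤ)) := by rw [hgX]; ring
      have h6 : |(ε : ℚ) * r ^ (-((V + 1 : ℕ) : ℤ))| ≤ 1 := by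
        rw [abs_mul, hεq, one_mul, abs_of_pos hpos]
        exact hsmall
      have h7 := abs_sub (M.X g) ((ε : ℚ) * r ^ (-((V + 1 : ℕ) : ℤ)))
      rw [h5]
      linarith
    · obtain ⟨c, lo, hi, hrep, hcost⟩ := M.rep_len g
      have hlo := lo_le hp hq hr hrep hnL
      have hrep' : IsRep r (M.X h) (M.K h)
          (c + Finsupp.single (-((V + 1 : ℕ) : ℤ)) (-ε)) lo hi := by
        refine ⟨hrep.lo0, by rw [← hgK]; exact hrep.lok, hrep.hi0,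
          by rw [← hgK]; exact hrep.hik, supp_add hrep.supp ⟨hlo, ?_⟩, ?_⟩
        · have := hrep.hi0
          omega
        · rw [val_add, val_single, hrep.val, hgX]
          push_cast
          ring
      have h5 := M.len_le_cost hrep'
      have h6 := nrm_add_single_le c (-((V + 1 : ℕ) : ℤ)) (-ε)
      unfold cost at h5 hcost
      rw [hgK] at hcost
      rw [Int.natAbs_neg, hε] at h6
      omega
  · exact ⟨h, ⟨h1, h2, h3, h4⟩, rfl, hL, by linarith, Nat.le_succ _⟩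

/-- A large number needs digits far up. -/
theorem le_hi (hq : 0 < q) (hpq : q < p) (hr : r = (p : ℚ) / q) {g : G} {c : ℤ →₀ ℤ}
    {lo hi : ℤ} (h : IsRep r (M.X g) (M.K g) c lo hi)
    (hc : cost (M.K g) c lo hi ≤ wordLen {a, t} g) : |M.X g| ≤ 3 * (p : ℚ) ^ 2 * r ^ hi := by
  have h1 := abs_val_le hq hpq hr (3 * p) (hi - lo + 1).toNat hi c (fun i hi' => by
    have := h.supp i hi'
    constructor <;> omega) (fun i => (M.digit_lt hq hpq hr h hc i).le)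
  rw [h.val] at h1
  push_cast at h1
  calc |M.X g| ≤ 3 * p * p * r ^ hi := h1
    _ = 3 * (p : ℚ) ^ 2 * r ^ hi := by ring

/-- Large elements become longer when the cursor is moved back to the origin. -/
theorem wall (hq : 0 < q) (hpq : q < p) (hcop : Nat.Coprime p q) (hr : r = (p : ℚ) / q)
    {V : ℕ} {T : ℚ} (hT : 1 ≤ T) {h : G} (hh : h ∈ M.region p q (V + 1) T)
    (hbig : 3 * (p : ℚ) ^ 2 * r ^ ((V + 1 : ℕ) : ℤ) + 1 ≤ |M.X h|) :
    ∃ g ∈ M.region p q (V + 1) T,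
      (wordLen {a, t} h : ℤ) + |M.K h| ≤ wordLen {a, t} g + 1 := by
  have hq0 : (0 : ℚ) < q := by exact_mod_cast hq
  have hp0 : (0 : ℚ) < p := by exact_mod_cast (by omega : 0 < p)
  have hr1 : 1 < r := by
    rw [hr, one_lt_div hq0]
    exact_mod_cast hpq
  obtain ⟨g₁, hg₁, hK₁, hL₁, hX₁, hl₁⟩ := M.step_a hq hpq hcop hr hT hh
  obtain ⟨h1, h2, h3, h4⟩ := hg₁
  obtain ⟨g₂, hX₂, hK₂⟩ := M.exists_elt hq hpq hcop hr (V + 1) h3 0
  refine ⟨g₂, ⟨by rw [hK₂]; omega, by rw [hK₂]; omega, by rw [hX₂]; exact h3,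
    by rw [hX₂]; exact h4⟩, ?_⟩
  obtain ⟨c, lo, hi, hrep, hcost⟩ := M.rep_len g₂
  have hhi := M.le_hi hq hpq hr hrep hcost
  have hhi' : ((V + 1 : ℕ) : ℤ) ≤ hi := by
    by_contra hlt
    push Not at hlt
    have e1 : r ^ hi < r ^ ((V + 1 : ℕ) : ℤ) := zpow_lt_zpow_right₀ hr1 hlt
    have e2 : 3 * (p : ℚ) ^ 2 * r ^ hi < 3 * (p : ℚ) ^ 2 * r ^ ((V + 1 : ℕ) : ℤ) :=
      mul_lt_mul_of_pos_left e1 (by positivity)
    rw [hX₂] at hhi
    linarith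
  have hlo := lo_le (by omega : 0 < p) hq hr hrep (V := V) (by rw [hX₂]; exact hL₁)
  have hrep' : IsRep r (M.X g₁) (M.K g₁) c lo hi := by
    refine ⟨hrep.lo0, by omega, hrep.hi0, by omega, hrep.supp, ?_⟩
    rw [hrep.val, hX₂]
  have h5 := M.len_le_cost hrep'
  unfold cost at h5 hcost
  rw [hK₂, abs_zero] at hcost
  rw [hK₁] at h5
  omega

/-- Elements from which the size bound can be violated are short. -/
theorem cross (hr1 : 1 ≤ r) {W T C : ℕ}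
    (hC : ∀ g ∈ M.region p q W (r ^ (W : ℤ)), wordLen {a, t} g ≤ C) {h : G}
    (hh : h ∈ M.region p q W (T : ℚ)) {b : ℤ} (hb : b.natAbs = 1)
    (hX : (T : ℚ) < |M.X h + b * r ^ (M.K h)|) :
    wordLen {a, t} h ≤ wordLen {a, t} (a ^ (T : ℤ)) + C := by
  have hr0 : 0 < r := by linarith
  obtain ⟨h1, h2, h3, h4⟩ := hh
  have hbq : |(b : ℚ)| = 1 := by
    rw [← Int.cast_abs, ← Int.natCast_natAbs, hb]
    rfl
  have hlt : (T : ℚ) - |M.X h| < r ^ (W : ℤ) := by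
    have e1 := abs_add_le (M.X h) (b * r ^ (M.K h))
    rw [abs_mul, hbq, one_mul, abs_of_pos (zpow_pos hr0 _)] at e1
    have e2 : r ^ (M.K h) ≤ r ^ (W : ℤ) := zpow_le_zpow_right₀ hr1 h2
    linarith
  obtain ⟨σ, hσ, hσX, hσa⟩ : ∃ σ : ℤ, σ.natAbs = 1 ∧ M.X h = σ * |M.X h| ∧
      wordLen {a, t} (a ^ (σ * T)) = wordLen {a, t} (a ^ (T : ℤ)) := by
    rcases le_or_gt 0 (M.X h) with hle | hgt
    · exact ⟨1, rfl, by rw [abs_of_nonneg hle]; push_cast; ring, by rw [one_mul]⟩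
    · refine ⟨-1, rfl, by rw [abs_of_neg hgt]; push_cast; ring, ?_⟩
      rw [neg_one_mul, zpow_neg, wordLen_inv (M.mem_closure _)]
  have hσq : |(σ : ℚ)| = 1 := by
    rw [← Int.cast_abs, ← Int.natCast_natAbs, hσ]
    rfl
  set g := (a ^ (σ * T))⁻¹ * h with hg
  have hKg : M.K g = M.K h := by
    rw [hg, M.K_mul, M.K_inv, M.K_a_zpow]
    ring
  have hXg : M.X g = M.X h - σ * T := by
    rw [hg, ← zpow_neg, M.X_mul, M.X_a_zpow, M.K_a_zpow, zpow_zero, one_mul]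
    push_cast
    ring
  have hgr : g ∈ M.region p q W (r ^ (W : ℤ)) := by
    refine ⟨by rw [hKg]; exact h1, by rw [hKg]; exact h2, ?_, ?_⟩
    · rw [hXg]
      refine h3.sub ?_
      have := lat_int (p := p) (q := q) W (σ * T)
      push_cast at this
      exact this
    · rw [hXg]
      have e1 : M.X h - σ * T = σ * (|M.X h| - T) := by
        conv_lhs => rw [hσX]
        ring
      rw [e1, abs_mul, hσq, one_mul, abs_of_nonpos (by linarith)]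
      linarith
  have h5 := hC g hgr
  have h6 : h = a ^ (σ * T) * g := by rw [hg, mul_inv_cancel_left]
  rw [h6]
  refine (wordLen_mul_le (M.mem_closure _) (M.mem_closure _)).trans ?_
  rw [hσa]
  omega

end Model

end Pool.Agent.V1125.PQ
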