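import Pool.Agent.V1125.Cayley
import Pool.Agent.V1125.BSDigits

/-!
# Word length in the groups `A ⋊ ℤ` with `ℤ` acting by multiplication by a rational `r`
-/

set_option autoImplicit false

namespace Pool.Agent.V1125.PQ

open Pool.Agent.V1125 Pool.Agent.V1125.BS

universe u

/-- The rational number with signed digits `c` in base `r`. -/
noncomputable def val (r : ℚ) (c : ℤ →₀ ℤ) : ℚ := c.sum fun i a => (a : ℚ) * r ^ i

theorem val_add (r : ℚ) (c d : ℤ →₀ ℤ) : val r (c + d) = val r c + val r d :=
  Finsupp.sum_add_index' (by simp) (by intros; push_cast; ring)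

theorem val_single (r : ℚ) (i a : ℤ) : val r (Finsupp.single i a) = (a : ℚ) * r ^ i :=
  Finsupp.sum_single_index (by simp)

theorem val_zero (r : ℚ) : val r 0 = 0 := Finsupp.sum_zero_index

/-- Coordinates on a group with generators `a` and `t` that identify it with a group of
affine maps `y ↦ x + r ^ k y`. -/
structure Model (r : ℚ) (G : Type u) [Group G] (a t : G) where
  X : G → ℚ
  K : G → ℤ
  X_mul : ∀ g h, X (g * h) = X g + r ^ (K g) * X h
  K_mul : ∀ g h, K (g * h) = K g + K h
  Xa : X a = 1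
  Ka : K a = 0
  Xt : X t = 0
  Kt : K t = 1
  inj : ∀ g h, X g = X h → K g = K h → g = h
  gen : Subgroup.closure {a, t} = ⊤

/-- `c` is a system of signed digits of `x` supported in `[lo, hi]`, an interval that contains
`0` and `k`. -/
structure IsRep (r : ℚ) (x : ℚ) (k : ℤ) (c : ℤ →₀ ℤ) (lo hi : ℤ) : Prop where
  lo0 : lo ≤ 0
  lok : lo ≤ k
  hi0 : 0 ≤ hi
  hik : k ≤ hi
  supp : ∀ i, c i ≠ 0 → lo ≤ i ∧ i ≤ hi
  val : val r c = x

/-- The cost of a digit system. -/
noncomputable def cost (k : ℤ) (c : ℤ →₀ ℤ) (lo hi : ℤ) : ℤ := nrm c + 2 * (hi - lo) - |k|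

/-- `(x, k)` has a digit system of cost at most `n`. -/
def Rep (r : ℚ) (x : ℚ) (k : ℤ) (n : ℕ) : Prop :=
  ∃ (c : ℤ →₀ ℤ) (lo hi : ℤ), IsRep r x k c lo hi ∧ cost k c lo hi ≤ n

section Moves

variable {r : ℚ} {x : ℚ} {k : ℤ} {n : ℕ}

theorem supp_add {c : ℤ →₀ ℤ} {lo hi j a : ℤ} (hc : ∀ i, c i ≠ 0 → lo ≤ i ∧ i ≤ hi)
    (hj : lo ≤ j ∧ j ≤ hi) : ∀ i, (c + Finsupp.single j a) i ≠ 0 → lo ≤ i ∧ i ≤ hi := by
  intro i hi'
  by_cases h : i = j
  · rw [h]
    exact hj
  · rw [Finsupp.add_apply, Finsupp.single_eq_of_ne h, add_zero] at hi'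
    exact hc i hi'

theorem Rep.zero (r : ℚ) : Rep r 0 0 0 :=
  ⟨0, 0, 0, ⟨le_rfl, le_rfl, le_rfl, le_rfl, by simp, val_zero r⟩, by simp [cost, nrm_zero]⟩

theorem Rep.lamp (h : Rep r x k n) (a : ℤ) : Rep r (x + a * r ^ k) k (n + a.natAbs) := by
  obtain ⟨c, lo, hi, ⟨h1, h2, h3, h4, h5, h6⟩, h7⟩ := h
  refine ⟨c + Finsupp.single k a, lo, hi, ⟨h1, h2, h3, h4, supp_add h5 ⟨h2, h4⟩, ?_⟩, ?_⟩
  · rw [val_add, val_single, h6]
  · have := nrm_add_single_le c k a
    unfold cost at h7 ⊢
    omega

theorem Rep.up (h : Rep r x k n) : Rep r x (k + 1) (n + 1) := by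
  obtain ⟨c, lo, hi, ⟨h1, h2, h3, h4, h5, h6⟩, h7⟩ := h
  unfold cost at h7
  rcases lt_or_ge k hi with hlt | hge
  · refine ⟨c, lo, hi, ⟨h1, by omega, h3, by omega, h5, h6⟩, ?_⟩
    unfold cost
    push_cast
    have := abs_sub_abs_le_abs_sub k (k + 1)
    have h8 : |k - (k + 1)| = 1 := by
      rw [show k - (k + 1) = -1 by ring]
      rfl
    omega
  · refine ⟨c, lo, hi + 1, ⟨h1, by omega, by omega, by omega, ?_, h6⟩, ?_⟩
    · intro i hi'
      have := h5 i hi'
      constructor <;> omega
    · unfold cost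
      push_cast
      have h8 : |k| = k := abs_of_nonneg (by omega)
      have h9 : |k + 1| = k + 1 := abs_of_nonneg (by omega)
      omega

theorem Rep.down (h : Rep r x k n) : Rep r x (k - 1) (n + 1) := by
  obtain ⟨c, lo, hi, ⟨h1, h2, h3, h4, h5, h6⟩, h7⟩ := h
  unfold cost at h7
  rcases lt_or_ge lo k with hlt | hge
  · refine ⟨c, lo, hi, ⟨h1, by omega, h3, by omega, h5, h6⟩, ?_⟩
    unfold cost
    push_cast
    have := abs_sub_abs_le_abs_sub k (k - 1)
    have h8 : |k - (k - 1)| = 1 := by
      rw [show k - (k - 1) = 1 by ring]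
      rfl
    omega
  · refine ⟨c, lo - 1, hi, ⟨by omega, by omega, by omega, by omega, ?_, h6⟩, ?_⟩
    · intro i hi'
      have := h5 i hi'
      constructor <;> omega
    · unfold cost
      push_cast
      have h8 : |k| = -k := abs_of_nonpos (by omega)
      have h9 : |k - 1| = -(k - 1) := abs_of_nonpos (by omega)
      omega

/-- Every digit system of positive cost can be shortened by one letter. -/
theorem Rep.pred (h : Rep r x k (n + 1)) : Rep r x k n ∨ (∃ a : ℤ, (a = 1 ∨ a = -1) ∧
    Rep r (x + a * r ^ k) k n) ∨ Rep r x (k + 1) n ∨ Rep r x (k - 1) n ∨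
    (x = 0 ∧ k = 0) := by
  obtain ⟨c, lo, hi, ⟨h1, h2, h3, h4, h5, h6⟩, h7⟩ := h
  unfold cost at h7
  push_cast at h7
  by_cases hck : c k = 0
  · rcases le_or_gt 0 k with hk | hk
    · have e1 : |k| = k := abs_of_nonneg hk
      rcases lt_or_ge k hi with hlt | hge
      · -- go up
        right; right; left
        refine ⟨c, lo, hi, ⟨h1, by omega, h3, by omega, h5, h6⟩, ?_⟩
        have e2 : |k + 1| = k + 1 := abs_of_nonneg (by omega)
        unfold cost
        omega
      · have hkhi : k = hi := by omega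
        rcases hk.lt_or_eq with hpos | hzero
        · right; right; right; left
          refine ⟨c, lo, hi - 1, ⟨h1, by omega, by omega, by omega, ?_, h6⟩, ?_⟩
          · intro i hi'
            have := h5 i hi'
            have hne : i ≠ k := by
              rintro rfl
              exact hi' hck
            constructor <;> omega
          · have e2 : |k - 1| = k - 1 := abs_of_nonneg (by omega)
            unfold cost
            omega
        · rcases h1.lt_or_eq with hlo | hlo
          · right; right; right; left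
            refine ⟨c, lo, hi, ⟨h1, by omega, h3, by omega, h5, h6⟩, ?_⟩
            have e2 : |k - 1| = -(k - 1) := abs_of_nonpos (by omega)
            unfold cost
            omega
          · right; right; right; right
            have hc0 : c = 0 := by
              ext i
              by_contra hi'
              have := h5 i hi'
              have hik : i = k := by omega
              rw [hik] at hi'
              exact hi' hck
            refine ⟨?_, hzero.symm⟩
            rw [← h6, hc0, val_zero]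
    · have e1 : |k| = -k := abs_of_neg hk
      rcases lt_or_ge lo k with hlt | hge
      · right; right; right; left
        refine ⟨c, lo, hi, ⟨h1, by omega, h3, by omega, h5, h6⟩, ?_⟩
        have e2 : |k - 1| = -(k - 1) := abs_of_neg (by omega)
        unfold cost
        omega
      · right; right; left
        refine ⟨c, lo + 1, hi, ⟨by omega, by omega, by omega, by omega, ?_, h6⟩, ?_⟩
        · intro i hi'
          have := h5 i hi'
          have hne : i ≠ k := by
            rintro rfl
            exact hi' hck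
          constructor <;> omega
        · have e2 : |k + 1| = -(k + 1) := abs_of_nonpos (by omega)
          unfold cost
          omega
  · right; left
    rcases lt_or_gt_of_ne hck with hneg | hpos
    · refine ⟨1, Or.inl rfl, c + Finsupp.single k 1, lo, hi,
        ⟨h1, h2, h3, h4, supp_add h5 ⟨h2, h4⟩, ?_⟩, ?_⟩
      · rw [val_add, val_single, h6]
      · have := nrm_add_single c k 1
        unfold cost
        omega
    · refine ⟨-1, Or.inr rfl, c + Finsupp.single k (-1), lo, hi,
        ⟨h1, h2, h3, h4, supp_add h5 ⟨h2, h4⟩, ?_⟩, ?_⟩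
      · rw [val_add, val_single, h6]
      · have := nrm_add_single c k (-1)
        unfold cost
        omega

/-- The zero cost case. -/
theorem Rep.eq_zero (h : Rep r x k 0) : x = 0 ∧ k = 0 := by
  obtain ⟨c, lo, hi, ⟨h1, h2, h3, h4, h5, h6⟩, h7⟩ := h
  unfold cost at h7
  push_cast at h7
  have e1 : |k| ≤ hi - lo := by
    rw [abs_le]
    constructor <;> omega
  have e2 := abs_nonneg k
  have hc : c = 0 := eq_zero_of_nrm (by omega)
  refine ⟨by rw [← h6, hc, val_zero], ?_⟩
  omega

end Moves

/-! ## Word length -/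

section Group

variable {r : ℚ} {G : Type u} [Group G] {a t : G}

namespace Model

variable (M : Model r G a t)

theorem X_one : M.X 1 = 0 := by
  have h1 := M.X_mul a 1
  rw [mul_one, M.Ka, zpow_zero, one_mul] at h1
  linarith

theorem K_one : M.K 1 = 0 := by
  have h1 := M.K_mul 1 1
  rw [mul_one] at h1
  omega

theorem X_a (g : G) : M.X (g * a) = M.X g + r ^ (M.K g) := by
  rw [M.X_mul, M.Xa, mul_one]

theorem K_a (g : G) : M.K (g * a) = M.K g := by
  rw [M.K_mul, M.Ka, add_zero]

theorem X_t (g : G) : M.X (g * t) = M.X g := by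
  rw [M.X_mul, M.Xt, mul_zero, add_zero]

theorem K_t (g : G) : M.K (g * t) = M.K g + 1 := by
  rw [M.K_mul, M.Kt]

theorem K_a_inv (g : G) : M.K (g * a⁻¹) = M.K g := by
  have := M.K_a (g * a⁻¹)
  rw [inv_mul_cancel_right] at this
  exact this.symm

theorem X_a_inv (g : G) : M.X (g * a⁻¹) = M.X g - r ^ (M.K g) := by
  have := M.X_a (g * a⁻¹)
  rw [inv_mul_cancel_right, M.K_a_inv] at this
  linarith

theorem K_t_inv (g : G) : M.K (g * t⁻¹) = M.K g - 1 := by
  have := M.K_t (g * t⁻¹)
  rw [inv_mul_cancel_right] at this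
  omega

theorem X_t_inv (g : G) : M.X (g * t⁻¹) = M.X g := by
  have := M.X_t (g * t⁻¹)
  rw [inv_mul_cancel_right] at this
  exact this.symm

theorem letter {s : G} (hs : s ∈ ({a, t} : Set G) ∨ s⁻¹ ∈ ({a, t} : Set G)) :
    s = a ∨ s = a⁻¹ ∨ s = t ∨ s = t⁻¹ := by
  rcases hs with h | h
  · rcases h with h | h
    · exact Or.inl h
    · exact Or.inr (Or.inr (Or.inl h))
  · rcases h with h | h
    · exact Or.inr (Or.inl (by rw [← h, inv_inv]))
    · exact Or.inr (Or.inr (Or.inr (by rw [← (h : s⁻¹ = t), inv_inv])))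

theorem rep_of_word (w : List G)
    (hw : ∀ s ∈ w, s ∈ ({a, t} : Set G) ∨ s⁻¹ ∈ ({a, t} : Set G)) :
    Rep r (M.X w.prod) (M.K w.prod) w.length := by
  induction w using List.reverseRecOn with
  | nil =>
    rw [List.prod_nil, M.X_one, M.K_one]
    exact Rep.zero r
  | append_singleton w s ih =>
    have ih := ih fun s hs => hw s (by simp [hs])
    have hs := letter (hw s (by simp))
    rw [List.prod_append, List.prod_singleton, List.length_append, List.length_singleton]
    rcases hs with rfl | rfl | rfl | rfl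
    · rw [M.X_a, M.K_a]
      have := ih.lamp 1
      simpa using this
    · rw [M.X_a_inv, M.K_a_inv]
      have := ih.lamp (-1)
      simpa [sub_eq_add_neg] using this
    · rw [M.X_t, M.K_t]
      exact ih.up
    · rw [M.X_t_inv, M.K_t_inv]
      exact ih.down

include M in
theorem mem_closure (g : G) : g ∈ Subgroup.closure ({a, t} : Set G) := by
  rw [M.gen]
  trivial

theorem rep_len (g : G) : Rep r (M.X g) (M.K g) (wordLen {a, t} g) := by
  obtain ⟨w, hw, hwp, hwl⟩ := exists_min_word (M.mem_closure g)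
  have := M.rep_of_word w hw
  rwa [hwp, hwl] at this

include M in
theorem len_mul_letter (g : G) {s : G}
    (hs : s ∈ ({a, t} : Set G) ∨ s⁻¹ ∈ ({a, t} : Set G)) :
    wordLen {a, t} (g * s) ≤ wordLen {a, t} g + 1 := by
  refine (wordLen_mul_le (M.mem_closure g) (M.mem_closure s)).trans ?_
  have := wordLen_le (S := {a, t}) [s] (by simpa using hs)
  simp at this
  omega

theorem exists_of_rep (n : ℕ) : ∀ (x : ℚ) (k : ℤ), Rep r x k n →
    ∃ g, M.X g = x ∧ M.K g = k ∧ wordLen {a, t} g ≤ n := by
  induction n with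
  | zero =>
    intro x k h
    obtain ⟨rfl, rfl⟩ := h.eq_zero
    exact ⟨1, M.X_one, M.K_one, by rw [wordLen_one]⟩
  | succ n ih =>
    intro x k h
    rcases h.pred with h | ⟨b, hb, h⟩ | h | h | ⟨rfl, rfl⟩
    · obtain ⟨g, h1, h2, h3⟩ := ih x k h
      exact ⟨g, h1, h2, by omega⟩
    · obtain ⟨g, h1, h2, h3⟩ := ih _ k h
      rcases hb with rfl | rfl
      · refine ⟨g * a⁻¹, ?_, ?_, ?_⟩
        · rw [M.X_a_inv, h1, h2]
          push_cast
          ring
        · rw [M.K_a_inv, h2]
        · have := M.len_mul_letter g (s := a⁻¹) (by simp)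
          omega
      · refine ⟨g * a, ?_, ?_, ?_⟩
        · rw [M.X_a, h1, h2]
          push_cast
          ring
        · rw [M.K_a, h2]
        · have := M.len_mul_letter g (s := a) (by simp)
          omega
    · obtain ⟨g, h1, h2, h3⟩ := ih _ _ h
      refine ⟨g * t⁻¹, ?_, ?_, ?_⟩
      · rw [M.X_t_inv, h1]
      · rw [M.K_t_inv, h2]
        ring
      · have := M.len_mul_letter g (s := t⁻¹) (by simp)
        omega
    · obtain ⟨g, h1, h2, h3⟩ := ih _ _ h
      refine ⟨g * t, ?_, ?_, ?_⟩
      · rw [M.X_t, h1]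
      · rw [M.K_t, h2]
        ring
      · have := M.len_mul_letter g (s := t) (by simp)
        omega
    · exact ⟨1, M.X_one, M.K_one, by rw [wordLen_one]; omega⟩

theorem len_le_of_rep {g : G} {n : ℕ} (h : Rep r (M.X g) (M.K g) n) : wordLen {a, t} g ≤ n := by
  obtain ⟨g', h1, h2, h3⟩ := M.exists_of_rep n _ _ h
  rwa [M.inj g' g h1 h2] at h3

theorem len_le_cost {g : G} {c : ℤ →₀ ℤ} {lo hi : ℤ} (h : IsRep r (M.X g) (M.K g) c lo hi) :
    (wordLen {a, t} g : ℤ) ≤ cost (M.K g) c lo hi := by
  have h0 : 0 ≤ cost (M.K g) c lo hi := by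
    obtain ⟨h1, h2, h3, h4, h5, h6⟩ := h
    have e1 : |M.K g| ≤ hi - lo := by
      rw [abs_le]
      constructor <;> omega
    have e2 := abs_nonneg (M.K g)
    unfold cost
    omega
  have h1 : Rep r (M.X g) (M.K g) (cost (M.K g) c lo hi).toNat := ⟨c, lo, hi, h, by omega⟩
  have h2 := M.len_le_of_rep h1
  omega

/-- A digit system of minimal cost has small digits. -/
theorem digit_lt {p q : ℕ} (hq : 0 < q) (hpq : q < p) (hr : r = (p : ℚ) / q) {g : G}
    {c : ℤ →₀ ℤ} {lo hi : ℤ} (h : IsRep r (M.X g) (M.K g) c lo hi)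
    (hc : cost (M.K g) c lo hi ≤ wordLen {a, t} g) (i : ℤ) : (c i).natAbs < 3 * p := by
  by_contra hlt
  push Not at hlt
  have hq0 : (q : ℚ) ≠ 0 := by exact_mod_cast hq.ne'
  have hp0 : (p : ℚ) ≠ 0 := by exact_mod_cast (by omega : p ≠ 0)
  have hr0 : r ≠ 0 := by
    rw [hr]
    exact div_ne_zero hp0 hq0
  have hci : c i ≠ 0 := by
    intro h0
    rw [h0] at hlt
    simp at hlt
    omega
  obtain ⟨h1, h2, h3, h4, h5, h6⟩ := h
  obtain ⟨hloi, hihi⟩ := h5 i hci
  obtain ⟨σ, hσ, hσc⟩ : ∃ σ : ℤ, σ.natAbs = 1 ∧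
      (c i + -(3 * p * σ)).natAbs + 3 * p = (c i).natAbs := by
    rcases lt_or_gt_of_ne hci with hneg | hpos
    · exact ⟨-1, rfl, by omega⟩
    · exact ⟨1, rfl, by omega⟩
  set c' := c + Finsupp.single i (-(3 * p * σ)) + Finsupp.single (i + 1) (3 * q * σ) with hc'
  have e1 := nrm_add_single c i (-(3 * p * σ))
  have e2 := nrm_add_single_le (c + Finsupp.single i (-(3 * p * σ))) (i + 1) (3 * q * σ)
  rw [← hc'] at e2
  have e3 : (3 * (q : ℤ) * σ).natAbs = 3 * q := by
    rw [Int.natAbs_mul, hσ, mul_one, Int.natAbs_mul, Int.natAbs_natCast]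
    rfl
  have h7 : IsRep r (M.X g) (M.K g) c' lo (max hi (i + 1)) := by
    refine ⟨h1, h2, h3.trans (le_max_left _ _), h4.trans (le_max_left _ _), ?_, ?_⟩
    · rw [hc']
      refine supp_add (supp_add ?_ ?_) ?_
      · intro j hj
        have := h5 j hj
        exact ⟨this.1, this.2.trans (le_max_left _ _)⟩
      · exact ⟨hloi, hihi.trans (le_max_left _ _)⟩
      · exact ⟨by omega, le_max_right _ _⟩
    · rw [hc', val_add, val_add, val_single, val_single, h6, zpow_add_one₀ hr0]
      push_cast
      have e4 : (q : ℚ) * r = p := by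
        rw [hr]
        field_simp
      linear_combination (3 * (σ : ℚ) * r ^ i) * e4
  have h8 := M.len_le_cost h7
  unfold cost at h8 hc
  have h9 : max hi (i + 1) ≤ hi + 1 := max_le (by omega) (by omega)
  omega

end Model

end Group

/-- The size of a number with bounded digits. -/
theorem abs_val_le {r : ℚ} {p q : ℕ} (hq : 0 < q) (hpq : q < p) (hr : r = (p : ℚ) / q) (B : ℕ)
    (n : ℕ) : ∀ (hi : ℤ) (c : ℤ →₀ ℤ), (∀ i, c i ≠ 0 → hi - n < i ∧ i ≤ hi) →
    (∀ i, (c i).natAbs ≤ B) → |val r c| ≤ B * p * r ^ hi := by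
  have hq0 : (0 : ℚ) < q := by exact_mod_cast hq
  have hp0 : (0 : ℚ) < p := by exact_mod_cast (by omega : 0 < p)
  have hr0 : 0 < r := by
    rw [hr]
    positivity
  have hqr : (q : ℚ) * r = p := by
    rw [hr]
    field_simp
  have hpq' : (q : ℚ) + 1 ≤ p := by exact_mod_cast hpq
  induction n with
  | zero =>
    intro hi c hc _
    have : c = 0 := by
      ext i
      by_contra h
      have := hc i h
      push_cast at this
      omega
    rw [this, val_zero, abs_zero]
    positivity
  | succ n ih =>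
    intro hi c hc hB
    set c' := c + Finsupp.single hi (-c hi) with hc'
    have hval : val r c = val r c' + (c hi : ℚ) * r ^ hi := by
      rw [hc', val_add, val_single]
      push_cast
      ring
    have hsame : ∀ i, i ≠ hi → c' i = c i := by
      intro i hi'
      rw [hc', Finsupp.add_apply, Finsupp.single_eq_of_ne hi', add_zero]
    have htop : c' hi = 0 := by
      rw [hc', Finsupp.add_apply, Finsupp.single_eq_same]
      ring
    have h1 : |val r c'| ≤ B * p * r ^ (hi - 1) := by
      refine ih (hi - 1) c' ?_ ?_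
      · intro i hi'
        have hne : i ≠ hi := by
          rintro rfl
          exact hi' htop
        rw [hsame i hne] at hi'
        have := hc i hi'
        push_cast at this
        constructor <;> omega
      · intro i
        by_cases hne : i = hi
        · rw [hne, htop]
          simp
        · rw [hsame i hne]
          exact hB i
    have h2 : |(c hi : ℚ) * r ^ hi| ≤ B * r ^ hi := by
      rw [abs_mul, abs_of_pos (zpow_pos hr0 hi)]
      refine mul_le_mul_of_nonneg_right ?_ (zpow_pos hr0 hi).le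
      have h3 : |(c hi : ℚ)| = ((c hi).natAbs : ℚ) := by
        rw [Nat.cast_natAbs, Int.cast_abs]
      rw [h3]
      exact_mod_cast hB hi
    have h5 : r ^ hi = r ^ (hi - 1) * r := by
      rw [← zpow_add_one₀ hr0.ne']
      congr 1
      ring
    rw [hval]
    have h6 := abs_add_le (val r c') ((c hi : ℚ) * r ^ hi)
    have h7 : (0 : ℚ) ≤ B * r ^ (hi - 1) := by positivity
    have h8 : (B : ℚ) * p * r ^ (hi - 1) + B * r ^ hi ≤ B * p * r ^ hi := by
      have h9 : (p : ℚ) * r ^ (hi - 1) = q * r ^ hi := by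
        rw [h5, ← hqr]
        ring
      have h10 : (B : ℚ) * p * r ^ (hi - 1) = B * q * r ^ hi := by
        rw [mul_assoc, h9]
        ring
      rw [h10]
      have h11 : (0 : ℚ) ≤ B * r ^ hi := by positivity
      nlinarith
    linarith

end Pool.Agent.V1125.PQ
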