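import Pool.Agent.V1125.Ends

/-!
# Lamplighters over trees: switch-walk-switch word length
-/

set_option autoImplicit false

namespace Pool.Agent.V1125

universe u v

/-- A rooted tree, locally finite, with at least two children at every vertex. -/
structure RTree (V : Type v) where
  root : V
  par : V → V
  dep : V → ℕ
  ch : Bool → V → V
  dep_root : dep root = 0
  dep_par : ∀ x, x ≠ root → dep (par x) + 1 = dep x
  fin_ball : ∀ n, {x | dep x ≤ n}.Finite
  ch_ne : ∀ b x, ch b x ≠ root
  par_ch : ∀ b x, par (ch b x) = x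
  ch_inj : ∀ x, ch true x ≠ ch false x

namespace RTree

variable {V : Type v} [DecidableEq V] (T : RTree V)

/-- Adjacency in the tree. -/
def Adj (x y : V) : Prop := (x ≠ T.root ∧ y = T.par x) ∨ (y ≠ T.root ∧ x = T.par y)

theorem Adj.symm {x y : V} (h : T.Adj x y) : T.Adj y x := by
  rcases h with h | h
  · exact Or.inr h
  · exact Or.inl h

theorem dep_pos {x : V} (h : x ≠ T.root) : 0 < T.dep x := by
  have := T.dep_par x h
  omega

theorem ne_root {x : V} (h : 0 < T.dep x) : x ≠ T.root := by
  rintro rfl
  rw [T.dep_root] at h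
  exact lt_irrefl _ h

theorem dep_ch (b : Bool) (x : V) : T.dep (T.ch b x) = T.dep x + 1 := by
  have := T.dep_par _ (T.ch_ne b x)
  rw [T.par_ch] at this
  exact this.symm

/-- The non-root ancestors of `x`, including `x`. -/
def anc (x : V) : Finset V := (Finset.range (T.dep x)).image fun k => T.par^[k] x

theorem anc_root : T.anc T.root = ∅ := by
  unfold anc
  rw [T.dep_root]
  rfl

theorem anc_eq {x : V} (h : x ≠ T.root) : T.anc x = insert x (T.anc (T.par x)) := by
  unfold anc
  rw [← T.dep_par x h]
  ext y
  simp only [Finset.mem_image, Finset.mem_range, Finset.mem_insert]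
  constructor
  · rintro ⟨k, hk, rfl⟩
    rcases k with _ | k
    · exact Or.inl rfl
    · exact Or.inr ⟨k, by omega, rfl⟩
  · rintro (rfl | ⟨k, hk, rfl⟩)
    · exact ⟨0, by omega, rfl⟩
    · exact ⟨k + 1, by omega, rfl⟩

/-- Induction from the root. -/
theorem rec_dep {P : V → Prop} (h0 : P T.root) (h1 : ∀ x, x ≠ T.root → P (T.par x) → P x)
    (x : V) : P x := by
  generalize hn : T.dep x = n
  induction n generalizing x with
  | zero =>
    by_cases h : x = T.root
    · rw [h]
      exact h0
    · have := T.dep_pos h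
      omega
  | succ n ih =>
    have h : x ≠ T.root := T.ne_root (by omega)
    refine h1 x h (ih _ ?_)
    have := T.dep_par x h
    omega

theorem mem_anc_self {x : V} (h : x ≠ T.root) : x ∈ T.anc x := by
  rw [T.anc_eq h]
  exact Finset.mem_insert_self _ _

theorem ne_root_of_mem {x y : V} (h : y ∈ T.anc x) : y ≠ T.root := by
  induction x using T.rec_dep with
  | h0 =>
    rw [T.anc_root] at h
    simp at h
  | h1 x hx ih =>
    rw [T.anc_eq hx, Finset.mem_insert] at h
    rcases h with rfl | h
    · exact hx
    · exact ih h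

theorem dep_le_of_mem {x y : V} (h : y ∈ T.anc x) : T.dep y ≤ T.dep x := by
  induction x using T.rec_dep with
  | h0 =>
    rw [T.anc_root] at h
    simp at h
  | h1 x hx ih =>
    rw [T.anc_eq hx, Finset.mem_insert] at h
    rcases h with rfl | h
    · exact le_rfl
    · have := ih h
      have := T.dep_par x hx
      omega

theorem anc_subset {x y : V} (h : y ∈ T.anc x) : T.anc y ⊆ T.anc x := by
  induction x using T.rec_dep with
  | h0 =>
    rw [T.anc_root] at h
    simp at h
  | h1 x hx ih =>
    have h' := h
    rw [T.anc_eq hx, Finset.mem_insert] at h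
    rcases h with rfl | h
    · exact subset_rfl
    · rw [T.anc_eq hx]
      exact (ih h).trans (Finset.subset_insert _ _)

theorem anc_par_subset {x : V} : T.anc (T.par x) ⊆ T.anc x ∨ x = T.root := by
  by_cases h : x = T.root
  · exact Or.inr h
  · left
    rw [T.anc_eq h]
    exact Finset.subset_insert _ _

theorem card_anc (x : V) : (T.anc x).card = T.dep x := by
  induction x using T.rec_dep with
  | h0 => rw [T.anc_root, T.dep_root]; rfl
  | h1 x hx ih =>
    rw [T.anc_eq hx, Finset.card_insert_of_notMem, ih, T.dep_par x hx]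
    intro h
    have h1 := T.dep_le_of_mem h
    have h2 := T.dep_par x hx
    omega

/-- The child of `y` towards `x`. -/
theorem exists_child {x y : V} (h : y ∈ T.anc x) (hne : y ≠ x) :
    ∃ z, z ∈ T.anc x ∧ T.par z = y := by
  induction x using T.rec_dep with
  | h0 =>
    rw [T.anc_root] at h
    simp at h
  | h1 x hx ih =>
    rw [T.anc_eq hx, Finset.mem_insert] at h
    rcases h with h | h
    · exact absurd h hne
    · by_cases hy : y = T.par x
      · exact ⟨x, T.mem_anc_self hx, hy.symm⟩
      · obtain ⟨z, hz, hz'⟩ := ih h hy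
        refine ⟨z, ?_, hz'⟩
        rw [T.anc_eq hx]
        exact Finset.mem_insert_of_mem hz

/-- The top vertex on the way from the root to `x`. -/
theorem exists_top {x : V} (h : x ≠ T.root) : ∃ z, z ∈ T.anc x ∧ T.par z = T.root := by
  induction x using T.rec_dep with
  | h0 => exact absurd rfl h
  | h1 x hx ih =>
    by_cases hp : T.par x = T.root
    · exact ⟨x, T.mem_anc_self hx, hp⟩
    · obtain ⟨z, hz, hz'⟩ := ih hp
      refine ⟨z, ?_, hz'⟩
      rw [T.anc_eq hx]
      exact Finset.mem_insert_of_mem hz

/-- The span of a set of lamps and a position. -/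
def span (f : Finset V) (x : V) : Finset V := (insert x f).biUnion T.anc

theorem mem_span {f : Finset V} {x y : V} :
    y ∈ T.span f x ↔ ∃ z, (z = x ∨ z ∈ f) ∧ y ∈ T.anc z := by
  unfold span
  simp only [Finset.mem_biUnion, Finset.mem_insert]

theorem dep_le_card (f : Finset V) (x : V) : T.dep x ≤ (T.span f x).card := by
  rw [← T.card_anc x]
  refine Finset.card_le_card fun y hy => ?_
  exact T.mem_span.2 ⟨x, Or.inl rfl, hy⟩

/-- The cost of a configuration. -/
def cost (f : Finset V) (x : V) : ℤ := 2 * ((T.span f x).card : ℤ) - T.dep x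

theorem dep_le_cost (f : Finset V) (x : V) : (T.dep x : ℤ) ≤ T.cost f x := by
  have := T.dep_le_card f x
  unfold cost
  omega

/-- A lit lamp far away is costly. -/
theorem lamp_le_cost (f : Finset V) (x y : V) (hy : y ∈ f) : (T.dep y : ℤ) ≤ T.cost f x := by
  have h1 := T.dep_le_card f x
  have h2 : T.dep y ≤ (T.span f x).card := by
    rw [← T.card_anc y]
    refine Finset.card_le_card fun z hz => ?_
    exact T.mem_span.2 ⟨y, Or.inr hy, hz⟩
  unfold cost
  omega

/-- Two configurations are joined by a switch-walk-switch move. -/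
def Move (f : Finset V) (x : V) (f' : Finset V) (x' : V) : Prop :=
  T.Adj x x' ∧ ∀ y, y ≠ x → y ≠ x' → (y ∈ f ↔ y ∈ f')

theorem Move.symm {f f' : Finset V} {x x' : V} (h : T.Move f x f' x') : T.Move f' x' f x :=
  ⟨Adj.symm T h.1, fun y h1 h2 => (h.2 y h2 h1).symm⟩

theorem cost_move {f f' : Finset V} {x x' : V} (h : T.Move f x f' x') :
    T.cost f' x' ≤ T.cost f x + 1 := by
  obtain ⟨hadj, hf⟩ := h
  rcases hadj with ⟨hx, rfl⟩ | ⟨hx', rfl⟩
  · -- moving down to the parent
    have hsub : T.span f' (T.par x) ⊆ T.span f x := by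
      intro y hy
      obtain ⟨z, hz, hyz⟩ := T.mem_span.1 hy
      have hpar : T.anc (T.par x) ⊆ T.anc x := by
        rw [T.anc_eq hx]
        exact Finset.subset_insert _ _
      rcases hz with rfl | hz
      · exact T.mem_span.2 ⟨x, Or.inl rfl, hpar hyz⟩
      · by_cases h1 : z = x
        · exact T.mem_span.2 ⟨x, Or.inl rfl, h1 ▸ hyz⟩
        · by_cases h2 : z = T.par x
          · exact T.mem_span.2 ⟨x, Or.inl rfl, hpar (h2 ▸ hyz)⟩
          · exact T.mem_span.2 ⟨z, Or.inr ((hf z h1 h2).2 hz), hyz⟩
    have h1 := Finset.card_le_card hsub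
    have h2 := T.dep_par x hx
    unfold cost
    omega
  · -- moving up to a child
    have hsub : T.span f' x' ⊆ insert x' (T.span f (T.par x')) := by
      intro y hy
      obtain ⟨z, hz, hyz⟩ := T.mem_span.1 hy
      have key : y ∈ T.anc x' → y ∈ insert x' (T.span f (T.par x')) := by
        intro h
        rw [T.anc_eq hx', Finset.mem_insert] at h
        rw [Finset.mem_insert]
        rcases h with h | h
        · exact Or.inl h
        · exact Or.inr (T.mem_span.2 ⟨_, Or.inl rfl, h⟩)
      rcases hz with rfl | hz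
      · exact key hyz
      · by_cases h1 : z = T.par x'
        · rw [Finset.mem_insert]
          exact Or.inr (T.mem_span.2 ⟨_, Or.inl rfl, h1 ▸ hyz⟩)
        · by_cases h2 : z = x'
          · exact key (h2 ▸ hyz)
          · rw [Finset.mem_insert]
            exact Or.inr (T.mem_span.2 ⟨z, Or.inr ((hf z h1 h2).2 hz), hyz⟩)
    have h1 := Finset.card_le_card hsub
    have h2 := Finset.card_insert_le x' (T.span f (T.par x'))
    have h3 := T.dep_par x' hx'
    unfold cost
    omega

/-- From every non-exceptional configuration other than the initial one there is a move that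
decreases the cost. -/
theorem exists_move {f : Finset V} {x : V} (hne : ¬ (f = {T.root} ∧ x = T.root))
    (h0 : ¬ (f = ∅ ∧ x = T.root)) : ∃ (f' : Finset V) (x' : V), T.Move f x f' x' ∧
      T.cost f' x' + 1 ≤ T.cost f x ∧ ¬ (f' = {T.root} ∧ x' = T.root) := by
  by_cases hc : ∃ y ∈ T.span f x, T.par y = x
  · obtain ⟨y, hy, hyx⟩ := hc
    have hyroot : y ≠ T.root := by
      obtain ⟨z, -, hz⟩ := T.mem_span.1 hy
      exact T.ne_root_of_mem hz
    refine ⟨f, y, ⟨Or.inr ⟨hyroot, hyx.symm⟩, fun _ _ _ => Iff.rfl⟩, ?_,
      fun h => hyroot h.2⟩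
    have hsub : T.span f y ⊆ T.span f x := by
      intro w hw
      obtain ⟨z, hz, hwz⟩ := T.mem_span.1 hw
      rcases hz with rfl | hz
      · obtain ⟨z', hz', hyz⟩ := T.mem_span.1 hy
        exact T.mem_span.2 ⟨z', hz', T.anc_subset hyz hwz⟩
      · exact T.mem_span.2 ⟨z, Or.inr hz, hwz⟩
    have h1 := Finset.card_le_card hsub
    have h2 := T.dep_par y hyroot
    rw [hyx] at h2
    unfold cost
    omega
  · push Not at hc
    by_cases hx : x = T.root
    · exfalso
      -- no lamp outside the root
      have h1 : ∀ z ∈ f, z = T.root := by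
        intro z hz
        by_contra hzr
        obtain ⟨w, hw, hw'⟩ := T.exists_top hzr
        exact hc w (T.mem_span.2 ⟨z, Or.inr hz, hw⟩) (hw'.trans hx.symm)
      rcases Finset.eq_empty_or_nonempty f with h2 | ⟨z, hz⟩
      · exact h0 ⟨h2, hx⟩
      · refine hne ⟨?_, hx⟩
        ext w
        rw [Finset.mem_singleton]
        constructor
        · exact h1 w
        · rintro rfl
          rwa [← h1 z hz]
    · refine ⟨(f.erase x).filter (fun z => z ≠ T.root ∨ T.par x ≠ T.root), T.par x,
        ⟨Or.inl ⟨hx, rfl⟩, ?_⟩, ?_, ?_⟩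
      · intro y h1 h2
        rw [Finset.mem_filter, Finset.mem_erase]
        constructor
        · intro h3
          refine ⟨⟨h1, h3⟩, ?_⟩
          by_contra h4
          push Not at h4
          exact h2 (h4.1.trans h4.2.symm)
        · exact fun h3 => h3.1.2
      · have hxmem : x ∈ T.span f x := T.mem_span.2 ⟨x, Or.inl rfl, T.mem_anc_self hx⟩
        have hsub : T.span ((f.erase x).filter (fun z => z ≠ T.root ∨ T.par x ≠ T.root))
            (T.par x) ⊆ (T.span f x).erase x := by
          intro w hw
          obtain ⟨z, hz, hwz⟩ := T.mem_span.1 hw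
          rw [Finset.mem_erase]
          rcases hz with rfl | hz
          · have h1 : w ∈ T.anc x := by
              rw [T.anc_eq hx]
              exact Finset.mem_insert_of_mem hwz
            refine ⟨?_, T.mem_span.2 ⟨x, Or.inl rfl, h1⟩⟩
            rintro rfl
            have h2 := T.dep_le_of_mem hwz
            have h3 := T.dep_par w hx
            omega
          · rw [Finset.mem_filter, Finset.mem_erase] at hz
            refine ⟨?_, T.mem_span.2 ⟨z, Or.inr hz.1.2, hwz⟩⟩
            rintro rfl
            obtain ⟨z', h1, h2⟩ := T.exists_child hwz (Ne.symm hz.1.1)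
            exact hc z' (T.mem_span.2 ⟨z, Or.inr hz.1.2, h1⟩) h2
        have h1 := Finset.card_le_card hsub
        rw [Finset.card_erase_of_mem hxmem] at h1
        have h2 : 0 < (T.span f x).card := Finset.card_pos.2 ⟨x, hxmem⟩
        have h3 := T.dep_par x hx
        unfold cost
        omega
      · rintro ⟨h1, h2⟩
        have h3 : T.root ∈ (f.erase x).filter (fun z => z ≠ T.root ∨ T.par x ≠ T.root) := by
          rw [h1]
          exact Finset.mem_singleton_self _
        rw [Finset.mem_filter] at h3
        rcases h3.2 with h4 | h4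
        · exact h4 rfl
        · exact h4 h2

end RTree

/-! ## The word length -/

/-- A group whose Cayley graph is the switch-walk-switch lamplighter graph over a tree. -/
structure LModel {V : Type v} [DecidableEq V] (T : RTree V) (G : Type u) [Group G]
    (S : Set G) where
  F : G → Finset V
  pos : G → V
  F_one : F 1 = ∅
  pos_one : pos 1 = T.root
  inj : ∀ g h, F g = F h → pos g = pos h → g = h
  surj : ∀ f x, ∃ g, F g = f ∧ pos g = x
  step : ∀ g h, (∃ s, (s ∈ S ∨ s⁻¹ ∈ S) ∧ h = g * s) ↔ T.Move (F g) (pos g) (F h) (pos h)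

namespace LModel

variable {V : Type v} [DecidableEq V] {T : RTree V} {G : Type u} [Group G] {S : Set G}
  (M : LModel T G S)

/-- The cost of an element. -/
def cst (g : G) : ℤ := T.cost (M.F g) (M.pos g)

theorem cst_one : M.cst 1 = 0 := by
  unfold cst RTree.cost RTree.span
  rw [M.F_one, M.pos_one, T.dep_root]
  simp [RTree.anc_root]

theorem cst_nonneg (g : G) : 0 ≤ M.cst g :=
  le_trans (Int.natCast_nonneg _) (T.dep_le_cost _ _)

/-- The exceptional element. -/
def Exc (g : G) : Prop := M.F g = {T.root} ∧ M.pos g = T.root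

theorem exists_len (n : ℕ) : ∀ g, ¬ M.Exc g → M.cst g ≤ n →
    g ∈ Subgroup.closure S ∧ wordLen S g ≤ n := by
  have hone : ∀ g, (M.F g = ∅ ∧ M.pos g = T.root) → g = 1 := fun g h =>
    M.inj g 1 (h.1.trans M.F_one.symm) (h.2.trans M.pos_one.symm)
  induction n with
  | zero =>
    intro g hg hc
    by_cases h0 : M.F g = ∅ ∧ M.pos g = T.root
    · rw [hone g h0]
      exact ⟨Subgroup.one_mem _, by rw [wordLen_one]⟩
    · exfalso
      obtain ⟨f', x', hmove, hcost, -⟩ := T.exists_move hg h0
      have h1 := T.dep_le_cost f' x'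
      have h2 : T.cost (M.F g) (M.pos g) ≤ 0 := by exact_mod_cast hc
      omega
  | succ n ih =>
    intro g hg hc
    by_cases h0 : M.F g = ∅ ∧ M.pos g = T.root
    · rw [hone g h0]
      exact ⟨Subgroup.one_mem _, by rw [wordLen_one]; omega⟩
    · obtain ⟨f', x', hmove, hcost, hexc⟩ := T.exists_move hg h0
      obtain ⟨h, rfl, rfl⟩ := M.surj f' x'
      have h1 : M.cst h ≤ n := by
        have h2 : T.cost (M.F g) (M.pos g) ≤ ((n + 1 : ℕ) : ℤ) := hc
        unfold cst
        push_cast at h2
        omega
      obtain ⟨h2, h3⟩ := ih h hexc h1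
      obtain ⟨s, hs, rfl⟩ := (M.step h g).2 (RTree.Move.symm T hmove)
      have hsc : s ∈ Subgroup.closure S := by
        rcases hs with h | h
        · exact Subgroup.subset_closure h
        · simpa using Subgroup.inv_mem _ (Subgroup.subset_closure h)
      refine ⟨Subgroup.mul_mem _ h2 hsc, ?_⟩
      refine (wordLen_mul_le h2 hsc).trans ?_
      have := wordLen_le (S := S) [s] (by simpa using hs)
      simp at this
      omega

theorem len_le {g : G} (hg : ¬ M.Exc g) : (wordLen S g : ℤ) ≤ M.cst g := by
  have h0 := M.cst_nonneg g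
  have := (M.exists_len (M.cst g).toNat g hg (Int.self_le_toNat _)).2
  omega

include M in
theorem gen : Subgroup.closure S = ⊤ := by
  rw [eq_top_iff]
  rintro g -
  by_cases hg : M.Exc g
  · -- go to a child and back
    obtain ⟨h, hF, hp⟩ := M.surj ∅ (T.ch true T.root)
    have hne : ¬ M.Exc h := by
      intro hh
      rw [Exc, hp] at hh
      exact T.ch_ne _ _ hh.2
    have h1 := (M.exists_len (M.cst h).toNat h hne (Int.self_le_toNat _)).1
    obtain ⟨s, hs, rfl⟩ := (M.step h g).2 (by
      rw [hF, hp, hg.1, hg.2]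
      refine ⟨Or.inl ⟨T.ch_ne _ _, (T.par_ch _ _).symm⟩, ?_⟩
      intro y _ hy
      simp [hy])
    refine Subgroup.mul_mem _ h1 ?_
    rcases hs with h | h
    · exact Subgroup.subset_closure h
    · simpa using Subgroup.inv_mem _ (Subgroup.subset_closure h)
  · exact (M.exists_len (M.cst g).toNat g hg (Int.self_le_toNat _)).1

theorem cst_le (g : G) : M.cst g ≤ wordLen S g := by
  generalize hn : wordLen S g = n
  induction n generalizing g with
  | zero =>
    have : g = 1 := eq_one_of_wordLen (by rw [M.gen]; trivial) hn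
    rw [this, M.cst_one]
    rfl
  | succ n ih =>
    obtain ⟨g', s, -, hs, rfl, hl⟩ := exists_step (by rw [M.gen]; trivial) hn
    have h1 := ih g' hl
    have h2 := T.cost_move ((M.step g' (g' * s)).1 ⟨s, hs, rfl⟩)
    have h3 : M.cst (g' * s) ≤ M.cst g' + 1 := h2
    push_cast
    omega

theorem len_eq {g : G} (hg : ¬ M.Exc g) : (wordLen S g : ℤ) = M.cst g :=
  le_antisymm (M.len_le hg) (M.cst_le g)

end LModel

end Pool.Agent.V1125
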