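import Pool.Agent.V1125.TreeLamp

/-!
# Lamplighters over trees: ends, retreat depth and spheres
-/

set_option autoImplicit false

namespace Pool.Agent.V1125

universe u v

namespace RTree

variable {V : Type v} [DecidableEq V] (T : RTree V)

/-- The ball of radius `m`. -/
noncomputable def ballF (m : ℕ) : Finset V := (T.fin_ball m).toFinset

theorem mem_ballF {m : ℕ} {x : V} : x ∈ T.ballF m ↔ T.dep x ≤ m := by
  unfold ballF
  rw [Set.Finite.mem_toFinset]
  rfl

/-- The punctured ball. -/
noncomputable def pball (m : ℕ) : Finset V := (T.ballF m).erase T.root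

theorem mem_pball {m : ℕ} {x : V} : x ∈ T.pball m ↔ x ≠ T.root ∧ T.dep x ≤ m := by
  unfold pball
  rw [Finset.mem_erase, mem_ballF]

theorem span_subset {m : ℕ} {f : Finset V} {x : V} (hf : f ⊆ T.ballF m) (hx : T.dep x ≤ m) :
    T.span f x ⊆ T.pball m := by
  intro y hy
  obtain ⟨z, hz, hyz⟩ := T.mem_span.1 hy
  refine T.mem_pball.2 ⟨T.ne_root_of_mem hyz, (T.dep_le_of_mem hyz).trans ?_⟩
  rcases hz with rfl | hz
  · exact hx
  · exact T.mem_ballF.1 (hf hz)

theorem subset_span (m : ℕ) (x : V) : T.pball m ⊆ T.span (T.ballF m) x := by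
  intro y hy
  obtain ⟨h1, h2⟩ := T.mem_pball.1 hy
  exact T.mem_span.2 ⟨y, Or.inr (T.mem_ballF.2 h2), T.mem_anc_self h1⟩

theorem span_ball {m : ℕ} {x : V} (hx : T.dep x ≤ m) : T.span (T.ballF m) x = T.pball m :=
  Finset.Subset.antisymm (T.span_subset subset_rfl hx) (T.subset_span m x)

/-- The standard ray. -/
def ray (n : ℕ) : V := (T.ch true)^[n] T.root

theorem ray_succ (n : ℕ) : T.ray (n + 1) = T.ch true (T.ray n) := Function.iterate_succ_apply' _ _ _

theorem dep_ray (n : ℕ) : T.dep (T.ray n) = n := by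
  induction n with
  | zero => exact T.dep_root
  | succ n ih => rw [ray_succ, dep_ch, ih]

theorem par_ray (n : ℕ) : T.par (T.ray (n + 1)) = T.ray n := by
  rw [ray_succ, T.par_ch]

theorem ray_ne (n : ℕ) : T.ray (n + 1) ≠ T.root := by
  rw [ray_succ]
  exact T.ch_ne _ _

theorem adj_ch (b : Bool) (x : V) : T.Adj x (T.ch b x) := Or.inr ⟨T.ch_ne _ _, (T.par_ch _ _).symm⟩

theorem comparable {x y z : V} (hy : y ∈ T.anc x) (hz : z ∈ T.anc x) :
    y ∈ T.anc z ∨ z ∈ T.anc y := by
  induction x using T.rec_dep with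
  | h0 =>
    rw [T.anc_root] at hy
    simp at hy
  | h1 x hx ih =>
    have hy' := hy
    have hz' := hz
    rw [T.anc_eq hx, Finset.mem_insert] at hy hz
    rcases hy with rfl | hy
    · exact Or.inr hz'
    · rcases hz with rfl | hz
      · exact Or.inl hy'
      · exact ih hy hz

theorem dep_lt_of_mem {x y : V} (h : y ∈ T.anc x) (hne : y ≠ x) : T.dep y < T.dep x := by
  have hx : x ≠ T.root := by
    rintro rfl
    rw [T.anc_root] at h
    simp at h
  rw [T.anc_eq hx, Finset.mem_insert] at h
  rcases h with h | h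
  · exact absurd h hne
  · have h1 := T.dep_le_of_mem h
    have h2 := T.dep_par x hx
    omega

theorem eq_of_dep {x y z : V} (hy : y ∈ T.anc x) (hz : z ∈ T.anc x) (h : T.dep y = T.dep z) :
    y = z := by
  by_contra hne
  rcases T.comparable hy hz with h1 | h1
  · have := T.dep_lt_of_mem h1 hne
    omega
  · have := T.dep_lt_of_mem h1 (Ne.symm hne)
    omega

theorem mem_anc_iterate {x : V} (hx : x ≠ T.root) (n : ℕ) : x ∈ T.anc ((T.ch true)^[n] x) := by
  induction n with
  | zero => exact T.mem_anc_self hx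
  | succ n ih =>
    rw [Function.iterate_succ_apply', T.anc_eq (T.ch_ne _ _), T.par_ch]
    exact Finset.mem_insert_of_mem ih

theorem dep_iterate (x : V) (n : ℕ) : T.dep ((T.ch true)^[n] x) = T.dep x + n := by
  induction n with
  | zero => rfl
  | succ n ih =>
    rw [Function.iterate_succ_apply', dep_ch, ih]
    ring

/-! ### The subtree below `w` -/

section Sub

variable {m : ℕ} {w : V}

/-- Vertices outside the subtree of `w` have descendants of depth `m` outside it. -/
theorem exists_ext (hw : T.dep w ≤ m) {x : V} (hx : x ≠ T.root) (hxm : T.dep x ≤ m)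
    (hxw : w ∉ T.anc x) : ∃ y, x ∈ T.anc y ∧ T.dep y = m ∧ w ∉ T.anc y := by
  have key : ∀ x : V, x ≠ T.root → T.dep x ≤ m → w ∉ T.anc x → x ∉ T.anc w →
      ∃ y, x ∈ T.anc y ∧ T.dep y = m ∧ w ∉ T.anc y := by
    intro x hx hxm hxw hxw'
    refine ⟨(T.ch true)^[m - T.dep x] x, T.mem_anc_iterate hx _, ?_, ?_⟩
    · rw [T.dep_iterate]
      omega
    · intro h
      rcases T.comparable h (T.mem_anc_iterate hx _) with h1 | h1
      · exact hxw h1
      · exact hxw' h1
  by_cases hxw' : x ∈ T.anc w
  · have hne : x ≠ w := by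
      rintro rfl
      exact hxw (T.mem_anc_self hx)
    have hlt := T.dep_lt_of_mem hxw' hne
    obtain ⟨b, hb⟩ : ∃ b, T.ch b x ∉ T.anc w := by
      by_contra hcon
      push Not at hcon
      exact T.ch_inj x (T.eq_of_dep (hcon true) (hcon false) (by rw [dep_ch, dep_ch]))
    have h1 : w ∉ T.anc (T.ch b x) := by
      rw [T.anc_eq (T.ch_ne _ _), T.par_ch, Finset.mem_insert, not_or]
      refine ⟨?_, hxw⟩
      intro h
      apply hb
      rw [← h]
      have hwr : w ≠ T.root := T.ne_root (by omega)
      exact T.mem_anc_self hwr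
    obtain ⟨y, hy1, hy2, hy3⟩ := key (T.ch b x) (T.ch_ne _ _) (by rw [dep_ch]; omega) h1 hb
    refine ⟨y, T.anc_subset hy1 ?_, hy2, hy3⟩
    rw [T.anc_eq (T.ch_ne _ _), T.par_ch]
    exact Finset.mem_insert_of_mem (T.mem_anc_self hx)
  · exact key x hx hxm hxw hxw'

/-- The invariant: outside the subtree of `w` the span is the full ball, and while the cursor is
outside the subtree the span is not larger than that of the ball minus one. -/
def Inv (m : ℕ) (w : V) (f : Finset V) (x : V) : Prop :=
  (∀ y, w ∉ T.anc y → (y ∈ T.span f x ↔ y ∈ T.pball m)) ∧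
    (w ∉ T.anc x → (T.span f x).card + 1 ≤ (T.pball m).card)

theorem inv_move {r : ℕ} (hw : T.dep w + r = m) {f f' : Finset V} {x x' : V}
    (hI : T.Inv m w f x) (hmove : T.Move f x f' x')
    (h1 : 2 * ((T.pball m).card : ℤ) - m ≤ T.cost f x)
    (h2 : T.cost f' x' ≤ 2 * ((T.pball m).card : ℤ) - m + r) : T.Inv m w f' x' := by
  obtain ⟨hI1, hI2⟩ := hI
  obtain ⟨hadj, hf⟩ := hmove
  have hsub : ∀ {z y : V}, z ∈ T.anc y → y ∈ T.anc z → z = y := by
    intro z y h h'
    by_contra hne
    have e1 := T.dep_lt_of_mem h hne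
    have e2 := T.dep_le_of_mem h'
    omega
  by_cases hx' : w ∈ T.anc x'
  · refine ⟨fun v hv => ⟨fun h => ?_, fun h => ?_⟩, fun h => absurd hx' h⟩
    · obtain ⟨z, hz, hvz⟩ := T.mem_span.1 h
      have hcase : v ∈ T.anc x' → v ∈ T.pball m := by
        intro h3
        rcases T.comparable h3 hx' with h4 | h4
        · have := T.dep_le_of_mem h4
          exact T.mem_pball.2 ⟨T.ne_root_of_mem h3, by omega⟩
        · exact absurd h4 hv
      by_cases hz1 : z = x'
      · exact hcase (hz1 ▸ hvz)
      · by_cases hz2 : z = x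
        · exact (hI1 v hv).1 (T.mem_span.2 ⟨x, Or.inl rfl, hz2 ▸ hvz⟩)
        · rcases hz with hz | hz
          · exact absurd hz hz1
          · exact (hI1 v hv).1 (T.mem_span.2 ⟨z, Or.inr ((hf z hz2 hz1).2 hz), hvz⟩)
    · obtain ⟨z, hz, hvz⟩ := T.mem_span.1 ((hI1 v hv).2 h)
      by_cases hz1 : z = x'
      · exact T.mem_span.2 ⟨x', Or.inl rfl, hz1 ▸ hvz⟩
      · by_cases hz2 : z = x
        · refine T.mem_span.2 ⟨x', Or.inl rfl, ?_⟩
          rw [hz2] at hvz
          rcases hadj with ⟨ha, hb⟩ | ⟨ha, hb⟩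
          · rw [T.anc_eq ha, Finset.mem_insert] at hvz
            rcases hvz with h3 | h3
            · exfalso
              apply hv
              rw [h3, T.anc_eq ha, ← hb]
              exact Finset.mem_insert_of_mem hx'
            · rwa [hb]
          · rw [T.anc_eq ha, ← hb]
            exact Finset.mem_insert_of_mem hvz
        · rcases hz with hz | hz
          · exact absurd hz hz2
          · exact T.mem_span.2 ⟨z, Or.inr ((hf z hz2 hz1).1 hz), hvz⟩
  · by_cases hx : w ∈ T.anc x
    · -- leaving the subtree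
      have hxx' : x ≠ T.root ∧ x' = T.par x ∧ x = w := by
        rcases hadj with ⟨ha, hb⟩ | ⟨ha, hb⟩
        · refine ⟨ha, hb, ?_⟩
          rw [T.anc_eq ha, Finset.mem_insert] at hx
          rcases hx with h3 | h3
          · exact h3.symm
          · rw [← hb] at h3
            exact absurd h3 hx'
        · exfalso
          apply hx'
          rw [T.anc_eq ha, ← hb]
          exact Finset.mem_insert_of_mem hx
      obtain ⟨ha, hb, hc⟩ := hxx'
      have hanc : T.anc x = insert x (T.anc x') := by rw [T.anc_eq ha, ← hb]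
      refine ⟨fun v hv => ⟨fun h => ?_, fun h => ?_⟩, fun _ => ?_⟩
      · obtain ⟨z, hz, hvz⟩ := T.mem_span.1 h
        refine (hI1 v hv).1 ?_
        by_cases hz1 : z = x'
        · refine T.mem_span.2 ⟨x, Or.inl rfl, ?_⟩
          rw [hanc, ← hz1]
          exact Finset.mem_insert_of_mem hvz
        · by_cases hz2 : z = x
          · exact T.mem_span.2 ⟨x, Or.inl rfl, hz2 ▸ hvz⟩
          · rcases hz with hz | hz
            · exact absurd hz hz1
            · exact T.mem_span.2 ⟨z, Or.inr ((hf z hz2 hz1).2 hz), hvz⟩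
      · obtain ⟨z, hz, hvz⟩ := T.mem_span.1 ((hI1 v hv).2 h)
        by_cases hz1 : z = x'
        · exact T.mem_span.2 ⟨x', Or.inl rfl, hz1 ▸ hvz⟩
        · by_cases hz2 : z = x
          · refine T.mem_span.2 ⟨x', Or.inl rfl, ?_⟩
            rw [hz2, hanc, Finset.mem_insert] at hvz
            rcases hvz with h3 | h3
            · exfalso
              apply hv
              rw [h3]
              exact hx
            · exact h3
          · rcases hz with hz | hz
            · exact absurd hz hz2
            · exact T.mem_span.2 ⟨z, Or.inr ((hf z hz2 hz1).1 hz), hvz⟩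
      · have h3 := T.dep_par x ha
        rw [← hb, hc] at h3
        unfold cost at h2
        omega
    · -- moving outside the subtree
      have hcard := hI2 hx
      have hdep : T.dep x + 2 ≤ m := by
        unfold cost at h1
        omega
      have hdep' : T.dep x' + 1 ≤ m := by
        rcases hadj with ⟨ha, hb⟩ | ⟨ha, hb⟩
        · have := T.dep_par x ha
          rw [← hb] at this
          omega
        · have := T.dep_par x' ha
          rw [← hb] at this
          omega
      have hfwd : ∀ v, w ∉ T.anc v → v ∈ T.span f' x' → v ∈ T.pball m := by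
        intro v hv h
        obtain ⟨z, hz, hvz⟩ := T.mem_span.1 h
        by_cases hz1 : z = x'
        · rw [hz1] at hvz
          have := T.dep_le_of_mem hvz
          exact T.mem_pball.2 ⟨T.ne_root_of_mem hvz, by omega⟩
        · by_cases hz2 : z = x
          · rw [hz2] at hvz
            have := T.dep_le_of_mem hvz
            exact T.mem_pball.2 ⟨T.ne_root_of_mem hvz, by omega⟩
          · rcases hz with hz | hz
            · exact absurd hz hz1
            · exact (hI1 v hv).1 (T.mem_span.2 ⟨z, Or.inr ((hf z hz2 hz1).2 hz), hvz⟩)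
      refine ⟨fun v hv => ⟨hfwd v hv, fun h => ?_⟩, fun _ => ?_⟩
      · obtain ⟨e1, e2⟩ := T.mem_pball.1 h
        obtain ⟨v', hv1, hv2, hv3⟩ := T.exists_ext (by omega : T.dep w ≤ m) e1 e2 hv
        have hv' : v' ∈ T.pball m := by
          refine T.mem_pball.2 ⟨?_, hv2.le⟩
          rintro rfl
          rw [T.anc_root] at hv1
          simp at hv1
        obtain ⟨z, hz, hvz⟩ := T.mem_span.1 ((hI1 v' hv3).2 hv')
        have hzm := T.dep_le_of_mem hvz
        have hz2 : z ≠ x := by
          rintro rfl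
          omega
        have hz1 : z ≠ x' := by
          rintro rfl
          omega
        rcases hz with hz | hz
        · exact absurd hz hz2
        · exact T.mem_span.2 ⟨z, Or.inr ((hf z hz2 hz1).1 hz), T.anc_subset hvz hv1⟩
      · have hss : T.span f' x' ⊆ T.span f x := by
          intro v hv
          by_cases hvw : w ∈ T.anc v
          · obtain ⟨z, hz, hvz⟩ := T.mem_span.1 hv
            have hzw : w ∈ T.anc z := T.anc_subset hvz hvw
            have hz1 : z ≠ x' := by
              rintro rfl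
              exact hx' hzw
            have hz2 : z ≠ x := by
              rintro rfl
              exact hx hzw
            rcases hz with hz | hz
            · exact absurd hz hz1
            · exact T.mem_span.2 ⟨z, Or.inr ((hf z hz2 hz1).2 hz), hvz⟩
          · exact (hI1 v hvw).2 (hfwd v hvw hv)
        have := Finset.card_le_card hss
        omega

end Sub

end RTree

namespace LModel

variable {V : Type v} [DecidableEq V] {T : RTree V} {G : Type u} [Group G] {S : Set G}
  (M : LModel T G S)

theorem comp_move {A : Set G} {g h : G} (hg : g ∈ A) (hh : h ∈ A)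
    (hm : T.Move (M.F g) (M.pos g) (M.F h) (M.pos h)) : h ∈ comp S A g := by
  obtain ⟨s, hs, rfl⟩ := (M.step g h).2 hm
  exact comp_step hg hs hh

/-- Configurations inside the ball of radius `m`. -/
def box (m : ℕ) : Set G := {g | M.F g ⊆ T.ballF m ∧ T.dep (M.pos g) ≤ m}

theorem finite_box (m : ℕ) : (M.box m).Finite := by
  have hfin : (((T.ballF m).powerset : Set (Finset V)) ×ˢ (T.ballF m : Set V)).Finite :=
    (Finset.finite_toSet _).prod (Finset.finite_toSet _)
  refine Set.Finite.of_injOn (f := fun g => (M.F g, M.pos g)) ?_ ?_ hfin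
  · rintro g ⟨h1, h2⟩
    exact ⟨Finset.mem_coe.2 (Finset.mem_powerset.2 h1), Finset.mem_coe.2 (T.mem_ballF.2 h2)⟩
  · intro g _ h _ hgh
    obtain ⟨h1, h2⟩ := Prod.mk.inj hgh
    exact M.inj g h h1 h2

include M in
theorem infinite : Infinite G := by
  choose f hf using fun n : ℕ => M.surj ∅ (T.ray n)
  refine Infinite.of_injective f fun i j hij => ?_
  have h1 := (hf i).2
  rw [hij, (hf j).2] at h1
  have h2 := congrArg T.dep h1
  rw [T.dep_ray, T.dep_ray] at h2
  exact h2.symm

include M in
/-- The retreat depth is unbounded. -/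
theorem unbounded (D : ℕ) : ∃ g : G, D ≤ retreatDepth S g := by
  obtain ⟨g, hF, hp⟩ := M.surj (T.ballF (D + 1)) T.root
  have hinf := M.infinite
  have hg : 2 * ((T.pball (D + 1)).card : ℤ) ≤ wordLen S g := by
    refine le_trans ?_ (M.cst_le g)
    unfold cst RTree.cost
    rw [hF, hp, T.span_ball (by rw [T.dep_root]; omega), T.dep_root]
    simp
  refine ⟨g, le_retreatDepth (M.finite_box (D + 1)) (g := g)
    ⟨by rw [hF], by rw [hp, T.dep_root]; omega⟩ ?_ (exists_infinite_comp M.gen g)⟩
  rintro x ⟨h1, h2⟩ s hs hxs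
  obtain ⟨hadj, hf⟩ := (M.step x (x * s)).1 ⟨s, hs, rfl⟩
  have hdep' : T.dep (M.pos (x * s)) ≤ T.dep (M.pos x) + 1 := by
    rcases hadj with ⟨ha, hb⟩ | ⟨ha, hb⟩
    · have := T.dep_par _ ha
      rw [← hb] at this
      omega
    · have := T.dep_par _ ha
      rw [← hb] at this
      omega
  have hdep : D + 1 ≤ T.dep (M.pos x) := by
    by_contra hlt
    push Not at hlt
    apply hxs
    refine ⟨fun y hy => ?_, by omega⟩
    by_cases hy1 : y = M.pos x
    · rw [hy1]
      exact T.mem_ballF.2 h2
    · by_cases hy2 : y = M.pos (x * s)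
      · rw [hy2]
        exact T.mem_ballF.2 (by omega)
      · exact h1 ((hf y hy1 hy2).2 hy)
  have hne : ¬ M.Exc x := by
    intro h
    rw [h.2, T.dep_root] at hdep
    omega
  have h3 := M.len_le hne
  have h4 := Finset.card_le_card (T.span_subset h1 h2)
  unfold cst RTree.cost at h3
  omega

/-! ### Ends -/

/-- Configurations that reach depth `D`. -/
def far (D : ℕ) : Set G := {g | D ≤ T.dep (M.pos g) ∨ ∃ y ∈ M.F g, D ≤ T.dep y}

theorem far_subset (D : ℕ) : M.far D ⊆ outside S D := by
  intro g hg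
  have h1 := M.cst_le g
  have h2 : (D : ℤ) ≤ M.cst g := by
    rcases hg with h | ⟨y, hy, h⟩
    · have := T.dep_le_cost (M.F g) (M.pos g)
      unfold cst
      omega
    · have := T.lamp_le_cost (M.F g) (M.pos g) y hy
      unfold cst
      omega
  show D ≤ wordLen S g
  omega

theorem far_compl (D : ℕ) : (M.far D)ᶜ ⊆ M.box D := by
  intro g hg
  have h1 : ¬ (D ≤ T.dep (M.pos g) ∨ ∃ y ∈ M.F g, D ≤ T.dep y) := hg
  push Not at h1
  exact ⟨fun y hy => T.mem_ballF.2 (h1.2 y hy).le, h1.1.le⟩

theorem walk_root {D : ℕ} (x : V) : ∀ g h : G, M.pos g = x → M.F g = M.F h → M.pos h = T.root →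
    (∃ y ∈ M.F g, D ≤ T.dep y) → h ∈ comp S (M.far D) g := by
  induction x using T.rec_dep with
  | h0 =>
    intro g h hg hF hh hy
    have : g = h := M.inj g h hF (hg.trans hh.symm)
    rw [← this]
    exact comp_refl (Or.inr hy)
  | h1 x hx ih =>
    intro g h hg hF hh hy
    obtain ⟨k, hkF, hkp⟩ := M.surj (M.F g) (T.par x)
    have hk : k ∈ M.far D := Or.inr (by rw [hkF]; exact hy)
    have h1 : k ∈ comp S (M.far D) g := by
      refine M.comp_move (Or.inr hy) hk ?_
      rw [hg, hkF, hkp]
      exact ⟨Or.inl ⟨hx, rfl⟩, fun _ _ _ => Iff.rfl⟩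
    exact comp_trans h1 (ih k h hkp (hkF.trans hF) hh (by rw [hkF]; exact hy))

theorem walk {D : ℕ} {g h : G} (hF : M.F g = M.F h) (hy : ∃ y ∈ M.F g, D ≤ T.dep y) :
    h ∈ comp S (M.far D) g := by
  obtain ⟨k, hkF, hkp⟩ := M.surj (M.F g) T.root
  have h1 := M.walk_root (M.pos g) g k rfl hkF.symm hkp hy
  have h2 := M.walk_root (M.pos h) h k rfl (hF.symm.trans hkF.symm) hkp (by rw [← hF]; exact hy)
  exact comp_trans h1 (comp_symm h2)

theorem clear {D : ℕ} {y : V} (hy : D ≤ T.dep y) (n : ℕ) : ∀ g h : G,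
    ((M.F g).erase y).card = n → y ∈ M.F g → M.F h = {y} → h ∈ comp S (M.far D) g := by
  induction n with
  | zero =>
    intro g h hn hyg hh
    refine M.walk ?_ ⟨y, hyg, hy⟩
    rw [hh]
    ext z
    rw [Finset.mem_singleton]
    constructor
    · intro hz
      by_contra hne
      have : z ∈ (M.F g).erase y := Finset.mem_erase.2 ⟨hne, hz⟩
      rw [Finset.card_eq_zero.1 hn] at this
      simp at this
    · rintro rfl
      exact hyg
  | succ n ih =>
    intro g h hn hyg hh
    obtain ⟨z, hz⟩ := Finset.card_pos.1 (by omega : 0 < ((M.F g).erase y).card)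
    rw [Finset.mem_erase] at hz
    obtain ⟨g₁, h1F, h1p⟩ := M.surj (M.F g) z
    obtain ⟨g₂, h2F, h2p⟩ := M.surj ((M.F g).erase z) (T.ch true z)
    have hyg₂ : y ∈ M.F g₂ := by
      rw [h2F]
      exact Finset.mem_erase.2 ⟨Ne.symm hz.1, hyg⟩
    have e1 : g₁ ∈ comp S (M.far D) g := M.walk h1F.symm ⟨y, hyg, hy⟩
    have e2 : g₂ ∈ comp S (M.far D) g₁ := by
      refine M.comp_move (comp_right e1) (Or.inr ⟨y, hyg₂, hy⟩) ?_
      rw [h1F, h1p, h2F, h2p]
      refine ⟨T.adj_ch _ _, fun u hu _ => ?_⟩
      rw [Finset.mem_erase]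
      exact ⟨fun h => ⟨hu, h⟩, fun h => h.2⟩
    refine comp_trans e1 (comp_trans e2 (ih g₂ h ?_ hyg₂ hh))
    rw [h2F, Finset.erase_right_comm, Finset.card_erase_of_mem (Finset.mem_erase.2 hz), hn]
    rfl

/-- The far region is connected. -/
theorem far_conn {D : ℕ} {g h : G} (hg : g ∈ M.far D) (hh : h ∈ M.far D) :
    h ∈ comp S (M.far D) g := by
  have hy₀ : D ≤ T.dep (T.ray D) := (T.dep_ray D).ge
  obtain ⟨k, hkF, hkp⟩ := M.surj {T.ray D} T.root
  -- every configuration with a far lamp is connected to `k`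
  have key : ∀ g : G, (∃ y ∈ M.F g, D ≤ T.dep y) → k ∈ comp S (M.far D) g := by
    rintro g ⟨y, hyg, hy⟩
    obtain ⟨g₁, h1F, h1p⟩ := M.surj {y} (T.ray D)
    have e1 : g₁ ∈ comp S (M.far D) g := M.clear hy _ g g₁ rfl hyg h1F
    obtain ⟨g₂, h2F, h2p⟩ := M.surj (insert (T.ray D) {y}) (T.ch true (T.ray D))
    have e2 : g₂ ∈ comp S (M.far D) g₁ := by
      refine M.comp_move (comp_right e1)
        (Or.inr ⟨T.ray D, by rw [h2F]; exact Finset.mem_insert_self _ _, hy₀⟩) ?_
      rw [h1F, h1p, h2F, h2p]
      refine ⟨T.adj_ch _ _, fun u hu _ => ?_⟩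
      rw [Finset.mem_insert]
      exact ⟨Or.inr, fun h => h.resolve_left hu⟩
    have e3 : k ∈ comp S (M.far D) g₂ :=
      M.clear hy₀ _ g₂ k rfl (by rw [h2F]; exact Finset.mem_insert_self _ _) hkF
    exact comp_trans e1 (comp_trans e2 e3)
  have key2 : ∀ g ∈ M.far D, k ∈ comp S (M.far D) g := by
    intro g hg
    rcases hg with h1 | h1
    · obtain ⟨g₁, h1F, h1p⟩ := M.surj (insert (T.ch true (M.pos g)) (M.F g))
        (T.ch true (M.pos g))
      have hd : D ≤ T.dep (T.ch true (M.pos g)) := by
        rw [T.dep_ch]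
        omega
      have hl : ∃ y ∈ M.F g₁, D ≤ T.dep y :=
        ⟨_, by rw [h1F]; exact Finset.mem_insert_self _ _, hd⟩
      have e1 : g₁ ∈ comp S (M.far D) g := by
        refine M.comp_move (Or.inl h1) (Or.inr hl) ?_
        rw [h1F, h1p]
        refine ⟨T.adj_ch _ _, fun u _ hu => ?_⟩
        rw [Finset.mem_insert]
        exact ⟨Or.inr, fun h => h.resolve_left hu⟩
      exact comp_trans e1 (key g₁ hl)
    · exact key g h1
  exact comp_trans (key2 g hg) (comp_symm (key2 h hh))

theorem infinite_far (D : ℕ) : (M.far D).Infinite := by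
  intro h
  have hinf := M.infinite
  have := h.union ((M.finite_box D).subset (M.far_compl D))
  rw [Set.union_compl_self] at this
  exact Set.infinite_univ this

include M in
theorem oneEnded : OneEnded S := by
  have hinf := M.infinite
  refine oneEnded_of fun F hF => ?_
  obtain ⟨B, hB⟩ := (hF.image fun g => max (T.dep (M.pos g)) ((M.F g).sup T.dep)).bddAbove
  refine ⟨M.far (B + 1), ?_, (M.finite_box (B + 1)).subset (M.far_compl _),
    fun x hx y hy => M.far_conn hx hy⟩
  intro g hg hgF
  have h1 : max (T.dep (M.pos g)) ((M.F g).sup T.dep) ≤ B := hB ⟨g, hgF, rfl⟩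
  rcases hg with h | ⟨y, hy, h⟩
  · have := le_max_left (T.dep (M.pos g)) ((M.F g).sup T.dep)
    omega
  · have e1 := le_max_right (T.dep (M.pos g)) ((M.F g).sup T.dep)
    have e2 : T.dep y ≤ (M.F g).sup T.dep := Finset.le_sup hy
    omega

theorem mem_infComp {n : ℕ} {g h : G} (h1 : h ∈ comp S (outside S n) g) (h2 : h ∈ M.far n) :
    g ∈ infComp S n := by
  show (comp S (outside S n) g).Infinite
  rw [comp_eq h1]
  refine (M.infinite_far n).mono fun k hk => ?_
  exact comp_mono (M.far_subset n) (M.far_conn h2 hk)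

/-! ### Spheres -/

/-- The full ball with the cursor walking out along the ray is on an outward path. -/
theorem out_path (m : ℕ) {g : G} (hF : M.F g = T.ballF m) (hp : M.pos g = T.ray m) (n : ℕ)
    (hn : (n : ℤ) = 2 * ((T.pball m).card : ℤ) - m) : g ∈ infComp S n := by
  have hcard : ∀ j : ℕ, (T.pball m).card + j ≤ (T.span (T.ballF m) (T.ray (m + j))).card := by
    intro j
    induction j with
    | zero =>
      rw [add_zero, add_zero, T.span_ball (T.dep_ray m).le]
    | succ j ih =>
      have hsub : insert (T.ray (m + (j + 1))) (T.span (T.ballF m) (T.ray (m + j))) ⊆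
          T.span (T.ballF m) (T.ray (m + (j + 1))) := by
        intro y hy
        rw [Finset.mem_insert] at hy
        rcases hy with rfl | hy
        · exact T.mem_span.2 ⟨_, Or.inl rfl, T.mem_anc_self (T.ray_ne _)⟩
        · obtain ⟨z, hz, hyz⟩ := T.mem_span.1 hy
          rcases hz with rfl | hz
          · refine T.mem_span.2 ⟨_, Or.inl rfl, ?_⟩
            show y ∈ T.anc (T.ray (m + j + 1))
            rw [T.anc_eq (T.ray_ne (m + j)), T.par_ray]
            exact Finset.mem_insert_of_mem hyz
          · exact T.mem_span.2 ⟨z, Or.inr hz, hyz⟩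
      have h1 := Finset.card_le_card hsub
      rw [Finset.card_insert_of_notMem] at h1
      · omega
      · intro hy
        obtain ⟨z, hz, hyz⟩ := T.mem_span.1 hy
        have h2 := T.dep_le_of_mem hyz
        rw [T.dep_ray] at h2
        rcases hz with rfl | hz
        · rw [T.dep_ray] at h2
          omega
        · have := T.mem_ballF.1 hz
          omega
  have hout : ∀ (j : ℕ) (h : G), M.F h = T.ballF m → M.pos h = T.ray (m + j) →
      h ∈ outside S n := by
    intro j h hhF hhp
    have h1 := M.cst_le h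
    have h2 := hcard j
    unfold cst RTree.cost at h1
    rw [hhF, hhp, T.dep_ray] at h1
    show n ≤ wordLen S h
    push_cast at h1
    omega
  have hpath : ∀ (j : ℕ) (h : G), M.F h = T.ballF m → M.pos h = T.ray (m + j) →
      h ∈ comp S (outside S n) g := by
    intro j
    induction j with
    | zero =>
      intro h hhF hhp
      have : h = g := M.inj h g (hhF.trans hF.symm) (hhp.trans hp.symm)
      rw [this]
      exact comp_refl (hout 0 g hF hp)
    | succ j ih =>
      intro h hhF hhp
      obtain ⟨k, hkF, hkp⟩ := M.surj (T.ballF m) (T.ray (m + j))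
      refine comp_trans (ih k hkF hkp) (M.comp_move (hout j k hkF hkp) (hout (j + 1) h hhF hhp) ?_)
      rw [hkF, hkp, hhF, hhp]
      exact ⟨Or.inr ⟨T.ray_ne _, (T.par_ray _).symm⟩, fun _ _ _ => Iff.rfl⟩
  obtain ⟨h, hhF, hhp⟩ := M.surj (T.ballF m) (T.ray (m + n))
  refine M.mem_infComp (hpath n h hhF hhp) (Or.inl ?_)
  rw [hhp, T.dep_ray]
  omega

include M in
/-- The spheres are not connected. -/
theorem not_connected (m : ℕ) : ∃ n : ℕ, ∀ r : ℕ, r + 2 ≤ m →
    ¬ ((cayley S).induce (sphereInf S n r)).Connected := by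
  have hmE : m ≤ (T.pball m).card := by
    have h : (T.anc (T.ray m)).card ≤ (T.pball m).card := by
      refine Finset.card_le_card fun y hy => T.mem_pball.2 ⟨T.ne_root_of_mem hy, ?_⟩
      have := T.dep_le_of_mem hy
      rwa [T.dep_ray] at this
    rwa [T.card_anc, T.dep_ray] at h
  obtain ⟨n, hn⟩ : ∃ n : ℕ, (n : ℤ) = 2 * ((T.pball m).card : ℤ) - m :=
    ⟨2 * (T.pball m).card - m, by omega⟩
  refine ⟨n, fun r hr hconn => ?_⟩
  obtain ⟨g₁, h1F, h1p⟩ := M.surj (T.ballF m) (T.ray m)
  obtain ⟨g₂, h2F, h2p⟩ := M.surj ∅ (T.ray n)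
  have hne1 : ¬ M.Exc g₁ := by
    intro h
    have := h.2
    rw [h1p] at this
    have h3 := congrArg T.dep this
    rw [T.dep_ray, T.dep_root] at h3
    omega
  have hne2 : ¬ M.Exc g₂ := by
    intro h
    have h3 := h.1
    rw [h2F] at h3
    simp at h3
  have hl1 : (wordLen S g₁ : ℤ) = n := by
    rw [M.len_eq hne1, cst, RTree.cost, h1F, h1p, T.span_ball (T.dep_ray m).le, T.dep_ray, hn]
  have hl2 : (wordLen S g₂ : ℤ) = n := by
    rw [M.len_eq hne2, cst, RTree.cost, h2F, h2p, T.dep_ray]
    have : T.span ∅ (T.ray n) = T.anc (T.ray n) := by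
      unfold RTree.span
      simp
    rw [this, T.card_anc, T.dep_ray]
    ring
  have hs1 : g₁ ∈ sphereInf S n r := ⟨M.out_path m h1F h1p n hn, by omega⟩
  have hs2 : g₂ ∈ sphereInf S n r := by
    refine ⟨M.mem_infComp (h := g₂) (comp_refl ?_) ?_, by omega⟩
    · show n ≤ wordLen S g₂
      omega
    · left
      rw [h2p, T.dep_ray]
  have hcomp : g₂ ∈ comp S (sphereInf S n r) g₁ := ⟨hs1, hs2, hconn.preconnected _ _⟩
  -- the two children of the root
  set w := T.ray (m - r) with hw
  have hwd : T.dep w = m - r := T.dep_ray _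
  have hchild : ∀ b, w ∉ T.anc (T.ch b T.root) ∧ T.ch b T.root ∈ T.pball m := by
    intro b
    constructor
    · intro h
      have := T.dep_le_of_mem h
      rw [T.dep_ch, T.dep_root, hwd] at this
      omega
    · refine T.mem_pball.2 ⟨T.ch_ne _ _, ?_⟩
      rw [T.dep_ch, T.dep_root]
      omega
  have hout : ∀ z ∈ sphereInf S n r, n ≤ wordLen S z := by
    intro z hz
    obtain ⟨k, hk⟩ := (hz.1 : (comp S (outside S n) z).Infinite).nonempty
    have h3 : z ∈ outside S n := comp_left hk
    exact h3
  have hinv : T.Inv m w (M.F g₂) (M.pos g₂) := by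
    refine comp_invariant (P := fun z => T.Inv m w (M.F z) (M.pos z)) hcomp ?_ ?_
    · show T.Inv m w (M.F g₁) (M.pos g₁)
      rw [h1F, h1p]
      refine ⟨fun y _ => by rw [T.span_ball (T.dep_ray m).le], fun h => ?_⟩
      exfalso
      apply h
      have h3 : T.ray m = (T.ch true)^[r] w := by
        rw [hw]
        unfold RTree.ray
        rw [← Function.iterate_add_apply]
        congr 2
        omega
      rw [h3]
      exact T.mem_anc_iterate (T.ne_root (by omega)) r
    · intro z hz hI s hs hzs
      refine T.inv_move (r := r) (by omega) hI ((M.step z (z * s)).1 ⟨s, hs, rfl⟩)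
        ?_ ?_
      · have hne : ¬ M.Exc z := by
          intro h
          have h3 := (hI.1 _ (hchild true).1).2 (hchild true).2
          rw [h.1, h.2] at h3
          obtain ⟨y, hy, hyz⟩ := T.mem_span.1 h3
          have : y = T.root := by
            rcases hy with h4 | h4
            · exact h4
            · exact Finset.mem_singleton.1 h4
          rw [this, T.anc_root] at hyz
          simp at hyz
        have h3 := M.len_le hne
        have h4 := hout z hz
        have h5 : M.cst z = T.cost (M.F z) (M.pos z) := rfl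
        omega
      · have h3 := M.cst_le (z * s)
        have h4 := hzs.2
        have h5 : M.cst (z * s) = T.cost (M.F (z * s)) (M.pos (z * s)) := rfl
        omega
  have hmem : ∀ b, T.ch b T.root ∈ T.anc (T.ray n) := by
    intro b
    have h3 := (hinv.1 _ (hchild b).1).2 (hchild b).2
    rw [h2F, h2p] at h3
    obtain ⟨y, hy, hyz⟩ := T.mem_span.1 h3
    rcases hy with rfl | hy
    · exact hyz
    · simp at hy
  exact T.ch_inj T.root (T.eq_of_dep (hmem true) (hmem false) (by rw [T.dep_ch, T.dep_ch]))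

include M in
theorem not_connectedSpheres : ¬ ConnectedSpheres S := by
  rintro ⟨-, R, h⟩
  obtain ⟨n, hn⟩ := M.not_connected (R + 2)
  obtain ⟨r, hr, hc⟩ := h n
  exact hn r (by omega) hc

end LModel

end Pool.Agent.V1125
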